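import Pool.Agent.Lib_MP_53dcbc_co.Quot

/-!
# Quotients of partial congruence partitions
-/

namespace Pool.Agent.Lib_MP_53dcbc_mc

open Subgroup Pool.Agent.Lib_MP_53dcbc_co

universe u

theorem card_quot' {G : Type u} [Group G] [Finite G] {s t u : ℕ} (ht : 0 < t)
    (hst : s = t * u) (hG : Nat.card G = s ^ 2) {N : Subgroup G} (hN : Nat.card N = t ^ 2) :
    Nat.card (G ⧸ N) = u ^ 2 := by
  have h := card_eq_card_quotient_mul_card_subgroup N
  rw [hG, hN, hst, mul_pow, mul_comm] at h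
  exact (Nat.eq_of_mul_eq_mul_right (pow_pos ht 2) h).symm

theorem card_map_mul_card_inf {G : Type u} [Group G] [Finite G] (N U : Subgroup G) [N.Normal] :
    Nat.card (U.map (QuotientGroup.mk' N)) * Nat.card (U ⊓ N : Subgroup G) = Nat.card U := by
  have h1 : Nat.card (U.map (QuotientGroup.mk' N)) = N.relIndex U := by
    rw [← relIndex_ker, QuotientGroup.ker_mk']
  rw [h1, inf_comm, ← relIndex_bot_left (N ⊓ U), ← inf_relIndex_right N U, mul_comm,
    relIndex_mul_relIndex _ _ _ bot_le inf_le_right, relIndex_bot_left]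

theorem quotient_pcp {G : Type u} [Group G] [Finite G] {s t u : ℕ} (ht : 0 < t)
    (hst : s = t * u) (hG : Nat.card G = s ^ 2) {U : Fin 3 → Subgroup G} (hU : IsPCP s U)
    {N : Subgroup G} [N.Normal] (hN : Nat.card N = t ^ 2)
    (hi : ∀ i, Nat.card (U i ⊓ N : Subgroup G) = t) :
    IsPCP u (fun i => (U i).map (QuotientGroup.mk' N)) := by
  have hq := card_quot' ht hst hG hN
  have hcard : ∀ i, Nat.card ((U i).map (QuotientGroup.mk' N)) = u := by
    intro i
    have h1 := card_map_mul_card_inf N (U i)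
    rw [hi, hU.1, hst, mul_comm] at h1
    exact Nat.eq_of_mul_eq_mul_left ht h1
  refine ⟨hcard, fun i j hij => ?_⟩
  have h : IsComplement' ((U i).map (QuotientGroup.mk' N)) ((U j).map (QuotientGroup.mk' N)) := by
    refine (Nat.bijective_iff_surjective_and_card _).2 ⟨?_, ?_⟩
    · intro x
      obtain ⟨g, rfl⟩ := QuotientGroup.mk'_surjective N x
      obtain ⟨a, ha, b, hb, rfl⟩ := hU.exists_mul hG hij g
      exact ⟨⟨⟨_, mem_map_of_mem _ ha⟩, ⟨_, mem_map_of_mem _ hb⟩⟩, by simp⟩
    · rw [Nat.card_prod]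
      have e1 := hcard i
      have e2 := hcard j
      change Nat.card ((U i).map (QuotientGroup.mk' N)) * Nat.card ((U j).map (QuotientGroup.mk' N)) = _
      rw [e1, e2, hq, sq]
  exact disjoint_iff.1 h.disjoint

/-- the intersection with a normal Hall subgroup -/
theorem card_inf_hall {G : Type u} [Group G] [Finite G] {s t u : ℕ} (ht : 0 < t) (hu : 0 < u)
    (hcop : Nat.Coprime t u) (hst : s = t * u) (hG : Nat.card G = s ^ 2)
    {U : Subgroup G} (hU : Nat.card U = s) {N : Subgroup G} [N.Normal] (hN : Nat.card N = t ^ 2) :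
    Nat.card (U ⊓ N : Subgroup G) = t := by
  have hq := card_quot' ht hst hG hN
  set c := Nat.card (U.map (QuotientGroup.mk' N)) with hc
  have h2 : c * Nat.card (U ⊓ N : Subgroup G) = s := by
    rw [hc, card_map_mul_card_inf, hU]
  have h3 : c ∣ u ^ 2 := by
    rw [← hq]; exact card_subgroup_dvd_card _
  have h4 : Nat.card (U ⊓ N : Subgroup G) ∣ t ^ 2 := by
    rw [← hN]; exact card_dvd_of_le inf_le_right
  have h5 : c ∣ u := by
    have h6 : Nat.Coprime c t := (Nat.Coprime.coprime_dvd_left h3 (Nat.Coprime.pow_left 2 hcop.symm))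
    apply h6.dvd_of_dvd_mul_left
    rw [← hst, ← h2]; exact Dvd.intro _ rfl
  have h7 : Nat.card (U ⊓ N : Subgroup G) ∣ t := by
    have h6 : Nat.Coprime (Nat.card (U ⊓ N : Subgroup G)) u :=
      (Nat.Coprime.coprime_dvd_left h4 (Nat.Coprime.pow_left 2 hcop))
    apply h6.dvd_of_dvd_mul_right
    rw [← hst, ← h2]; exact Dvd.intro_left _ rfl
  have h8 := Nat.le_of_dvd hu h5
  have h9 := Nat.le_of_dvd ht h7
  by_contra hne
  have h10 : Nat.card (U ⊓ N : Subgroup G) < t := lt_of_le_of_ne h9 hne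
  have h11 : c * Nat.card (U ⊓ N : Subgroup G) < u * t := by
    calc c * Nat.card (U ⊓ N : Subgroup G) ≤ u * Nat.card (U ⊓ N : Subgroup G) :=
          Nat.mul_le_mul_right _ h8
      _ < u * t := Nat.mul_lt_mul_of_pos_left h10 hu
  rw [h2, hst, mul_comm] at h11
  exact lt_irrefl _ h11

end Pool.Agent.Lib_MP_53dcbc_mc
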