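import Pool.Agent.Lib_MP_53dcbc_mc.Good

/-!
# Products of two cyclic subgroups of the same prime power order
-/

namespace Pool.Agent.Lib_MP_53dcbc_mc

open Subgroup Pool.Agent.Lib_MP_53dcbc_co

universe u

variable {P : Type u} [Group P] {p : ℕ} [hp : Fact p.Prime]

theorem orderOf_top_pow {a : ℕ} {c : P} (hc : orderOf c = p ^ (a + 1)) :
    orderOf (c ^ p ^ a) = p := by
  rw [orderOf_pow_of_dvd (pow_ne_zero _ hp.out.ne_zero) (by rw [hc]; exact pow_dvd_pow p (by omega)),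
    hc, pow_succ, Nat.mul_div_cancel_left _ (pow_pos hp.out.pos _)]

/-- elements of order dividing `p` in a cyclic group of order `p ^ (a + 1)` -/
theorem mem_socle {a : ℕ} {c x : P} (hc : orderOf c = p ^ (a + 1)) (hx : x ∈ zpowers c)
    (hxp : x ^ p = 1) : x ∈ zpowers (c ^ p ^ a) := by
  obtain ⟨m, rfl⟩ := hx
  simp only at hxp ⊢
  rw [← zpow_natCast, ← zpow_mul] at hxp
  have h1 : ((p ^ (a + 1) : ℕ) : ℤ) ∣ m * p := by
    rw [← hc]; exact orderOf_dvd_iff_zpow_eq_one.2 hxp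
  have h2 : ((p ^ a : ℕ) : ℤ) ∣ m := by
    have hp0 : (p : ℤ) ≠ 0 := by exact_mod_cast hp.out.ne_zero
    rw [pow_succ] at h1
    push_cast at h1 ⊢
    exact (mul_dvd_mul_iff_right hp0).1 h1
  obtain ⟨k, rfl⟩ := h2
  rw [zpow_mul, zpow_natCast]
  exact zpow_mem (mem_zpowers _) k

theorem zpowers_eq_of_prime {x y : P} (hx : orderOf x = p) (hy : orderOf y = p)
    (h : x ∈ zpowers y) : zpowers x = zpowers y := by
  have : Finite (zpowers y) := Nat.finite_of_card_ne_zero (by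
    rw [Nat.card_zpowers, hy]; exact hp.out.ne_zero)
  exact eq_of_le_of_card_ge (zpowers_le.2 h) (by rw [Nat.card_zpowers, Nat.card_zpowers, hx, hy])

/-- the minimal subgroup of a cyclic `p`-group -/
theorem socle_le {a : ℕ} {c x : P} (hc : orderOf c = p ^ (a + 1)) (hx : x ∈ zpowers c)
    (hx1 : x ≠ 1) : c ^ p ^ a ∈ zpowers x := by
  have h1 : orderOf x ∣ p ^ (a + 1) := by
    rw [← hc]; exact orderOf_dvd_of_mem_zpowers hx
  obtain ⟨i, hi, hoi⟩ := (Nat.dvd_prime_pow hp.out).1 h1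
  obtain ⟨i, rfl⟩ : ∃ j, i = j + 1 := by
    rcases i with _ | i
    · rw [pow_zero] at hoi
      exact absurd (orderOf_eq_one_iff.1 hoi) hx1
    · exact ⟨i, rfl⟩
  have h2 : orderOf (x ^ p ^ i) = p := orderOf_top_pow hoi
  have h3 : x ^ p ^ i ∈ zpowers (c ^ p ^ a) := by
    apply mem_socle hc (pow_mem hx _)
    have h4 := pow_orderOf_eq_one (x ^ p ^ i)
    rwa [h2] at h4
  have h4 := zpowers_eq_of_prime h2 (orderOf_top_pow hc) h3
  have h5 : c ^ p ^ a ∈ zpowers (x ^ p ^ i) := by rw [h4]; exact mem_zpowers _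
  exact (zpowers_le.2 (pow_mem (mem_zpowers x) _)) h5

/-- a `p`-element normalising a subgroup of order `p` centralises it -/
theorem commute_of_conj_pow {z g : P} (hz : orderOf z = p) {k : ℤ} (hk : z ^ k = g * z * g⁻¹)
    {n : ℕ} (hn : g ^ p ^ n = 1) : g * z = z * g := by
  have key : ∀ m : ℕ, g ^ m * z * (g ^ m)⁻¹ = z ^ (k ^ m) := by
    intro m
    induction m with
    | zero => simp
    | succ m ih =>
      have e : g ^ (m + 1) * z * (g ^ (m + 1))⁻¹ = g * (g ^ m * z * (g ^ m)⁻¹) * g⁻¹ := by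
        rw [pow_succ']; group
      rw [e, ih, ← conj_zpow, ← hk, ← zpow_mul, pow_succ']
  have h1 := key (p ^ n)
  rw [hn] at h1
  simp only [one_mul, inv_one, mul_one] at h1
  have h2 : (p : ℤ) ∣ k ^ p ^ n - 1 := by
    have h3 : (orderOf z : ℤ) ∣ k ^ p ^ n - 1 := by
      apply orderOf_dvd_iff_zpow_eq_one.2
      rw [zpow_sub, zpow_one, ← h1, mul_inv_cancel]
    rwa [hz] at h3
  have h3 : ((k : ZMod p)) ^ p ^ n = 1 := by
    have h4 := (ZMod.intCast_zmod_eq_zero_iff_dvd _ p).2 h2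
    push_cast at h4
    exact sub_eq_zero.1 h4
  rw [ZMod.pow_card_pow] at h3
  have h5 : (p : ℤ) ∣ k - 1 := by
    apply (ZMod.intCast_zmod_eq_zero_iff_dvd _ p).1
    push_cast
    rw [h3, sub_self]
  have h6 : z ^ (k - 1) = 1 := by
    apply orderOf_dvd_iff_zpow_eq_one.1
    rw [hz]; exact h5
  have h7 : z ^ k = z := by
    have : z ^ k = z ^ (k - 1) * z := by rw [zpow_sub, zpow_one]; group
    rw [this, h6, one_mul]
  rw [h7] at hk
  have h8 : g * z = z * g := by
    conv_rhs => rw [hk]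
    group
  exact h8

/-- a normal subgroup of order `p` of a finite `p`-group is central -/
theorem central_of_normal_line [Finite P] (hP : IsPGroup p P) {z : P} (hz : orderOf z = p)
    (hn : ∀ g : P, g * z * g⁻¹ ∈ zpowers z) : z ∈ center P := by
  rw [mem_center_iff]
  intro g
  obtain ⟨k, hk⟩ := hn g
  simp only at hk
  obtain ⟨n, hn⟩ := hP g
  exact commute_of_conj_pow hz hk hn

/-- The minimal subgroup of a large cyclic subgroup is central. -/
theorem central_of_cyclic [Finite P] (hP : IsPGroup p P) {a : ℕ} {c : P}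
    (hc : orderOf c = p ^ (a + 1)) (hcard : Nat.card P = (orderOf c) ^ 2) :
    c ^ p ^ a ∈ center P := by
  apply central_of_normal_line hP (orderOf_top_pow hc)
  intro g
  have hinf : zpowers c ⊓ zpowers (g⁻¹ * c * g) ≠ ⊥ := by
    intro hbot
    have hog : orderOf (g⁻¹ * c * g) = orderOf c := by
      have h1 : orderOf (MulAut.conj g⁻¹ c) = orderOf c :=
        orderOf_injective (MulAut.conj g⁻¹).toMonoidHom (MulAut.conj g⁻¹).injective c
      rw [MulAut.conj_apply, inv_inv] at h1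
      exact h1
    have h : IsComplement' (zpowers c) (zpowers (g⁻¹ * c * g)) := by
      apply isComplement'_of_card_mul_and_disjoint
      · rw [Nat.card_zpowers, Nat.card_zpowers, hog, hcard, sq]
      · rw [disjoint_iff]; exact hbot
    obtain ⟨⟨⟨_, i, rfl⟩, ⟨_, j, rfl⟩⟩, hab⟩ := h.2 g
    simp only at hab
    have h1 : (g⁻¹ * c * g) ^ j = g⁻¹ * c ^ j * g := by
      have := conj_zpow (i := j) (a := g⁻¹) (b := c)
      simpa using this
    rw [h1] at hab
    have h2 : g = c ^ j * c ^ i := by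
      have h3 : c ^ i * g⁻¹ * c ^ j = 1 := by
        have h4 : c ^ i * (g⁻¹ * c ^ j * g) * g⁻¹ = 1 := by rw [hab]; group
        calc c ^ i * g⁻¹ * c ^ j = c ^ i * (g⁻¹ * c ^ j * g) * g⁻¹ := by group
          _ = 1 := h4
      have h5 : g = g * (c ^ i * g⁻¹ * c ^ j) * 1 := by rw [h3]; group
      have h6 : g⁻¹ = (c ^ i)⁻¹ * (c ^ j)⁻¹ := by
        calc g⁻¹ = (c ^ i)⁻¹ * (c ^ i * g⁻¹ * c ^ j) * (c ^ j)⁻¹ := by group
          _ = _ := by rw [h3]; group
      rw [← inv_inv g, h6]; group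
    have h7 : g⁻¹ * c * g = c := by rw [h2]; group
    rw [h7, inf_idem, zpowers_eq_bot] at hbot
    rw [hbot, orderOf_one] at hc
    exact (Nat.one_lt_pow (Nat.succ_ne_zero a) hp.out.one_lt).ne hc
  obtain ⟨x, hx, hx1⟩ : ∃ x, x ∈ zpowers c ⊓ zpowers (g⁻¹ * c * g) ∧ x ≠ 1 := by
    by_contra hcon
    push Not at hcon
    exact hinf (eq_bot_iff.2 fun x hx => mem_bot.2 (hcon x hx))
  have h1 := socle_le hc hx.1 hx1
  have h2 := (zpowers_le.2 hx.2) h1
  obtain ⟨m, hm⟩ := h2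
  simp only at hm
  have h3 : (g⁻¹ * c * g) ^ m = g⁻¹ * c ^ m * g := by
    have := conj_zpow (i := m) (a := g⁻¹) (b := c)
    simpa using this
  rw [h3] at hm
  have h4 : g * c ^ p ^ a * g⁻¹ = c ^ m := by
    rw [← hm]; group
  rw [h4]
  apply mem_socle hc (zpow_mem (mem_zpowers c) m)
  have h5 : (c ^ p ^ a) ^ p = 1 := by
    have h6 := pow_orderOf_eq_one (c ^ p ^ a)
    rwa [orderOf_top_pow hc] at h6
  rw [← h4, conj_pow, h5]
  simp

end Pool.Agent.Lib_MP_53dcbc_mc
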