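import Mathlib

/-!
# The definitions used in the characterisation
-/

namespace Pool.Agent.Lib_MP_53dcbc_mc

open Subgroup

universe u

/-- `P` is metacyclic: it has a cyclic normal subgroup with cyclic quotient. -/
def Metacyclic (P : Type u) [Group P] : Prop :=
  ∃ x y : P, (zpowers x).Normal ∧ zpowers x ⊔ zpowers y = ⊤

/-- `G` is supersolvable: there is a finite chain `⊥ = N 0 ≤ N 1 ≤ ... ≤ N n = ⊤` of normal
subgroups of `G` such that every factor `N (i + 1) / N i` is cyclic. -/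
def SupersolvableGroup (G : Type u) [Group G] : Prop :=
  ∃ (n : ℕ) (N : ℕ → Subgroup G), N 0 = ⊥ ∧ N n = ⊤ ∧ (∀ i, (N i).Normal) ∧
    ∀ i < n, N i ≤ N (i + 1) ∧ ∃ g ∈ N (i + 1), N (i + 1) ≤ N i ⊔ zpowers g

/-- The elements of `K` that normalise `Q` normalise every subgroup of order `q` of `Q`. -/
def FixesLines {G : Type u} [Group G] (q : ℕ) (K Q : Subgroup G) : Prop :=
  ∀ x ∈ K, x ∈ normalizer (Q : Set G) → ∀ y ∈ Q, orderOf y = q → x * y * x⁻¹ ∈ zpowers y

end Pool.Agent.Lib_MP_53dcbc_mc
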