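import Pool.Agent.Lib_MP_53dcbc_mc.Line

/-!
# The dichotomy for the action on the socle
-/

namespace Pool.Agent.Lib_MP_53dcbc_mc

open Subgroup Pool.Agent.Lib_MP_53dcbc_co
open scoped Pointwise

universe u

theorem pow_relIndex_mem {G : Type u} [Group G] {A B : Subgroup G} [A.Normal] {x : G}
    (hx : x ∈ B) : x ^ (A.relIndex B) ∈ A := by
  have h3 := Subgroup.pow_index_mem (A.subgroupOf B) ⟨x, hx⟩
  exact h3

/-- an `r`-element `c` commutes, modulo `K`, with the generator `x` of a normal subgroup of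
order `r` modulo `K` -/
theorem commute_mod {G : Type u} [Group G] [Finite G] {A B K : Subgroup G} [A.Normal] [B.Normal]
    [K.Normal] {r b : ℕ} [hr : Fact r.Prime] (hrel : A.relIndex B = r) (hAK : A ≤ K) {x c : G}
    (hx : x ∈ B) (hxK : x ∉ K) (hgen : B ≤ A ⊔ zpowers x) (hc : c ^ r ^ b = 1) :
    c * x * c⁻¹ * x⁻¹ ∈ K := by
  have h1 : x ^ r ∈ A := by rw [← hrel]; exact pow_relIndex_mem hx
  have h2 : orderOf (QuotientGroup.mk' K x) = r := by
    apply orderOf_eq_prime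
    · rw [← map_pow, ← MonoidHom.mem_ker, QuotientGroup.ker_mk']
      exact hAK h1
    · intro h
      apply hxK
      rwa [← MonoidHom.mem_ker, QuotientGroup.ker_mk'] at h
  have h3 : c * x * c⁻¹ ∈ A ⊔ zpowers x := hgen (Subgroup.Normal.conj_mem ‹B.Normal› x hx c)
  obtain ⟨n, hn, w, ⟨e, he⟩, hnw⟩ := mem_sup_of_normal_left.1 h3
  simp only at he
  have h4 : (QuotientGroup.mk' K x) ^ e =
      QuotientGroup.mk' K c * QuotientGroup.mk' K x * (QuotientGroup.mk' K c)⁻¹ := by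
    have h5 : QuotientGroup.mk' K n = 1 := by
      rw [← MonoidHom.mem_ker, QuotientGroup.ker_mk']; exact hAK hn
    rw [← map_inv, ← map_mul, ← map_mul, ← hnw, map_mul, h5, one_mul, ← he, map_zpow]
  have h6 := commute_of_conj_pow h2 h4 (n := b) (by rw [← map_pow, hc, map_one])
  have h7 : QuotientGroup.mk' K (c * x * c⁻¹ * x⁻¹) = 1 := by
    rw [map_mul, map_mul, map_mul, map_inv, map_inv, h6]; group
  rwa [← MonoidHom.mem_ker, QuotientGroup.ker_mk'] at h7

/-- generators of the intersections with the socle -/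
theorem exists_gen' {G : Type u} [Group G] {p : ℕ} [hp : Fact p.Prime] {U : Fin 3 → Subgroup G}
    {E : Subgroup G} (hEU : ∀ i, Nat.card (U i ⊓ E : Subgroup G) = p) :
    ∃ y : Fin 3 → G, ∀ i, U i ⊓ E = zpowers (y i) ∧ orderOf (y i) = p := by
  have h : ∀ i, ∃ y : G, U i ⊓ E = zpowers y ∧ orderOf y = p := by
    intro i
    have h2 : IsCyclic (U i ⊓ E : Subgroup G) := isCyclic_of_prime_card (hEU i)
    obtain ⟨y, hy⟩ := (Subgroup.isCyclic_iff_exists_zpowers_eq_top (U i ⊓ E)).1 h2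
    exact ⟨y, hy.symm, by rw [← Nat.card_zpowers, hy, hEU i]⟩
  choose y hy using h
  exact ⟨y, hy⟩

/-- The key dichotomy. -/
theorem dichotomy' {G : Type u} [Group G] [Finite G] {s : ℕ}
    (hG : Nat.card G = s ^ 2) {U : Fin 3 → Subgroup G} (hU : IsPCP s U)
    (hZ : ∀ i, IsZGroup (U i)) (hab : Ab2 G) {p : ℕ}
    [hp : Fact p.Prime] {P : Subgroup G} [hPn : P.Normal]
    (hcP : Nat.card P = p ^ 2) (hPp : ∀ x ∈ P, x ^ p = 1)
    (hPU : ∀ i, Nat.card (U i ⊓ P : Subgroup G) = p) (hch : Chain P) :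
    powSub P = ⊤ ∨ ∃ k, (∀ i, i ≠ k → (U i ⊓ P).Normal) ∧ U k ≤ powSub P ∧
      ¬ (U k ⊓ P).Normal := by
  by_cases hK : powSub P = ⊤
  · exact Or.inl hK
  right
  have hKn : (powSub P).Normal := powSub_normal P
  have hPK : P ≤ powSub P := by
    intro x hx y hy
    have : x * y * x⁻¹ = y := by rw [comm_of_sq hcP hx hy]; group
    rw [this]; exact mem_zpowers y
  obtain ⟨n, N, hN0, hNn, hNnor, hNstep⟩ := hch
  classical
  have hex : ∃ i, ¬ N i ≤ powSub P := ⟨n, by rw [hNn, top_le_iff]; exact hK⟩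
  obtain ⟨j, hj1, hj2, hjn⟩ : ∃ j, N j ≤ powSub P ∧ ¬ N (j + 1) ≤ powSub P ∧ j < n := by
    have h1 := Nat.find_spec hex
    have h2 : Nat.find hex ≠ 0 := by
      intro h
      rw [h, hN0] at h1
      exact h1 hPK
    obtain ⟨j, hj⟩ := Nat.exists_eq_succ_of_ne_zero h2
    have h3 : ¬ ¬ N j ≤ powSub P := Nat.find_min hex (by omega)
    have h4 : Nat.find hex ≤ n := Nat.find_min' hex (by rw [hNn, top_le_iff]; exact hK)
    refine ⟨j, not_not.1 h3, ?_, by omega⟩
    rw [hj] at h1; exact h1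
  obtain ⟨hle, hprime⟩ := hNstep j hjn
  obtain ⟨r, hr⟩ : ∃ r, r = (N j).relIndex (N (j + 1)) := ⟨_, rfl⟩
  rw [← hr] at hprime
  have : Fact r.Prime := ⟨hprime⟩
  have := hNnor j
  have := hNnor (j + 1)
  obtain ⟨x₀, hx₀M, hx₀K, ⟨e, hx₀o⟩, hMle⟩ := exists_r_element hle hr.symm hj1 hj2
  have hpg : IsPGroup r (zpowers x₀) := IsPGroup.of_card (n := e) (by rw [Nat.card_zpowers, hx₀o])
  obtain ⟨R, hR⟩ := hpg.exists_le_sylow
  have hx₀R : x₀ ∈ (R : Subgroup G) := hR (mem_zpowers _)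
  have hrs : r ∣ s := by
    have h1 : r ∣ Nat.card G := by
      have h2 : r ∣ Nat.card (N (j + 1)) := by rw [hr]; exact relIndex_dvd_card _ _
      exact h2.trans (card_subgroup_dvd_card _)
    rw [hG] at h1
    exact hprime.dvd_of_dvd_pow h1
  obtain ⟨b, m, hrm, hsr⟩ := exists_pow_succ hprime (ne_zero_of_card hG) hrs
  have hcR : Nat.card (R : Subgroup G) = r ^ (b + 1) * r ^ (b + 1) := by
    rw [card_sylow' hsr hrm hG R, ← pow_add]; congr 1; ring
  obtain ⟨g, z, hgz⟩ := exists_common_gen hsr hrm hG hU hZ R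
  have hV := hU.conj hG g
  set V : Fin 3 → Subgroup G := fun i => cj (g i) (U i) with hVdef
  have hzV : ∀ i, z i ∈ V i := fun i => (hgz i).1
  have hzR : ∀ i, z i ∈ (R : Subgroup G) := fun i => (hgz i).2.1
  have hzo : ∀ i, orderOf (z i) = r ^ (b + 1) := fun i => (hgz i).2.2
  have hbotz : ∀ i j, i ≠ j → zpowers (z i) ⊓ zpowers (z j) = ⊥ :=
    fun i j hij => zpowers_inf_of_pcp hV hzV hij
  have htwo : ∀ i j, i ≠ j → z i ∈ powSub P → z j ∉ powSub P := by
    intro i j hij h1 h2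
    obtain ⟨a, b, hab⟩ := span_cyc hcR (hzR i) (hzR j) (hzo i) (hzo j) (hbotz i j hij) hx₀R
    apply hx₀K
    rw [hab]
    exact mul_mem (zpow_mem h1 _) (zpow_mem h2 _)
  obtain ⟨i, k₁, k, hik, hik', hkk', hzi, hzk⟩ : ∃ i k₁ k : Fin 3, i ≠ k₁ ∧ i ≠ k ∧ k₁ ≠ k ∧
      z i ∉ powSub P ∧ z k₁ ∉ powSub P := by
    by_cases h0 : z 0 ∈ powSub P
    · exact ⟨1, 2, 0, by decide, by decide, by decide, htwo 0 1 (by decide) h0,
        htwo 0 2 (by decide) h0⟩
    · by_cases h1 : z 1 ∈ powSub P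
      · exact ⟨0, 2, 1, by decide, by decide, by decide, h0, htwo 1 2 (by decide) h1⟩
      · exact ⟨0, 1, 2, by decide, by decide, by decide, h0, h1⟩
  have hPV : ∀ i, Nat.card (V i ⊓ P : Subgroup G) = p := by
    intro i
    have h1 : cj (g i) (U i ⊓ P) = V i ⊓ P := by
      ext x
      rw [mem_cj]
      constructor
      · intro hx
        refine Subgroup.mem_inf.2 ⟨mem_cj.2 hx.1, ?_⟩
        have := hPn.conj_mem _ hx.2 (g i)
        have e : g i * ((g i)⁻¹ * x * g i) * (g i)⁻¹ = x := by group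
        rwa [e] at this
      · intro hx
        refine Subgroup.mem_inf.2 ⟨mem_cj.1 hx.1, ?_⟩
        have := hPn.conj_mem _ hx.2 (g i)⁻¹
        rwa [inv_inv] at this
    rw [← h1, card_cj, hPU]
  obtain ⟨y, hy⟩ := exists_gen' hPV
  have hyV : ∀ i, y i ∈ V i := fun i => by
    have : y i ∈ V i ⊓ P := by rw [(hy i).1]; exact mem_zpowers _
    exact this.1
  have hyP : ∀ i, y i ∈ P := fun i => by
    have : y i ∈ V i ⊓ P := by rw [(hy i).1]; exact mem_zpowers _
    exact this.2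
  have hyo : ∀ i, orderOf (y i) = p := fun i => (hy i).2
  have hyne : ∀ i j, i ≠ j → y j ∉ zpowers (y i) := fun i j hij => hV.notMem_zpowers hyV hyo hij
  have hVstab : ∀ i, V i ≤ lineStab (y i) := by
    intro i v hv
    rw [mem_lineStab, ← (hy i).1]
    exact Subgroup.mem_inf.2 ⟨(V i).mul_mem ((V i).mul_mem hv (hyV i)) ((V i).inv_mem hv),
      hPn.conj_mem _ (hyP i) v⟩
  have hxstab : ∀ i, z i ∉ powSub P → x₀ ∈ lineStab (y i) := by
    intro i hi
    rw [mem_lineStab]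
    have hl : z i * y i * (z i)⁻¹ ∈ zpowers (y i) := mem_lineStab.1 (hVstab i (hzV i))
    by_cases hr2 : r = 2
    · subst hr2
      exact commute_line hcP (hyP i) (hyo i) hl hi (hab R _ (hzR i) _ hx₀R)
    · have hzz : z i ^ r ^ (b + 1) = 1 := by
        have h1 := pow_orderOf_eq_one (z i)
        rwa [hzo i] at h1
      have hq : z i * x₀ * (z i)⁻¹ * x₀⁻¹ ∈ powSub P :=
        commute_mod hr.symm hj1 hx₀M hx₀K hMle hzz
      exact line_of_commute_mod hcP hPp (hyP i) (hyo i) hl hi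
        ((hprime.odd_of_ne_two hr2).pow) hzz hq
  have hKstab : ∀ a ∈ P, powSub P ≤ lineStab a := by
    intro a ha x hx
    rw [mem_lineStab]
    exact hx a ha
  have hMstab : ∀ i, z i ∉ powSub P → N (j + 1) ≤ lineStab (y i) := by
    intro i hi
    refine hMle.trans (sup_le (hj1.trans (hKstab _ (hyP i))) (zpowers_le.2 (hxstab i hi)))
  -- `V i` stabilises the other line
  have hcross : ∀ i k : Fin 3, i ≠ k → z i ∉ powSub P → z k ∉ powSub P → V i ≤ lineStab (y k) := by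
    intro i k hik hi hk h hh
    rw [mem_lineStab]
    by_contra hc
    have hc2 : h * y k * h⁻¹ ∉ zpowers (y i) := by
      intro h1
      have h2 : h⁻¹ ∈ lineStab (y i) := inv_mem (hVstab i hh)
      have h3 : ∀ w ∈ zpowers (y i), h⁻¹ * w * h⁻¹⁻¹ ∈ zpowers (y i) := by
        intro w hw
        have h4 : h⁻¹ * w * h⁻¹⁻¹ ∈ zpowers w := h2 w hw
        exact (zpowers_le.2 hw) h4
      have h5 := h3 _ h1
      have h6 : h⁻¹ * (h * y k * h⁻¹) * h⁻¹⁻¹ = y k := by group
      rw [h6] at h5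
      exact hyne i k hik h5
    have h7 : x₀ * (h * y k * h⁻¹) * x₀⁻¹ ∈ zpowers (h * y k * h⁻¹) := by
      have h8 : h⁻¹ * x₀ * h ∈ N (j + 1) := by
        have := (hNnor (j + 1)).conj_mem x₀ hx₀M h⁻¹
        simpa using this
      obtain ⟨m, hm⟩ := mem_lineStab.1 (hMstab k hk h8)
      simp only at hm
      refine ⟨m, ?_⟩
      simp only
      rw [conj_zpow, hm]
      group
    apply hx₀K
    exact mem_powSub_of_lines hcP (hyP i) (hyP k) (hPn.conj_mem _ (hyP k) h) (hyo i) (hyo k)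
      (hyne i k hik) hc2 hc (mem_lineStab.1 (hxstab i hi)) (mem_lineStab.1 (hxstab k hk)) h7
  have hfull : ∀ i k : Fin 3, i ≠ k → z i ∉ powSub P → z k ∉ powSub P →
      ∀ h : G, h ∈ lineStab (y k) := by
    intro i k hik hi hk h
    obtain ⟨a, ha, b, hb, rfl⟩ := hV.exists_mul hG hik h
    exact mul_mem (hcross i k hik hi hk ha) (hVstab k hb)
  have hnorm : ∀ i k : Fin 3, i ≠ k → z i ∉ powSub P → z k ∉ powSub P → (U k ⊓ P).Normal := by
    intro i k hik hi hk
    have h1 : (V k ⊓ P).Normal := by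
      refine ⟨fun w hw h => ?_⟩
      rw [(hy k).1] at hw ⊢
      have h2 := hfull i k hik hi hk h
      have h3 : h * w * h⁻¹ ∈ zpowers w := h2 w hw
      exact (zpowers_le.2 hw) h3
    have h4 : U k ⊓ P = V k ⊓ P := by
      apply le_antisymm
      · intro w hw
        have h5 : g k * w * (g k)⁻¹ ∈ V k ⊓ P := by
          refine Subgroup.mem_inf.2 ⟨?_, hPn.conj_mem _ hw.2 _⟩
          rw [hVdef]
          simp only
          rw [mem_cj]
          have : (g k)⁻¹ * (g k * w * (g k)⁻¹) * g k = w := by group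
          rw [this]; exact hw.1
        have h6 := h1.conj_mem _ h5 (g k)⁻¹
        have h7 : (g k)⁻¹ * (g k * w * (g k)⁻¹) * (g k)⁻¹⁻¹ = w := by group
        rw [h7] at h6; exact h6
      · intro w hw
        have h5 := h1.conj_mem _ hw (g k)
        have h6 := mem_cj.1 h5.1
        have h7 : (g k)⁻¹ * (g k * w * (g k)⁻¹) * g k = w := by group
        rw [h7] at h6
        exact ⟨h6, hw.2⟩
    rw [h4]; exact h1
  have hni : (U i ⊓ P).Normal := hnorm k₁ i hik.symm hzk hzi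
  have hnk : (U k₁ ⊓ P).Normal := hnorm i k₁ hik hzi hzk
  obtain ⟨y', hy'⟩ := exists_gen' hPU
  have hyU' : ∀ i, y' i ∈ U i := fun i => by
    have : y' i ∈ U i ⊓ P := by rw [(hy' i).1]; exact mem_zpowers _
    exact this.1
  have hyP' : ∀ i, y' i ∈ P := fun i => by
    have : y' i ∈ U i ⊓ P := by rw [(hy' i).1]; exact mem_zpowers _
    exact this.2
  have hyo' : ∀ i, orderOf (y' i) = p := fun i => (hy' i).2
  have hyne' : ∀ i j, i ≠ j → y' j ∉ zpowers (y' i) :=
    fun i j hij => hU.notMem_zpowers hyU' hyo' hij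
  have hstabn : ∀ l, (U l ⊓ P).Normal → ∀ x : G, x * y' l * x⁻¹ ∈ zpowers (y' l) := by
    intro l hl x
    rw [← (hy' l).1]
    apply hl.conj_mem
    rw [(hy' l).1]; exact mem_zpowers _
  have hlast : ∀ x : G, x * y' k * x⁻¹ ∈ zpowers (y' k) → x ∈ powSub P := by
    intro x hx
    exact mem_powSub_of_lines hcP (hyP' i) (hyP' k₁) (hyP' k) (hyo' i) (hyo' k₁)
      (hyne' i k₁ hik) (hyne' i k hik') (hyne' k₁ k hkk') (hstabn i hni x) (hstabn k₁ hnk x) hx
  refine ⟨k, ?_, ?_, ?_⟩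
  · intro l hl
    have : l = i ∨ l = k₁ := fin3_cases i k₁ k l hik hik' hkk' hl
    rcases this with rfl | rfl
    · exact hni
    · exact hnk
  · intro x hx
    apply hlast
    rw [← (hy' k).1]
    exact Subgroup.mem_inf.2 ⟨(U k).mul_mem ((U k).mul_mem hx (hyU' k)) ((U k).inv_mem hx),
      hPn.conj_mem _ (hyP' k) x⟩
  · intro hkn
    apply hK
    rw [eq_top_iff]
    intro x _
    exact hlast x (hstabn k hkn x)

end Pool.Agent.Lib_MP_53dcbc_mc
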