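import Pool.Agent.Lib_MP_53dcbc_mc.TwoGen

/-!
# A product of two cyclic subgroups of equal order meeting trivially is metacyclic
-/

namespace Pool.Agent.Lib_MP_53dcbc_mc

open Subgroup Pool.Agent.Lib_MP_53dcbc_co

universe u

variable {p : ℕ} [hp : Fact p.Prime]

omit hp in
theorem mk_eq_one_iff {P : Type u} [Group P] {E : Subgroup P} [E.Normal] (x : P) :
    QuotientGroup.mk' E x = 1 ↔ x ∈ E := by
  rw [← MonoidHom.mem_ker, QuotientGroup.ker_mk']

theorem Good.mul_pow_top : ∀ {a : ℕ} {P : Type u} [Group P],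
    (p ≠ 2 ∨ ∀ x y : P, x * y = y * x) → Good p a P →
    ∀ (j : ℕ) (v f : P), f ^ p ^ (j + 1) = 1 → (v * f) ^ p ^ j = v ^ p ^ j * f ^ p ^ j
  | 0, P, _, _, h, j, v, f, _ => by
      have h1 : Nat.card P = 1 := h
      have := (Nat.card_eq_one_iff_unique.1 h1).1
      exact Subsingleton.elim _ _
  | a + 1, P, _, _, _, 0, v, f, _ => by simp
  | a + 1, P, _, h2, h, j + 1, v, f, hf => by
      obtain ⟨E, hE, hz, hc, he, hq⟩ := h
      have hfE : f ^ p ^ (j + 1) ∈ E := by
        rw [← he, ← pow_mul, ← pow_succ]; exact hf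
      have h1 := Good.mul_pow_top (odd_or_comm_quot h2 E) hq j (QuotientGroup.mk' E v)
        (QuotientGroup.mk' E f) (by rw [← map_pow, mk_eq_one_iff]; exact hfE)
      obtain ⟨u, hu⟩ : ∃ u, u = v ^ p ^ j := ⟨_, rfl⟩
      obtain ⟨g, hg⟩ : ∃ g, g = f ^ p ^ j := ⟨_, rfl⟩
      have h3 : ((v * f) ^ p ^ j) * (u * g)⁻¹ ∈ E := by
        rw [← mk_eq_one_iff, map_mul, map_inv, map_mul, map_pow,
          map_mul, h1, hu, hg, map_pow, map_pow, mul_inv_cancel]
      have h4 : g * u * (u * g)⁻¹ ∈ E := by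
        rcases a with _ | b
        · have h5 : Nat.card (P ⧸ E) = 1 := hq
          have := (Nat.card_eq_one_iff_unique.1 h5).1
          rw [← mk_eq_one_iff]
          exact Subsingleton.elim _ _
        · obtain ⟨E', hE', hz', hc', he', hq'⟩ := hq
          apply comm_mem_of_quot
          have hge : QuotientGroup.mk' E g ∈ E' := by
            rw [← he', hg, map_pow, ← pow_mul, ← pow_succ, ← map_pow, mk_eq_one_iff]
            exact hfE
          exact mem_center_iff.1 (hz' hge) _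
      have h5 : (u * g) ^ p = u ^ p * g ^ p := by
        apply mul_pow_prime
        · rcases h2 with h2 | h2
          · exact Or.inl h2
          · exact Or.inr (h2 _ _)
        · intro x
          exact (mem_center_iff.1 (hz h4) x).symm
        · exact (he _).2 h4
      have h6 : (v * f) ^ p ^ j = ((v * f) ^ p ^ j) * (u * g)⁻¹ * (u * g) := by group
      have h7 : ((v * f) ^ p ^ j * (u * g)⁻¹) ^ p = 1 := (he _).2 h3
      rw [pow_succ, pow_mul, h6, Commute.mul_pow (show Commute _ _ from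
        (mem_center_iff.1 (hz h3) _).symm), h7, one_mul, h5, hu, hg, ← pow_mul, ← pow_mul]

/-- every element of order dividing `p` is a top power -/
theorem Good.exists_root {a : ℕ} {P : Type u} [Group P] [Finite P]
    (h2 : p ≠ 2 ∨ ∀ x y : P, x * y = y * x) (h : Good p (a + 1) P) {e : P} (he : e ^ p = 1) :
    ∃ u : P, u ^ p ^ a = e := by
  have hmul := h.mul_pow h2
  have hexp := h.pow_eq_one
  have hcard := h.card
  have hker := h.card_pow_eq_one
  let φ : P →* P := { toFun := fun x => x ^ p ^ a, map_one' := one_pow _, map_mul' := hmul }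
  have hφ : ∀ x, φ x = x ^ p ^ a := fun x => rfl
  obtain ⟨E, hEn, hEc, hEcard, hE, -⟩ := h
  have h1 : φ.range ≤ E := by
    rintro _ ⟨x, rfl⟩
    rw [← hE, hφ, ← pow_mul, ← pow_succ]
    exact hexp x
  have h3 : Nat.card φ.ker = p ^ (2 * a) := by
    rw [← hker]
    exact Nat.card_congr ⟨fun x => ⟨x.1, x.2⟩, fun x => ⟨x.1, x.2⟩, fun _ => rfl, fun _ => rfl⟩
  have h4 : Nat.card φ.range = p ^ 2 := by
    have h5 := Nat.card_congr (QuotientGroup.quotientKerEquivRange φ).toEquiv
    have h6 := card_eq_card_quotient_mul_card_subgroup φ.ker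
    rw [h5, h3, hcard] at h6
    have h7 : p ^ (2 * (a + 1)) = p ^ 2 * p ^ (2 * a) := by rw [← pow_add]; congr 1; ring
    rw [h7] at h6
    exact (Nat.eq_of_mul_eq_mul_right (pow_pos hp.out.pos _) h6).symm
  have h5 : φ.range = E := eq_of_le_of_card_ge h1 (by rw [h4, hEcard])
  have h6 : e ∈ φ.range := by rw [h5, ← hE]; exact he
  obtain ⟨u, hu⟩ := h6
  exact ⟨u, hu⟩

theorem Good.exists_max : ∀ {a : ℕ} {P : Type u} [Group P] [Finite P],
    (p ≠ 2 ∨ ∀ x y : P, x * y = y * x) → Good p (a + 1) P →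
    ∀ x : P, ∃ v : P, v ^ p ^ a ≠ 1 ∧ x ∈ zpowers v
  | 0, P, _, _, _, h, x => by
      by_cases hx : x = 1
      · have h1 : 1 < Nat.card P := by
          rw [h.card]
          exact Nat.one_lt_pow (by norm_num) hp.out.one_lt
        have hnt : Nontrivial P := Finite.one_lt_card_iff_nontrivial.1 h1
        obtain ⟨v, hv⟩ := exists_ne (1 : P)
        exact ⟨v, by simpa using hv, by rw [hx]; exact one_mem _⟩
      · exact ⟨x, by simpa using hx, mem_zpowers x⟩
  | a + 1, P, _, _, h2, h, x => by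
      by_cases hx : x ^ p ^ (a + 1) ≠ 1
      · exact ⟨x, hx, mem_zpowers x⟩
      have hx' : x ^ p ^ (a + 1) = 1 := not_not.1 hx
      have hroot : ∀ {e : P}, e ^ p = 1 → ∃ u : P, u ^ p ^ (a + 1) = e := h.exists_root h2
      have hmul := h.mul_pow h2
      have htop := h.mul_pow_top h2
      have hexp := h.pow_eq_one
      obtain ⟨E, hEn, hEc, hEcard, hE, hq⟩ := h
      by_cases hxE : x ∈ E
      · by_cases hx1 : x = 1
        · obtain ⟨w, hw, how⟩ := exists_order_p (a := 1) hEcard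
          obtain ⟨u, hu⟩ := hroot ((hE w).2 hw)
          refine ⟨u, ?_, by rw [hx1]; exact one_mem _⟩
          rw [hu]
          rintro rfl
          rw [orderOf_one] at how
          exact hp.out.one_lt.ne how
        · obtain ⟨u, hu⟩ := hroot ((hE x).2 hxE)
          exact ⟨u, by rw [hu]; exact hx1, by rw [← hu]; exact pow_mem (mem_zpowers u) _⟩
      · obtain ⟨v', hv', hxv⟩ := Good.exists_max (odd_or_comm_quot h2 E) hq (QuotientGroup.mk' E x)
        obtain ⟨v, rfl⟩ := QuotientGroup.mk'_surjective E v'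
        have hxv' : QuotientGroup.mk' E x ∈ Submonoid.powers (QuotientGroup.mk' E v) :=
          mem_powers_iff_mem_zpowers.2 hxv
        obtain ⟨n, hn⟩ := hxv'
        simp only at hn
        have hn0 : n ≠ 0 := by
          rintro rfl
          rw [pow_zero] at hn
          exact hxE ((mk_eq_one_iff x).1 hn.symm)
        obtain ⟨j, k, hk, hjk⟩ := Nat.exists_eq_pow_mul_and_not_dvd hn0 p hp.out.ne_one
        have hv1 : v ^ p ^ (a + 1) ≠ 1 := by
          intro h3
          apply hv'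
          rw [← map_pow, mk_eq_one_iff, ← hE, ← pow_mul, ← pow_succ]
          exact h3
        have hov : orderOf v = p ^ (a + 1 + 1) := orderOf_eq_prime_pow hv1 (hexp v)
        obtain ⟨v₁, hv₁⟩ : ∃ v₁, v₁ = v ^ k := ⟨_, rfl⟩
        have hv₁1 : v₁ ^ p ^ (a + 1) ≠ 1 := by
          rw [hv₁, ← pow_mul, mul_comm, pow_mul]
          intro h3
          have h4 : p ∣ k := by
            rw [← orderOf_top_pow hov]; exact orderOf_dvd_of_pow_eq_one h3
          exact hk h4
        have hxe : (v₁ ^ p ^ j)⁻¹ * x ∈ E := by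
          rw [← mk_eq_one_iff, map_mul, map_inv, ← hn, map_pow, hv₁, map_pow, hjk, ← pow_mul,
            mul_comm k, inv_mul_cancel]
        obtain ⟨e, hee⟩ : ∃ e, e = (v₁ ^ p ^ j)⁻¹ * x := ⟨_, rfl⟩
        rw [← hee] at hxe
        have hx2 : x = v₁ ^ p ^ j * e := by rw [hee]; group
        obtain ⟨u, hu⟩ := hroot ((hE e).2 hxe)
        have hj : j ≤ a := by
          by_contra hj
          apply hxE
          rw [hx2]
          refine E.mul_mem ?_ hxe
          rw [← hE, ← pow_mul, ← pow_succ]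
          have h4 : p ^ (j + 1) = p ^ (a + 1 + 1) * p ^ (j - (a + 1)) := by
            rw [← pow_add]; congr 1; omega
          rw [h4, pow_mul, hexp v₁, one_pow]
        obtain ⟨f, hf⟩ : ∃ f, f = u ^ p ^ (a + 1 - j) := ⟨_, rfl⟩
        have hfj : f ^ p ^ j = e := by
          rw [hf, ← pow_mul, ← pow_add]
          have : a + 1 - j + j = a + 1 := by omega
          rw [this, hu]
        have hfj1 : f ^ p ^ (j + 1) = 1 := by
          rw [pow_succ, pow_mul, hfj]; exact (hE e).2 hxe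
        have hfa : f ^ p ^ (a + 1) = 1 := by
          have h4 : p ^ (a + 1) = p ^ (j + 1) * p ^ (a - j) := by
            rw [← pow_add]; congr 1; omega
          rw [h4, pow_mul, hfj1, one_pow]
        refine ⟨v₁ * f, ?_, ?_⟩
        · rw [hmul, hfa, mul_one]; exact hv₁1
        · rw [hx2, ← hfj, ← htop j v₁ f hfj1]
          exact pow_mem (mem_zpowers _) _

theorem comm_normal : ∀ {a : ℕ} {P : Type u} [Group P] [Finite P],
    (p ≠ 2 ∨ ∀ x y : P, x * y = y * x) → Good p a P → ∀ c₁ c₂ : P,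
    (∀ x : P, ∃ i j : ℤ, x = c₁ ^ i * c₂ ^ j) →
    (∀ g, g * (c₂ * c₁ * c₂⁻¹ * c₁⁻¹) * g⁻¹ ∈ zpowers (c₂ * c₁ * c₂⁻¹ * c₁⁻¹)) ∧
    ∀ g h : P, g * h * g⁻¹ * h⁻¹ ∈ zpowers (c₂ * c₁ * c₂⁻¹ * c₁⁻¹)
  | 0, P, _, _, _, h, c₁, c₂, _ => by
      have h1 : Nat.card P = 1 := h
      have := (Nat.card_eq_one_iff_unique.1 h1).1
      refine ⟨fun g => ?_, fun g h => ?_⟩
      · rw [Subsingleton.elim (g * (c₂ * c₁ * c₂⁻¹ * c₁⁻¹) * g⁻¹) 1]; exact one_mem _
      · rw [Subsingleton.elim (g * h * g⁻¹ * h⁻¹) 1]; exact one_mem _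
  | a + 1, P, _, _, h2, h, c₁, c₂, hgen => by
      obtain ⟨w, hw⟩ : ∃ w, w = c₂ * c₁ * c₂⁻¹ * c₁⁻¹ := ⟨_, rfl⟩
      have hmul := h.mul_pow h2
      have hexp := h.pow_eq_one
      obtain ⟨v, hv, n, hn⟩ := h.exists_max h2 w
      simp only at hn
      obtain ⟨E, hEn, hEc, hEcard, hE, hq⟩ := h
      have hEcomm : ∀ e ∈ E, ∀ x : P, e * x = x * e := fun e he x =>
        (mem_center_iff.1 (hEc he) x).symm
      have ih := (comm_normal (odd_or_comm_quot h2 E) hq (QuotientGroup.mk' E c₁)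
        (QuotientGroup.mk' E c₂) (by
          intro x
          obtain ⟨x, rfl⟩ := QuotientGroup.mk'_surjective E x
          obtain ⟨i, j, hij⟩ := hgen x
          exact ⟨i, j, by rw [hij, map_mul, map_zpow, map_zpow]⟩)).2
      -- the top power of `w` is trivial
      have hinv : ∀ x : P, (x⁻¹) ^ p ^ a = (x ^ p ^ a)⁻¹ := fun x => inv_pow _ _
      have htopE : ∀ x : P, x ^ p ^ a ∈ E := by
        intro x
        rw [← hE, ← pow_mul, ← pow_succ]
        exact hexp x
      have hwtop : w ^ p ^ a = 1 := by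
        rw [hw, hmul, hmul, hmul, hinv, hinv, hEcomm _ (htopE c₂)]
        group
      have hov : orderOf v = p ^ (a + 1) := orderOf_eq_prime_pow hv (hexp v)
      have hpn : (p : ℤ) ∣ n := by
        have h3 : (v ^ p ^ a) ^ n = 1 := by
          rw [← hwtop, ← hn, ← zpow_natCast, ← zpow_natCast, ← zpow_mul, ← zpow_mul, mul_comm]
        rw [← orderOf_top_pow hov]
        exact orderOf_dvd_iff_zpow_eq_one.2 h3
      have key : ∀ g, g * w * g⁻¹ ∈ zpowers w := by
        intro g
        obtain ⟨m, hm⟩ := ih (QuotientGroup.mk' E g) (QuotientGroup.mk' E v)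
        simp only at hm
        have hm' : (QuotientGroup.mk' E w) ^ m = QuotientGroup.mk' E (g * v * g⁻¹ * v⁻¹) := by
          rw [hw]
          simp only [map_mul, map_inv]
          exact hm
        have h3 : (w ^ m)⁻¹ * (g * v * g⁻¹ * v⁻¹) ∈ E := by
          rw [← mk_eq_one_iff, map_mul, map_inv, map_zpow, hm', inv_mul_cancel]
        obtain ⟨e, he⟩ : ∃ e, e = (w ^ m)⁻¹ * (g * v * g⁻¹ * v⁻¹) := ⟨_, rfl⟩
        rw [← he] at h3
        have h4 : g * v * g⁻¹ = v ^ (n * m + 1) * e := by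
          have h5 : g * v * g⁻¹ = w ^ m * e * v := by rw [he]; group
          rw [h5, mul_assoc, hEcomm e h3 v, ← mul_assoc, ← hn, ← zpow_mul, zpow_add, zpow_one]
        have hen : e ^ n = 1 := by
          obtain ⟨k, hk⟩ := hpn
          rw [hk, zpow_mul, zpow_natCast, (hE e).2 h3, one_zpow]
        have h6 : g * w * g⁻¹ = w ^ (n * m + 1) := by
          rw [← hn, ← conj_zpow, h4,
            Commute.mul_zpow (show Commute _ _ from (hEcomm e h3 _).symm), hen, mul_one,
            ← zpow_mul, ← zpow_mul, mul_comm]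
        rw [h6]
        exact zpow_mem (mem_zpowers w) _
      rw [← hw]
      refine ⟨key, ?_⟩
      have hwn : (zpowers w).Normal := ⟨fun x hx g => by
        obtain ⟨k, rfl⟩ := hx
        simp only
        rw [← conj_zpow]
        exact zpow_mem (key g) k⟩
      have hcomm : Commute (QuotientGroup.mk' (zpowers w) c₂) (QuotientGroup.mk' (zpowers w) c₁) := by
        have h3 : QuotientGroup.mk' (zpowers w) (c₂ * c₁ * c₂⁻¹ * c₁⁻¹) = 1 :=
          (mk_eq_one_iff _).2 (hw ▸ mem_zpowers w)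
        rw [map_mul, map_mul, map_mul, map_inv, map_inv] at h3
        have h4 := mul_inv_eq_one.1 h3
        exact mul_inv_eq_iff_eq_mul.1 h4
      have hall : ∀ g h : P, Commute (QuotientGroup.mk' (zpowers w) g)
          (QuotientGroup.mk' (zpowers w) h) := by
        intro g h
        obtain ⟨i, j, rfl⟩ := hgen g
        obtain ⟨k, l, rfl⟩ := hgen h
        simp only [map_mul, map_zpow]
        have e1 := Commute.zpow_zpow_self (QuotientGroup.mk' (zpowers w) c₁) i k
        have e2 : Commute ((QuotientGroup.mk' (zpowers w) c₁) ^ i)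
          ((QuotientGroup.mk' (zpowers w) c₂) ^ l) := (hcomm.symm).zpow_zpow i l
        have e3 : Commute ((QuotientGroup.mk' (zpowers w) c₂) ^ j)
          ((QuotientGroup.mk' (zpowers w) c₁) ^ k) := hcomm.zpow_zpow j k
        have e4 := Commute.zpow_zpow_self (QuotientGroup.mk' (zpowers w) c₂) j l
        exact (e1.mul_right e2).mul_left (e3.mul_right e4)
      intro g h
      rw [← mk_eq_one_iff, map_mul, map_mul, map_mul, map_inv, map_inv, (hall g h).eq]
      group

/-- Two cyclic subgroups of order `p ^ a` meeting trivially in a group of order `p ^ (2 * a)`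
force the group to be metacyclic (`p` odd, or the group abelian). -/
theorem metacyclic_of_two {a : ℕ} {P : Type u} [Group P] [Finite P]
    (h2 : p ≠ 2 ∨ ∀ x y : P, x * y = y * x) (hP : Nat.card P = p ^ (2 * a)) {c₁ c₂ : P}
    (h₁ : orderOf c₁ = p ^ a) (h₂ : orderOf c₂ = p ^ a) (hbot : zpowers c₁ ⊓ zpowers c₂ = ⊥) :
    Metacyclic P := by
  have hgood := good_of_two a P h2 hP c₁ c₂ h₁ h₂ hbot
  have hPP : Nat.card P = p ^ a * p ^ a := by rw [hP, ← pow_add]; congr 1; ring
  have hgen : ∀ x : P, ∃ i j : ℤ, x = c₁ ^ i * c₂ ^ j := by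
    intro x
    have h : IsComplement' (zpowers c₁) (zpowers c₂) := by
      apply isComplement'_of_card_mul_and_disjoint
      · rw [Nat.card_zpowers, Nat.card_zpowers, h₁, h₂, hPP]
      · rw [disjoint_iff]; exact hbot
    obtain ⟨⟨⟨_, i, rfl⟩, ⟨_, j, rfl⟩⟩, hab⟩ := h.2 x
    exact ⟨i, j, hab.symm⟩
  rcases a with _ | a
  · rw [Nat.mul_zero, pow_zero] at hP
    have := (Nat.card_eq_one_iff_unique.1 hP).1
    refine ⟨1, 1, ?_, Subsingleton.elim _ _⟩
    rw [zpowers_one_eq_bot]; infer_instance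
  obtain ⟨-, hcomm⟩ := comm_normal h2 hgood c₁ c₂ hgen
  obtain ⟨v, hv, hwv⟩ := hgood.exists_max h2 (c₂ * c₁ * c₂⁻¹ * c₁⁻¹)
  have hexp := hgood.pow_eq_one
  have hov : orderOf v = p ^ (a + 1) := orderOf_eq_prime_pow hv (hexp v)
  have hvn : (zpowers v).Normal := by
    have h3 : ∀ g, g * v * g⁻¹ ∈ zpowers v := by
      intro g
      have h4 := (zpowers_le.2 hwv) (hcomm g v)
      have h5 : g * v * g⁻¹ = (g * v * g⁻¹ * v⁻¹) * v := by group
      rw [h5]
      exact mul_mem h4 (mem_zpowers v)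
    refine ⟨fun x hx g => ?_⟩
    obtain ⟨k, rfl⟩ := hx
    simp only
    rw [← conj_zpow]
    exact zpow_mem (h3 g) k
  obtain ⟨y, hoy, hyv⟩ : ∃ y, orderOf y = p ^ (a + 1) ∧ y ^ p ^ a ∉ zpowers (v ^ p ^ a) := by
    by_cases h3 : c₁ ^ p ^ a ∈ zpowers (v ^ p ^ a)
    · refine ⟨c₂, h₂, ?_⟩
      intro h4
      have h5 := zpowers_eq_of_prime (orderOf_top_pow h₁) (orderOf_top_pow hov) h3
      rw [← h5] at h4
      have h6 := mem_inf_bot hbot ((zpowers_le.2 (pow_mem (mem_zpowers c₁) _)) h4)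
        (pow_mem (mem_zpowers c₂) _)
      have h7 := orderOf_top_pow h₂
      rw [h6, orderOf_one] at h7
      exact hp.out.one_lt.ne h7
    · exact ⟨c₁, h₁, h3⟩
  have hvy : zpowers v ⊓ zpowers y = ⊥ := by
    rw [eq_bot_iff]
    rintro x ⟨hx1, hx2⟩
    rw [mem_bot]
    by_contra hxne
    have e2 := socle_le hoy hx2 hxne
    exact hyv (mem_socle hov ((zpowers_le.2 hx1) e2) (pow_prime_of_order (orderOf_top_pow hoy)))
  have hcompl : IsComplement' (zpowers v) (zpowers y) := by
    apply isComplement'_of_card_mul_and_disjoint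
    · rw [Nat.card_zpowers, Nat.card_zpowers, hov, hoy, hPP]
    · rw [disjoint_iff]; exact hvy
  exact ⟨v, y, hvn, hcompl.sup_eq_top⟩

end Pool.Agent.Lib_MP_53dcbc_mc
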