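import Pool.Agent.Lib_MP_53dcbc_mc.Loc

/-!
# Necessity
-/

namespace Pool.Agent.Lib_MP_53dcbc_mc

open Subgroup Pool.Agent.Lib_MP_53dcbc_co
open scoped Pointwise commutatorElement

universe u

theorem sylow_good {G : Type u} [Group G] [Finite G] {s p a m : ℕ} [hp : Fact p.Prime]
    (hs : s = p ^ a * m) (hpm : ¬ p ∣ m) (hG : Nat.card G = s ^ 2)
    {U : Fin 3 → Subgroup G} (hU : IsPCP s U) (hZ : ∀ i, IsZGroup (U i)) (hab : Ab2 G)
    (Q : Sylow p G) : Good p a (Q : Subgroup G) := by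
  obtain ⟨g, c, hgc⟩ := exists_common_gen hs hpm hG hU hZ Q
  have hV := hU.conj hG g
  have hbot := zpowers_inf_of_pcp hV (fun i => (hgc i).1) (i := 0) (j := 1) (by decide)
  refine good_of_two a (Q : Subgroup G) (hab.odd_or_comm Q) (card_sylow' hs hpm hG Q)
    ⟨c 0, (hgc 0).2.1⟩ ⟨c 1, (hgc 1).2.1⟩ ?_ ?_ ?_
  · rw [← Subgroup.orderOf_coe]; exact (hgc 0).2.2
  · rw [← Subgroup.orderOf_coe]; exact (hgc 1).2.2
  · rw [eq_bot_iff]
    rintro ⟨x, hx⟩ ⟨⟨i, h1⟩, ⟨j, h2⟩⟩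
    have h1' : c 0 ^ i = x := congrArg Subtype.val h1
    have h2' : c 1 ^ j = x := congrArg Subtype.val h2
    rw [mem_bot]
    exact Subtype.ext (mem_inf_bot hbot
      (h1' ▸ zpow_mem (mem_zpowers _) i) (h2' ▸ zpow_mem (mem_zpowers _) j))

theorem pow_s_eq_one {G : Type u} [Group G] [Finite G] {s : ℕ} (hG : Nat.card G = s ^ 2)
    {U : Fin 3 → Subgroup G} (hU : IsPCP s U) (hZ : ∀ i, IsZGroup (U i)) (hab : Ab2 G) (g : G) :
    g ^ s = 1 := by
  apply orderOf_dvd_iff_pow_eq_one.1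
  rw [Nat.dvd_iff_prime_pow_dvd_dvd]
  intro p k hp hpk
  have : Fact p.Prime := ⟨hp⟩
  obtain ⟨l, hl⟩ := hpk
  have hl0 : l ≠ 0 := by
    rintro rfl
    rw [mul_zero] at hl
    exact (orderOf_pos g).ne' hl
  have hh : orderOf (g ^ l) = p ^ k := by
    rw [orderOf_pow_of_dvd hl0 (by rw [hl]; exact Dvd.intro_left _ rfl), hl,
      Nat.mul_div_cancel _ (Nat.pos_of_ne_zero hl0)]
  obtain ⟨Q, hQ⟩ := (isPGroup_zpowers hh).exists_le_sylow
  have hgQ : g ^ l ∈ (Q : Subgroup G) := hQ (mem_zpowers _)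
  obtain ⟨a, m, hpm, hs⟩ := Nat.exists_eq_pow_mul_and_not_dvd (ne_zero_of_card hG) p hp.ne_one
  have hgood := sylow_good hs hpm hG hU hZ hab Q
  have h1 := hgood.pow_eq_one ⟨g ^ l, hgQ⟩
  have h2 : (g ^ l) ^ p ^ a = 1 := congrArg Subtype.val h1
  have h3 := orderOf_dvd_of_pow_eq_one h2
  rw [hh] at h3
  exact h3.trans (by rw [hs]; exact Dvd.intro _ rfl)

theorem exists_zpowers_sup' {G : Type u} [Group G] [Finite G] {s : ℕ} (hG : Nat.card G = s ^ 2)
    {U : Fin 3 → Subgroup G} (hU : IsPCP s U) (hZ : ∀ i, IsZGroup (U i)) {K : Subgroup G}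
    [K.Normal] (hc : commutator G ≤ K) {i : Fin 3} (hi : U i ≤ K) :
    ∃ g : G, zpowers g ⊔ K = ⊤ := by
  obtain ⟨j, -, hij, -, -⟩ := fin3_other i
  have hcomm : IsMulCommutative (G ⧸ K) :=
    Subgroup.Normal.quotient_commutative_iff_commutator_le.2 hc
  let inst : CommGroup (G ⧸ K) := { (inferInstance : Group (G ⧸ K)) with
    mul_comm := hcomm.is_comm.comm }
  have hZj := hZ j
  have hZK : IsZGroup (G ⧸ K) := by
    refine IsZGroup.of_surjective (G := U j) (f := (QuotientGroup.mk' K).comp (U j).subtype) ?_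
    intro x
    obtain ⟨g, rfl⟩ := QuotientGroup.mk'_surjective K x
    obtain ⟨b, hb, a, ha, rfl⟩ := hU.exists_mul hG hij.symm g
    refine ⟨⟨b, hb⟩, ?_⟩
    have h1 : QuotientGroup.mk' K a = 1 := by
      rw [← MonoidHom.mem_ker, QuotientGroup.ker_mk']; exact hi ha
    rw [map_mul, h1, mul_one]
    rfl
  have hcyc : IsCyclic (G ⧸ K) := inferInstance
  obtain ⟨x, hx⟩ := hcyc.exists_generator
  obtain ⟨g, rfl⟩ := QuotientGroup.mk'_surjective K x
  refine ⟨g, ?_⟩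
  rw [eq_top_iff]
  intro y _
  obtain ⟨k, hk⟩ := hx (QuotientGroup.mk' K y)
  simp only at hk
  have h1 : (g ^ k)⁻¹ * y ∈ K := by
    rw [← QuotientGroup.eq]
    simpa using hk
  have h2 : y = g ^ k * ((g ^ k)⁻¹ * y) := by group
  rw [h2]
  exact mul_mem_sup (zpow_mem (mem_zpowers g) k) h1

theorem necessity' {G : Type u} [Group G] [Finite G] {s : ℕ}
    (hG : Nat.card G = s ^ 2) {U : Fin 3 → Subgroup G} (hU : IsPCP s U)
    (hZ : ∀ i, IsZGroup (U i)) (hab : Ab2 G) :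
    (∀ g : G, g ^ s = 1) ∧ Supersolvable G ∧
      ∃ K : Fin 3 → Subgroup G,
        (∀ i, (K i).Normal ∧ ∃ g : G, zpowers g ⊔ K i = ⊤) ∧
        (∀ i j, i ≠ j → K i ⊔ K j = ⊤) ∧
        ∀ (q : ℕ), q.Prime → ∀ (Q : Sylow q G),
          FixesLines q ⊤ (Q : Subgroup G) ∨
            ∃ i, (Q : Subgroup G) ≤ K i ∧ FixesLines q (K i) (Q : Subgroup G) := by
  refine ⟨pow_s_eq_one hG hU hZ hab, (structure' s G hG U hU hZ hab).1.supersolvable, ?_⟩
  have hdata : ∀ q : ℕ, q.Prime → q ∣ s → ∃ (K : Subgroup G) (c : Fin 3), K.Normal ∧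
      commutator G ≤ K ∧ (∀ (Q : Sylow q G), FixesLines q K (Q : Subgroup G)) ∧
      (K = ⊤ ∨ (U c ≤ K ∧ ∀ L : Subgroup G, L.Normal → U c ≤ L → ∀ Q : Sylow q G,
        (Q : Subgroup G) ≤ L)) := fun q hq hqs => local_data' hG hU hZ hab hq hqs
  choose! K c hK using hdata
  have hUK : ∀ q, q.Prime → q ∣ s → U (c q) ≤ K q := by
    intro q hq hqs
    rcases (hK q hq hqs).2.2.2 with h | h
    · rw [h]; exact le_top
    · exact h.1
  let KK : Fin 3 → Subgroup G := fun i => ⨅ q : {q : ℕ // q.Prime ∧ q ∣ s ∧ c q = i}, K q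
  have hUKK : ∀ i, U i ≤ KK i := by
    intro i
    refine le_iInf fun q => ?_
    have := hUK q q.2.1 q.2.2.1
    rwa [q.2.2.2] at this
  have hKKn : ∀ i, (KK i).Normal := by
    intro i
    exact normal_iInf_normal fun q => (hK q q.2.1 q.2.2.1).1
  refine ⟨KK, fun i => ⟨hKKn i, ?_⟩, ?_, ?_⟩
  · have := hKKn i
    exact exists_zpowers_sup' hG hU hZ (le_iInf fun q => (hK q q.2.1 q.2.2.1).2.1) (hUKK i)
  · intro i j hij
    rw [eq_top_iff]
    intro g _
    obtain ⟨a, ha, b, hb, rfl⟩ := hU.exists_mul hG hij g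
    exact mul_mem_sup (hUKK i ha) (hUKK j hb)
  · intro q hq Q
    have : Fact q.Prime := ⟨hq⟩
    by_cases hqs : q ∣ s
    · by_cases hKt : K q = ⊤
      · left
        intro x _ hxQ y hy
        exact (hK q hq hqs).2.2.1 Q x (by rw [hKt]; trivial) hxQ y hy
      · right
        have h1 := (hK q hq hqs).2.2.2.resolve_left hKt
        refine ⟨c q, ?_, ?_⟩
        · refine le_iInf fun q' => ?_
          apply h1.2 (K q') (hK q' q'.2.1 q'.2.2.1).1
          have := hUK q' q'.2.1 q'.2.2.1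
          rwa [q'.2.2.2] at this
        · intro x hx hxQ y hy
          have h2 : KK (c q) ≤ K q := iInf_le_of_le ⟨q, hq, hqs, rfl⟩ le_rfl
          exact (hK q hq hqs).2.2.1 Q x (h2 hx) hxQ y hy
    · left
      have h1 := card_sylow' (p := q) (a := 0) (m := s) (by simp) hqs hG Q
      rw [Nat.mul_zero, pow_zero, card_eq_one] at h1
      intro x _ _ y hy _
      rw [h1, mem_bot] at hy
      subst hy
      simp

end Pool.Agent.Lib_MP_53dcbc_mc
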