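import Pool.Agent.Lib_MP_53dcbc_mc.Hall

/-!
# Sufficiency
-/

namespace Pool.Agent.Lib_MP_53dcbc_mc

open Subgroup Pool.Agent.Lib_MP_53dcbc_co
open scoped Pointwise

universe u

variable {p : ℕ} [hp : Fact p.Prime]

/-- the kernel of the top power map -/
theorem frat_data {a : ℕ} {G : Type u} [Group G] [Finite G] {P : Subgroup G} [hPn : P.Normal]
    (h2 : p ≠ 2 ∨ ∀ x y : P, x * y = y * x) (h : Good p (a + 1) P) :
    (∀ x ∈ P, ∀ y ∈ P, (x * y) ^ p ^ a = x ^ p ^ a * y ^ p ^ a) ∧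
    ∃ F : Subgroup G, ∃ _ : F.Normal, F ≤ P ∧ Nat.card F = p ^ (2 * a) ∧
      (∀ x, x ∈ F ↔ x ∈ P ∧ x ^ p ^ a = 1) := by
  have hmul := h.mul_pow h2
  have hmul' : ∀ x ∈ P, ∀ y ∈ P, (x * y) ^ p ^ a = x ^ p ^ a * y ^ p ^ a := fun x hx y hy =>
    congrArg Subtype.val (hmul ⟨x, hx⟩ ⟨y, hy⟩)
  refine ⟨hmul', ?_⟩
  let F : Subgroup G :=
    { carrier := {x | x ∈ P ∧ x ^ p ^ a = 1}
      mul_mem' := fun {x y} hx hy => ⟨P.mul_mem hx.1 hy.1, by
        rw [hmul' x hx.1 y hy.1, hx.2, hy.2, one_mul]⟩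
      one_mem' := ⟨P.one_mem, one_pow _⟩
      inv_mem' := fun {x} hx => ⟨P.inv_mem hx.1, by rw [inv_pow, hx.2, inv_one]⟩ }
  have hmem : ∀ x, x ∈ F ↔ x ∈ P ∧ x ^ p ^ a = 1 := fun x => Iff.rfl
  refine ⟨F, ⟨fun x hx g => ?_⟩, fun x hx => hx.1, ?_, hmem⟩
  · refine ⟨hPn.conj_mem x hx.1 g, ?_⟩
    rw [conj_pow, hx.2]; simp
  · rw [← h.card_pow_eq_one]
    refine Nat.card_congr ⟨fun x => ⟨⟨x, x.2.1⟩, Subtype.ext x.2.2⟩,
      fun x => ⟨x.1, x.1.2, congrArg Subtype.val x.2⟩, fun x => rfl, fun x => rfl⟩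

theorem zpow_of_mul_pow {G : Type u} [Group G] {P : Subgroup G} {n : ℕ}
    (h : ∀ x ∈ P, ∀ y ∈ P, (x * y) ^ n = x ^ n * y ^ n) {x y : G} (hx : x ∈ P) (hy : y ∈ P)
    (k : ℤ) : (x * (y ^ k)⁻¹) ^ n = x ^ n * ((y ^ n) ^ k)⁻¹ := by
  rw [h x hx _ (P.inv_mem (P.zpow_mem hy k)), inv_pow, ← zpow_natCast (y ^ k), ← zpow_mul,
    mul_comm, zpow_mul, zpow_natCast]

/-- an element acting by power maps on the elements of order `p` acts by power maps modulo the
kernel of the top power map -/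
theorem powSub_quot {a : ℕ} {G : Type u} [Group G] [Finite G] {P F : Subgroup G} [hPn : P.Normal]
    [F.Normal] (hmul : ∀ x ∈ P, ∀ y ∈ P, (x * y) ^ p ^ a = x ^ p ^ a * y ^ p ^ a)
    (hF : ∀ x, x ∈ F ↔ x ∈ P ∧ x ^ p ^ a = 1) (h : Good p (a + 1) P) {x : G}
    (hx : ∀ y ∈ P, orderOf y = p → x * y * x⁻¹ ∈ zpowers y) :
    QuotientGroup.mk' F x ∈ powSub (P.map (QuotientGroup.mk' F)) := by
  have hexp := h.pow_eq_one
  obtain ⟨E, hEn, hEP, hEcard, hE, -, -⟩ := socle_data h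
  have hEp : ∀ y ∈ E, y ^ p = 1 := fun y hy => ((hE y).1 hy).2
  have hxE : x ∈ powSub E := by
    intro y hy
    by_cases hy1 : y = 1
    · rw [hy1]; simp
    · exact hx y (hEP hy) (orderOf_eq_prime (hEp y hy) hy1)
  obtain ⟨k, hk⟩ := powSub_uniform hEcard hEp hxE
  rintro _ ⟨y, hy, rfl⟩
  refine ⟨k, ?_⟩
  simp only
  have h1 : x * y * x⁻¹ * (y ^ k)⁻¹ ∈ F := by
    rw [hF]
    refine ⟨P.mul_mem (hPn.conj_mem y hy x) (P.inv_mem (P.zpow_mem hy k)), ?_⟩
    have h2 : y ^ p ^ a ∈ E := by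
      rw [hE]
      refine ⟨P.pow_mem hy _, ?_⟩
      rw [← pow_mul, ← pow_succ]
      exact congrArg Subtype.val (hexp ⟨y, hy⟩)
    rw [zpow_of_mul_pow hmul (hPn.conj_mem y hy x) hy, conj_pow, hk _ h2, mul_inv_cancel]
  have h3 : QuotientGroup.mk' F (x * y * x⁻¹ * (y ^ k)⁻¹) = 1 := by
    rw [← MonoidHom.mem_ker, QuotientGroup.ker_mk']; exact h1
  rw [map_mul, map_inv, mul_inv_eq_one] at h3
  rw [← map_zpow, ← h3, map_mul, map_mul, map_inv]

theorem sufficiency' (s : ℕ) : ∀ (G : Type u) [Group G] [Finite G],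
    Nat.card G = s ^ 2 → (∀ p : ℕ, p.Prime → ∀ Q : Sylow p G, Metacyclic Q) → Ab2 G →
    (∀ g : G, g ^ s = 1) → Supersolvable G →
    ∀ K : Fin 3 → Subgroup G, (∀ i, (K i).Normal ∧ ∃ g : G, zpowers g ⊔ K i = ⊤) →
    (∀ i j, i ≠ j → K i ⊔ K j = ⊤) →
    (∀ q : ℕ, q.Prime → ∀ Q : Sylow q G, FixesLines q ⊤ (Q : Subgroup G) ∨
            ∃ i, (Q : Subgroup G) ≤ K i ∧ FixesLines q (K i) (Q : Subgroup G)) →
    ∃ U : Fin 3 → Subgroup G, IsPCP s U ∧ ∀ i, U i ≤ K i := by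
  induction s using Nat.strong_induction_on with
  | _ s ih =>
  intro G _ _ hG hm hab hord hsup K hK hKK hSyl
  have hs0 := ne_zero_of_card hG
  by_cases h1 : s = 1
  · subst h1
    have hsub : Subsingleton G := (Nat.card_eq_one_iff_unique.1 (by rw [hG]; norm_num)).1
    exact ⟨fun _ => ⊥, ⟨fun _ => by simp, fun i j _ => by simp⟩, fun _ => bot_le⟩
  obtain ⟨p, hp, hps, hle⟩ := exists_max_prime hs0 h1
  have : Fact p.Prime := ⟨hp⟩
  obtain ⟨P⟩ : Nonempty (Sylow p G) := inferInstance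
  have hPn : (P : Subgroup G).Normal := by
    apply hsup.sylow_normal (s ^ 2) G hG p
    intro r hr hd
    exact hle r hr (hr.dvd_of_dvd_pow hd)
  obtain ⟨a, t, hpt', hs⟩ := exists_pow_succ hp hs0 hps
  have hpt : Nat.Coprime (p ^ (a + 1)) t :=
    Nat.Coprime.pow_left _ ((Nat.Prime.coprime_iff_not_dvd hp).2 hpt')
  have ht0 : t ≠ 0 := by
    rintro rfl
    exact hpt' (dvd_zero p)
  have hcP : Nat.card (P : Subgroup G) = p ^ (2 * (a + 1)) := card_sylow' hs hpt' hG P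
  have hexp : ∀ x ∈ (P : Subgroup G), x ^ p ^ (a + 1) = 1 := by
    intro x hx
    have h2 : x ^ p ^ (2 * (a + 1)) = 1 := by
      have h3 : (⟨x, hx⟩ : (P : Subgroup G)) ^ Nat.card (P : Subgroup G) = 1 := pow_card_eq_one'
      rw [hcP] at h3
      exact congrArg Subtype.val h3
    have h3 := orderOf_dvd_of_pow_eq_one (hord x)
    have h4 := orderOf_dvd_of_pow_eq_one h2
    apply orderOf_dvd_iff_pow_eq_one.1
    rw [hs] at h3
    have h5 : Nat.Coprime (orderOf x) t :=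
      Nat.Coprime.coprime_dvd_left h4 (Nat.Coprime.pow_left _ ((Nat.Prime.coprime_iff_not_dvd hp).2 hpt'))
    exact h5.dvd_of_dvd_mul_right h3
  have hgood : Good p (a + 1) (P : Subgroup G) :=
    good_of_metacyclic (hab.odd_or_comm P) (hm p hp P) hcP fun g => Subtype.ext (hexp g g.2)
  have hts : t < s := by
    rw [hs]
    exact lt_mul_of_one_lt_left (Nat.pos_of_ne_zero ht0) (Nat.one_lt_pow (Nat.succ_ne_zero a) hp.one_lt)
  have hidx : (P : Subgroup G).index = t ^ 2 := by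
    have h2 := card_mul_index (P : Subgroup G)
    rw [hcP, hG, hs, mul_pow, ← pow_mul, mul_comm (a + 1) 2] at h2
    exact Nat.eq_of_mul_eq_mul_left (pow_pos hp.pos _) h2
  obtain ⟨H, hH⟩ := exists_right_complement'_of_coprime (N := (P : Subgroup G)) (by
    rw [hcP, hidx]
    exact Nat.Coprime.pow_right 2 (Nat.Coprime.pow_left _ ((Nat.Prime.coprime_iff_not_dvd hp).2 hpt')))
  have hcH : Nat.card H = t ^ 2 := by
    have h2 := hH.card_mul_card
    rw [hcP, hG, hs, mul_pow, ← pow_mul, mul_comm (a + 1) 2] at h2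
    exact Nat.eq_of_mul_eq_mul_left (pow_pos hp.pos _) h2
  have hPH : (P : Subgroup G) ⊓ H = ⊥ := disjoint_iff.1 hH.disjoint
  have hPHt : (P : Subgroup G) ⊔ H = ⊤ := hH.sup_eq_top
  have hKn : ∀ i, (K i).Normal := fun i => (hK i).1
  obtain ⟨V, hV, hVK⟩ := ih t hts H hcH (metacyclic_hall hs hpt hG hcH hm)
    (ab2_hall hs hpt hG hcH hab) (fun g => by
      have h2 : orderOf g ∣ s := by
        rw [← Subgroup.orderOf_coe]; exact orderOf_dvd_of_pow_eq_one (hord g)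
      have h3 : orderOf g ∣ t ^ 2 := by rw [← hcH]; exact orderOf_dvd_natCard g
      apply orderOf_dvd_iff_pow_eq_one.1
      rw [hs] at h2
      have h4 : Nat.Coprime (orderOf g) (p ^ (a + 1)) :=
        Nat.Coprime.coprime_dvd_left h3 (Nat.Coprime.pow_left 2 hpt.symm)
      exact h4.dvd_of_dvd_mul_left h2) (hsup.subgroup H)
    (fun i => (K i).subgroupOf H) (fun i => ⟨inferInstance, by
      obtain ⟨g, hg⟩ := (hK i).2
      exact exists_gen_subgroupOf hg⟩)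
    (fun i j hij => sup_subgroupOf' hexp hcH hpt hPH hPHt (hKK i j hij))
    (fixesLines_hall hs hpt hG hcH hSyl)
  -- the Frattini type quotient
  obtain ⟨hmul, F, hFn, hFP, hFcard, hF⟩ := frat_data (hab.odd_or_comm P) hgood
  have hker : ∀ x, QuotientGroup.mk' F x = 1 ↔ x ∈ F := fun x => by
    rw [← MonoidHom.mem_ker, QuotientGroup.ker_mk']
  set P' : Subgroup (G ⧸ F) := (P : Subgroup G).map (QuotientGroup.mk' F) with hP'
  have hP'n : P'.Normal := hPn.map _ (QuotientGroup.mk'_surjective F)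
  have hP'c : Nat.card P' = p ^ 2 := by
    have h2 := card_map_mul_card_inf F (P : Subgroup G)
    rw [inf_eq_right.2 hFP, hFcard, hcP] at h2
    have h3 : p ^ (2 * (a + 1)) = p ^ 2 * p ^ (2 * a) := by rw [← pow_add]; congr 1; ring
    rw [h3] at h2
    exact Nat.eq_of_mul_eq_mul_right (pow_pos hp.pos _) h2
  have hP'e : ∀ x ∈ P', x ^ p = 1 := by
    rintro _ ⟨x, hx, rfl⟩
    rw [← map_pow, hker, hF]
    refine ⟨(P : Subgroup G).pow_mem hx p, ?_⟩
    rw [← pow_mul, ← pow_succ']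
    exact hexp x hx
  have hP'i : Nat.Coprime p P'.index := by
    rw [hP', index_map_eq _ (QuotientGroup.mk'_surjective F) (by
      rw [QuotientGroup.ker_mk']; exact hFP), hidx]
    exact Nat.Coprime.pow_right 2 ((Nat.Prime.coprime_iff_not_dvd hp).2 hpt')
  have hP'mem : ∀ x, QuotientGroup.mk' F x ∈ P' → x ∈ (P : Subgroup G) := by
    intro x hx
    have h2 : x ∈ P'.comap (QuotientGroup.mk' F) := hx
    rw [hP', comap_map_eq, QuotientGroup.ker_mk', sup_eq_left.2 hFP] at h2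
    exact h2
  -- a normal line
  obtain ⟨W, hWn, hW0, hWc⟩ := (hsup.quotient F).exists_cyclic (P := P') (by
    intro h
    rw [h, Subgroup.card_bot] at hP'c
    exact (Nat.one_lt_pow two_ne_zero hp.one_lt).ne hP'c)
  obtain ⟨c₁, hc₁⟩ := (Subgroup.isCyclic_iff_exists_zpowers_eq_top _).1 hWc
  have hcmem : c₁ ∈ W ⊓ P' := by rw [← hc₁]; exact mem_zpowers c₁
  have hoc : orderOf c₁ = p := orderOf_eq_prime (hP'e _ hcmem.2) (by
    rintro rfl
    rw [zpowers_one_eq_bot] at hc₁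
    exact hW0 hc₁.symm)
  have hcn : ∀ x : G ⧸ F, x * c₁ * x⁻¹ ∈ zpowers c₁ := by
    intro x
    rw [hc₁]
    exact Subgroup.mem_inf.2 ⟨hWn.conj_mem c₁ hcmem.1 x, hP'n.conj_mem c₁ hcmem.2 x⟩
  have hnorm : ∀ x : G, x ∈ normalizer ((P : Subgroup G) : Set G) := by
    intro x
    rw [normalizer_eq_top_iff.2 hPn]; trivial
  have hsc : powSub P' = ⊤ ∨ ∃ i, P' ≤ (K i).map (QuotientGroup.mk' F) ∧
      (K i).map (QuotientGroup.mk' F) ≤ powSub P' := by
    rcases hSyl p hp P with h | ⟨i, h1, h2⟩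
    · left
      rw [eq_top_iff]
      intro x _
      obtain ⟨x, rfl⟩ := QuotientGroup.mk'_surjective F x
      exact powSub_quot hmul hF hgood fun y hy hoy => h x (mem_top x) (hnorm x) y hy hoy
    · right
      refine ⟨i, map_mono h1, ?_⟩
      rintro _ ⟨x, hx, rfl⟩
      exact powSub_quot hmul hF hgood fun y hy hoy => h2 x hx (hnorm x) y hy hoy
  obtain ⟨a', ha', hane⟩ := exists_lines (P := P') hP'c hP'e hP'i
    (K := fun i => (K i).map (QuotientGroup.mk' F)) (fun i => ⟨(hKn i).map _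
      (QuotientGroup.mk'_surjective F), by
        obtain ⟨g, hg⟩ := (hK i).2
        refine ⟨QuotientGroup.mk' F g, ?_⟩
        rw [← MonoidHom.map_zpowers, ← Subgroup.map_sup, hg]
        exact map_top_of_surjective _ (QuotientGroup.mk'_surjective F)⟩)
    (fun i j hij => by
      rw [← Subgroup.map_sup, hKK i j hij]
      exact map_top_of_surjective _ (QuotientGroup.mk'_surjective F)) hsc hcmem.2 hoc hcn
  -- the cyclic subgroups
  have hcyc : ∀ i, ∃ c ∈ (P : Subgroup G), c ∈ K i ∧ c ^ p ^ a ≠ 1 ∧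
      QuotientGroup.mk' F c ∈ zpowers (a' i) ∧
      ∀ v ∈ (V i).map H.subtype, v * c * v⁻¹ ∈ zpowers c := by
    intro i
    obtain ⟨b, hbK, hb⟩ := (ha' i).2.1
    have hbP : b ∈ (P : Subgroup G) := hP'mem b (by rw [hb]; exact (ha' i).1)
    let B : Subgroup G := ((zpowers (a' i)).comap (QuotientGroup.mk' F) ⊓ K i) ⊓ (P : Subgroup G)
    have hBmem : ∀ x, x ∈ B ↔ (QuotientGroup.mk' F x ∈ zpowers (a' i) ∧ x ∈ K i) ∧
        x ∈ (P : Subgroup G) := fun x => Iff.rfl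
    have hbB : b ∈ B := (hBmem b).2 ⟨⟨by rw [hb]; exact mem_zpowers _, hbK⟩, hbP⟩
    have hb1 : b ^ p ^ a ≠ 1 := by
      intro h
      have h2 : QuotientGroup.mk' F b = 1 := (hker b).2 ((hF b).2 ⟨hbP, h⟩)
      rw [hb] at h2
      have h3 := (ha' i).2.2.1
      rw [h2, orderOf_one] at h3
      exact hp.one_lt.ne h3
    have hVi : ∀ v ∈ (V i).map H.subtype, v ∈ K i := by
      rintro _ ⟨v, hv, rfl⟩
      exact mem_subgroupOf.1 (hVK i hv)
    obtain ⟨c, hcB, hc1, hcV⟩ := exists_inv_cyclic a G (P : Subgroup G) hgood B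
      ((V i).map H.subtype) inf_le_right (by
        intro v hv x hx
        have hx' := (hBmem x).1 hx
        refine (hBmem _).2 ⟨⟨?_, (hKn i).conj_mem x hx'.1.2 v⟩, hPn.conj_mem x hx'.2 v⟩
        rw [map_mul, map_mul, map_inv]
        exact zpow_conj_mem ((ha' i).2.2.2 _ (mem_map_of_mem _ (hVi v hv))) hx'.1.1) (by
        rw [card_map_of_injective (subtype_injective H), hV.1]
        exact hpt') b hbB hb1 (by
        intro x hx
        obtain ⟨k, hk⟩ := ((hBmem x).1 hx).1.1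
        simp only at hk
        refine ⟨k, ((hF _).1 ((hker _).1 ?_)).2⟩
        rw [map_mul, map_inv, map_zpow, hb, hk, mul_inv_cancel])
    have hc := (hBmem c).1 hcB
    exact ⟨c, hc.2, hc.1.2, hc1, hc.1.1, hcV⟩
  choose c hcP' hcK hc1 hcm hcV using hcyc
  have hoc' : ∀ i, orderOf (c i) = p ^ (a + 1) := fun i =>
    orderOf_eq_prime_pow (hc1 i) (hexp _ (hcP' i))
  have hcc : ∀ i j, i ≠ j → zpowers (c i) ⊓ zpowers (c j) = ⊥ := by
    intro i j hij
    rw [eq_bot_iff]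
    rintro x ⟨hx1, hx2⟩
    rw [mem_bot]
    by_contra hxne
    have e1 := socle_le (hoc' j) hx2 hxne
    have e2 := (zpowers_le.2 hx1) e1
    have e3 := mem_socle (hoc' i) e2 (pow_prime_of_order (orderOf_top_pow (hoc' j)))
    obtain ⟨k, hk⟩ := e3
    simp only at hk
    have e4 : c j * (c i ^ k)⁻¹ ∈ F := by
      rw [hF]
      refine ⟨(P : Subgroup G).mul_mem (hcP' j) ((P : Subgroup G).inv_mem
        ((P : Subgroup G).zpow_mem (hcP' i) k)), ?_⟩
      rw [zpow_of_mul_pow hmul (hcP' j) (hcP' i), hk, mul_inv_cancel]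
    rw [← hker, map_mul, map_inv, map_zpow, mul_inv_eq_one] at e4
    have e5 : QuotientGroup.mk' F (c j) ∈ zpowers (a' i) := by
      rw [e4]; exact zpow_mem (hcm i) k
    have e6 : orderOf (QuotientGroup.mk' F (c j)) = p := by
      apply orderOf_eq_prime (hP'e _ (mem_map_of_mem _ (hcP' j)))
      intro h
      exact hc1 j ((hF _).1 ((hker _).1 h)).2
    have e7 := zpowers_eq_of_prime e6 (ha' j).2.2.1 (hcm j)
    have e8 : a' j ∈ zpowers (QuotientGroup.mk' F (c j)) := by rw [e7]; exact mem_zpowers _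
    exact hane i j hij ((zpowers_le.2 e5) e8)
  have hstab : ∀ i, ∀ b ∈ (V i).map H.subtype, ∀ x ∈ zpowers (c i), b * x * b⁻¹ ∈ zpowers (c i) :=
    fun i b hb x hx => zpow_conj_mem (hcV i b hb) hx
  have hzP : ∀ i, zpowers (c i) ≤ (P : Subgroup G) := fun i => zpowers_le.2 (hcP' i)
  have hVH : ∀ i, (V i).map H.subtype ≤ H := fun i => map_subtype_le (V i)
  refine ⟨fun i => prodSub (zpowers (c i)) ((V i).map H.subtype) (hstab i), ⟨?_, ?_⟩, ?_⟩
  · intro i
    rw [card_prodSub (hstab i) (by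
      rw [eq_bot_iff, ← hPH]
      exact inf_le_inf (hzP i) (hVH i)), Nat.card_zpowers, hoc' i,
      card_map_of_injective (subtype_injective H), hV.1, hs]
  · intro i j hij
    rw [eq_bot_iff]
    rintro x ⟨hxi, hxj⟩
    obtain ⟨y, hy, v, hv, rfl⟩ := hxi
    obtain ⟨y', hy', v', hv', he⟩ := hxj
    obtain ⟨e1, e2⟩ := unique_parts hPH (hzP i hy) (hzP j hy') (hVH i hv) (hVH j hv') he
    have h2 : y = 1 := mem_inf_bot (hcc i j hij) hy (by rw [e1]; exact hy')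
    have h3 : v ∈ (V i).map H.subtype ⊓ (V j).map H.subtype :=
      Subgroup.mem_inf.2 ⟨hv, by rw [e2]; exact hv'⟩
    rw [← map_inf_eq _ _ _ (subtype_injective H), hV.2 i j hij, Subgroup.map_bot, mem_bot] at h3
    rw [mem_bot, h2, h3, one_mul]
  · intro i x hx
    obtain ⟨y, hy, v, hv, rfl⟩ := hx
    apply (K i).mul_mem
    · exact (zpowers_le.2 (hcK i)) hy
    · obtain ⟨w, hw, rfl⟩ := hv
      exact mem_subgroupOf.1 (hVK i hw)

end Pool.Agent.Lib_MP_53dcbc_mc
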