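import Pool.Agent.Lib_MP_53dcbc_mc.Rank
import Pool.Agent.Lib_MP_53dcbc_mc.Hup
import Pool.Agent.Lib_MP_53dcbc_mc.Nec
import Pool.Agent.Lib_MP_53dcbc_mc.Suf

/-!
# The characterisation for groups of rank at most two
-/

namespace Pool.Agent.Lib_MP_53dcbc_mc

open Subgroup Pool.Agent.Lib_MP_53dcbc_co
open scoped Pointwise

universe u

/-- If all partitions of the Sylow subgroups have cyclic components, then the components of a
partition of `G` have cyclic Sylow subgroups. -/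
theorem components_zgroup' {G : Type u} [Group G] [Finite G] {s : ℕ} (hG : Nat.card G = s ^ 2)
    {U : Fin 3 → Subgroup G} (hU : IsPCP s U)
    (hc : ∀ p : ℕ, p.Prime → ∀ (Q : Sylow p G) (a : ℕ), Nat.card (Q : Subgroup G) = (p ^ a) ^ 2 →
      ∀ W : Fin 3 → Subgroup (Q : Subgroup G), IsPCP (p ^ a) W → ∀ k, ∃ c, W k = zpowers c)
    (i₀ : Fin 3) : IsZGroup (U i₀) := by
  refine ⟨fun p hpp S₀ => ?_⟩
  have hp : Fact p.Prime := ⟨hpp⟩
  obtain ⟨a, m, hpm, hs⟩ := Nat.exists_eq_pow_mul_and_not_dvd (ne_zero_of_card hG) p hpp.ne_one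
  obtain ⟨Q⟩ : Nonempty (Sylow p G) := inferInstance
  classical
  have hS : ∃ S : ∀ i, Sylow p (U i), S i₀ = S₀ := by
    refine ⟨fun i => if h : i = i₀ then h ▸ S₀ else default, ?_⟩
    simp
  obtain ⟨S, hS⟩ := hS
  obtain ⟨g, hg, hpcp⟩ := pcp_in_sylow hs hpm hG hU S Q
  have hQc : Nat.card (Q : Subgroup G) = (p ^ a) ^ 2 := by
    rw [card_sylow' hs hpm hG Q, ← pow_mul]; congr 1; ring
  obtain ⟨c, hc⟩ := hc p hpp Q a hQc _ hpcp i₀
  have hcm : c ∈ (cj (g i₀) ((S i₀ : Subgroup (U i₀)).map (U i₀).subtype)).subgroupOf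
      (Q : Subgroup G) := by rw [hc]; exact mem_zpowers c
  rw [mem_subgroupOf, mem_cj] at hcm
  obtain ⟨x, hx, hxc⟩ := hcm
  have hox : orderOf x = p ^ a := by
    have h3 : orderOf c = p ^ a := by
      rw [← Nat.card_zpowers, ← hc]; exact hpcp.1 i₀
    rw [← Subgroup.orderOf_coe, ← h3, ← Subgroup.orderOf_coe c]
    have h4 : ((x : U i₀) : G) = (g i₀)⁻¹ * (c : G) * (g i₀)⁻¹⁻¹ := by
      rw [inv_inv]; exact hxc
    rw [h4, orderOf_conj']
  have hcS : Nat.card (S i₀ : Subgroup (U i₀)) = p ^ a := by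
    have h5 := hpcp.1 i₀
    simp only at h5
    rw [Nat.card_congr (subgroupOfEquivOfLe (hg i₀)).toEquiv, card_cj,
      card_map_of_injective (subtype_injective (U i₀))] at h5
    exact h5
  rw [← hS]
  apply isCyclic_of_orderOf_eq_card (⟨x, hx⟩ : S i₀)
  rw [← Subgroup.orderOf_coe]
  change orderOf x = Nat.card (S i₀ : Subgroup (U i₀))
  rw [hox, hcS]

/-- components have cyclic Sylow subgroups if `G` has no elementary abelian subgroup of order
`q ^ 3` and abelian Sylow `2`-subgroups -/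
theorem zgroup_of_rank {G : Type u} [Group G] [Finite G] {s : ℕ} (hG : Nat.card G = s ^ 2)
    {U : Fin 3 → Subgroup G} (hU : IsPCP s U)
    (hr : ∀ q : ℕ, q.Prime → ∀ A : Subgroup G, (∀ x ∈ A, x ^ q = 1) →
      (∀ x ∈ A, ∀ y ∈ A, x * y = y * x) → Nat.card A ≠ q ^ 3)
    (hab : Ab2 G) (i : Fin 3) : IsZGroup (U i) := by
  refine components_zgroup' hG hU (fun p hp Q a hQ W hW k => ?_) i
  have : Fact p.Prime := ⟨hp⟩
  refine components_cyclic_of_rank (hab.odd_or_comm Q) (fun A hA1 hA2 => ?_) hQ hW k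
  have h1 := hr p hp (A.map (Q : Subgroup G).subtype) (by
      rintro _ ⟨x, hx, rfl⟩
      have := hA1 x hx
      exact congrArg Subtype.val this) (by
      rintro _ ⟨x, hx, rfl⟩ _ ⟨y, hy, rfl⟩
      have := hA2 x hx y hy
      exact congrArg Subtype.val this)
  rwa [card_map_of_injective (subtype_injective _)] at h1

/-- the Sylow subgroups are metacyclic -/
theorem sylow_metacyclic {G : Type u} [Group G] [Finite G] {s : ℕ} (hG : Nat.card G = s ^ 2)
    {U : Fin 3 → Subgroup G} (hU : IsPCP s U) (hZ : ∀ i, IsZGroup (U i)) (hab : Ab2 G)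
    (p : ℕ) (hpp : p.Prime) (Q : Sylow p G) : Metacyclic Q := by
  have hp : Fact p.Prime := ⟨hpp⟩
  obtain ⟨a, m, hpm, hs⟩ := Nat.exists_eq_pow_mul_and_not_dvd (ne_zero_of_card hG) p hpp.ne_one
  obtain ⟨g, c, hgc⟩ := exists_common_gen hs hpm hG hU hZ Q
  have hV := hU.conj hG g
  have hbot := zpowers_inf_of_pcp hV (fun i => (hgc i).1) (i := 0) (j := 1) (by decide)
  refine metacyclic_of_two (P := (Q : Subgroup G)) (hab.odd_or_comm Q) (card_sylow' hs hpm hG Q)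
    (c₁ := ⟨c 0, (hgc 0).2.1⟩) (c₂ := ⟨c 1, (hgc 1).2.1⟩) ?_ ?_ ?_
  · rw [← Subgroup.orderOf_coe]; exact (hgc 0).2.2
  · rw [← Subgroup.orderOf_coe]; exact (hgc 1).2.2
  · rw [eq_bot_iff]
    rintro ⟨x, hx⟩ ⟨⟨i, h1⟩, ⟨j, h2⟩⟩
    have h1' : c 0 ^ i = x := congrArg Subtype.val h1
    have h2' : c 1 ^ j = x := congrArg Subtype.val h2
    rw [mem_bot]
    exact Subtype.ext (mem_inf_bot hbot
      (h1' ▸ zpow_mem (mem_zpowers _) i) (h2' ▸ zpow_mem (mem_zpowers _) j))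

end Pool.Agent.Lib_MP_53dcbc_mc
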