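import Pool.Agent.Lib_MP_53dcbc_mc.Pow

/-!
# The recursive shape of the Sylow subgroups
-/

namespace Pool.Agent.Lib_MP_53dcbc_mc

open Subgroup

universe u

/-- The elements of order dividing `p` form a central subgroup of order `p ^ 2`, and again in the
quotient, and so on, `a` times, until the group is trivial. -/
def Good (p : ℕ) : ℕ → (P : Type u) → [Group P] → Prop
  | 0, P, _ => Nat.card P = 1
  | a + 1, P, _ => ∃ (E : Subgroup P) (_ : E.Normal), E ≤ center P ∧ Nat.card E = p ^ 2 ∧
      (∀ x : P, x ^ p = 1 ↔ x ∈ E) ∧ Good p a (P ⧸ E)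

variable {p : ℕ}

theorem Good.card : ∀ {a : ℕ} {P : Type u} [Group P], Good p a P → Nat.card P = p ^ (2 * a)
  | 0, P, _, h => by
      rw [Nat.mul_zero, pow_zero]; exact h
  | a + 1, P, _, h => by
      obtain ⟨E, hE, -, hc, -, hq⟩ := h
      have h1 : Nat.card (P ⧸ E) = p ^ (2 * a) := Good.card hq
      rw [card_eq_card_quotient_mul_card_subgroup E, h1, hc, ← pow_add]
      congr 1

theorem Good.pow_eq_one : ∀ {a : ℕ} {P : Type u} [Group P], Good p a P → ∀ x : P, x ^ p ^ a = 1
  | 0, P, _, h, x => by
      have h1 : Nat.card P = 1 := h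
      have := (Nat.card_eq_one_iff_unique.1 h1).1
      exact Subsingleton.elim _ _
  | a + 1, P, _, h, x => by
      obtain ⟨E, hE, -, hc, he, hq⟩ := h
      have h1 : (QuotientGroup.mk' E x) ^ p ^ a = 1 := Good.pow_eq_one hq _
      rw [← map_pow, ← MonoidHom.mem_ker, QuotientGroup.ker_mk'] at h1
      rw [pow_succ, pow_mul]
      exact (he _).2 h1

theorem Good.congr : ∀ {a : ℕ} {P Q : Type u} [Group P] [Group Q], (P ≃* Q) → Good p a P →
    Good p a Q
  | 0, P, Q, _, _, e, h => by
      have h1 : Nat.card P = 1 := h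
      have h2 : Nat.card Q = Nat.card P := (Nat.card_congr e.toEquiv).symm
      exact h2.trans h1
  | a + 1, P, Q, _, _, e, h => by
      obtain ⟨E, hE, hz, hc, he, hq⟩ := h
      have hE' : (E.map e.toMonoidHom).Normal := hE.map _ e.surjective
      refine ⟨E.map e.toMonoidHom, hE', ?_, ?_, ?_, ?_⟩
      · rintro _ ⟨x, hx, rfl⟩
        rw [mem_center_iff]
        intro g
        obtain ⟨y, rfl⟩ := e.surjective g
        have h1 := mem_center_iff.1 (hz hx) y
        change e y * e x = e x * e y
        rw [← map_mul, h1, map_mul]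
      · rw [← hc]; exact card_map_of_injective e.injective
      · intro x
        obtain ⟨y, rfl⟩ := e.surjective x
        rw [← map_pow, ← map_one e, e.injective.eq_iff, he y]
        constructor
        · intro hy
          exact ⟨y, hy, rfl⟩
        · rintro ⟨z, hz', hzy⟩
          have : z = y := e.injective hzy
          rw [← this]; exact hz'
      · exact Good.congr (QuotientGroup.congr E (E.map e.toMonoidHom) e rfl) hq

/-- commutators of elements of order dividing `p` modulo the centre -/
theorem comm_mem_of_quot {P : Type u} [Group P] {E : Subgroup P} [E.Normal] {u v : P}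
    (h : (QuotientGroup.mk' E u) * (QuotientGroup.mk' E v) =
      (QuotientGroup.mk' E v) * (QuotientGroup.mk' E u)) : v * u * (u * v)⁻¹ ∈ E := by
  rw [← QuotientGroup.ker_mk' E, MonoidHom.mem_ker, map_mul, map_inv, map_mul, map_mul, h,
    mul_inv_cancel]

theorem Good.mul_pow [hp : Fact p.Prime] : ∀ {a : ℕ} {P : Type u} [Group P],
    (p ≠ 2 ∨ ∀ x y : P, x * y = y * x) → Good p (a + 1) P →
    ∀ x y : P, (x * y) ^ p ^ a = x ^ p ^ a * y ^ p ^ a
  | 0, P, _, _, _, x, y => by simp
  | a + 1, P, _, h2, h, x, y => by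
      obtain ⟨E, hE, hz, hc, he, hq⟩ := h
      have h2' : p ≠ 2 ∨ ∀ x y : P ⧸ E, x * y = y * x := by
        rcases h2 with h2 | h2
        · exact Or.inl h2
        · right
          intro x y
          obtain ⟨x, rfl⟩ := QuotientGroup.mk'_surjective E x
          obtain ⟨y, rfl⟩ := QuotientGroup.mk'_surjective E y
          rw [← map_mul, h2, map_mul]
      have h1 := Good.mul_pow h2' hq (QuotientGroup.mk' E x) (QuotientGroup.mk' E y)
      have hexp := Good.pow_eq_one hq
      obtain ⟨E', hE', hz', hc', he', hq'⟩ := hq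
      set u := x ^ p ^ a with hu
      set v := y ^ p ^ a with hv
      have h3 : ((x * y) ^ p ^ a) * (u * v)⁻¹ ∈ E := by
        rw [← QuotientGroup.ker_mk' E, MonoidHom.mem_ker, map_mul, map_inv, map_mul, map_pow,
          map_mul, h1, hu, hv, map_pow, map_pow, mul_inv_cancel]
      have hue : QuotientGroup.mk' E u ∈ E' := by
        rw [← he', hu, map_pow, ← pow_mul, ← pow_succ]; exact hexp _
      have h4 : v * u * (u * v)⁻¹ ∈ E := by
        apply comm_mem_of_quot
        exact (mem_center_iff.1 (hz' hue) _).symm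
      have h5 : (u * v) ^ p = u ^ p * v ^ p := by
        apply mul_pow_prime
        · rcases h2 with h2 | h2
          · exact Or.inl h2
          · exact Or.inr (h2 _ _)
        · intro x
          exact (mem_center_iff.1 (hz h4) x).symm
        · exact (he _).2 h4
      have h6 : (x * y) ^ p ^ a = ((x * y) ^ p ^ a) * (u * v)⁻¹ * (u * v) := by group
      have h7 : ((x * y) ^ p ^ a * (u * v)⁻¹) ^ p = 1 := (he _).2 h3
      rw [pow_succ, pow_mul, h6, Commute.mul_pow (show Commute _ _ from
        (mem_center_iff.1 (hz h3) _).symm), h7, one_mul, h5, hu, hv, ← pow_mul, ← pow_mul]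

theorem Good.card_pow_eq_one [hp : Fact p.Prime] : ∀ {a : ℕ} {P : Type u} [Group P] [Finite P],
    Good p (a + 1) P → Nat.card {x : P // x ^ p ^ a = 1} = p ^ (2 * a)
  | 0, P, _, _, _ => by
      have : Subsingleton {x : P // x ^ p ^ 0 = 1} := by
        refine ⟨fun x y => Subtype.ext ?_⟩
        have h1 := x.2
        have h2 := y.2
        simp only [pow_zero, pow_one] at h1 h2
        rw [h1, h2]
      rw [Nat.mul_zero, pow_zero, Nat.card_eq_one_iff_unique]
      exact ⟨this, ⟨⟨1, one_pow _⟩⟩⟩
  | a + 1, P, _, _, h => by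
      obtain ⟨E, hE, hz, hc, he, hq⟩ := h
      have ih : Nat.card {x : P ⧸ E // x ^ p ^ a = 1} = p ^ (2 * a) := Good.card_pow_eq_one hq
      have hiff : ∀ x : P, x ^ p ^ (a + 1) = 1 ↔ (QuotientGroup.mk' E x) ^ p ^ a = 1 := by
        intro x
        rw [← map_pow, ← MonoidHom.mem_ker, QuotientGroup.ker_mk', ← he, ← pow_mul, ← pow_succ]
      have h1 : Nat.card {x : P // x ^ p ^ (a + 1) = 1} =
          Nat.card {x : P ⧸ E // x ^ p ^ a = 1} * Nat.card E := by
        rw [← Nat.card_prod]
        refine Nat.card_congr ?_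
        have e0 := groupEquivQuotientProdSubgroup (s := E)
        refine ((Equiv.subtypeEquivRight hiff)).trans ?_
        refine Equiv.ofBijective (fun x => (⟨QuotientGroup.mk' E x.1, x.2⟩,
          ⟨(Quotient.out (QuotientGroup.mk' E x.1))⁻¹ * x.1, by
            rw [← QuotientGroup.eq]
            exact QuotientGroup.out_eq' _⟩)) ⟨?_, ?_⟩
        · rintro ⟨x, hx⟩ ⟨y, hy⟩ hxy
          simp only [Prod.mk.injEq, Subtype.mk.injEq] at hxy
          obtain ⟨h3, h4⟩ := hxy
          rw [h3] at h4
          exact Subtype.ext (mul_left_cancel h4)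
        · rintro ⟨⟨z, hz'⟩, ⟨e, he'⟩⟩
          have h5 : QuotientGroup.mk' E (Quotient.out z * e) = z := by
            have h6 : QuotientGroup.mk' E e = 1 := by
              rw [← MonoidHom.mem_ker, QuotientGroup.ker_mk']; exact he'
            rw [map_mul, h6, mul_one]
            exact QuotientGroup.out_eq' z
          refine ⟨⟨Quotient.out z * e, by rw [h5]; exact hz'⟩, ?_⟩
          simp only [Prod.mk.injEq, Subtype.mk.injEq]
          refine ⟨h5, ?_⟩
          rw [h5]; group
      rw [h1, ih, hc, ← pow_add]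
      congr 1

end Pool.Agent.Lib_MP_53dcbc_mc
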