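import Pool.Agent.Lib_MP_53dcbc_mc.Struct
import Pool.Agent.Lib_MP_53dcbc_co.Local
import Pool.Agent.Lib_MP_53dcbc_co.Suff

/-!
# Local data at a prime
-/

namespace Pool.Agent.Lib_MP_53dcbc_mc

open Subgroup Pool.Agent.Lib_MP_53dcbc_co
open scoped Pointwise commutatorElement

universe u

theorem le_of_card_dvd' {G : Type u} [Group G] [Finite G] {s q a m : ℕ} [hq : Fact q.Prime]
    (hs : s = q ^ a * m) (hqm : ¬ q ∣ m) (hG : Nat.card G = s ^ 2) {L : Subgroup G}
    [L.Normal] (hL : q ^ (2 * a) ∣ Nat.card L) (Q : Sylow q G) : (Q : Subgroup G) ≤ L := by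
  have hcQ : Nat.card (Q : Subgroup G) = q ^ (2 * a) := card_sylow' hs hqm hG Q
  have h1 : ¬ q ∣ L.index := by
    intro h
    have h2 : q ^ (2 * a) * q ∣ s ^ 2 := by
      rw [← hG, ← card_mul_index L]
      exact mul_dvd_mul hL h
    rw [hs, mul_pow, ← pow_mul, mul_comm a 2] at h2
    have h3 : q ∣ m ^ 2 := Nat.dvd_of_mul_dvd_mul_left (pow_pos hq.out.pos _) h2
    exact hqm (hq.out.dvd_of_dvd_pow h3)
  have h2 : Nat.Coprime (Nat.card (Q : Subgroup G)) L.index := by
    rw [hcQ]
    exact Nat.Coprime.pow_left _ ((Nat.Prime.coprime_iff_not_dvd hq.out).2 h1)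
  have h3 : L.relIndex (Q : Subgroup G) ∣ L.index := relIndex_dvd_index_of_normal L Q
  have h4 : L.relIndex (Q : Subgroup G) ∣ Nat.card (Q : Subgroup G) := relIndex_dvd_card _ _
  exact relIndex_eq_one.1 (Nat.eq_one_of_dvd_coprimes h2 h4 h3)

/-- Local data at the prime `q`. -/
theorem local_data' {G : Type u} [Group G] [Finite G] {s : ℕ}
    (hG : Nat.card G = s ^ 2) {U : Fin 3 → Subgroup G} (hU : IsPCP s U)
    (hZ : ∀ i, IsZGroup (U i)) (hab : Ab2 G) {q : ℕ} (hq : q.Prime) (hqs : q ∣ s) :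
    ∃ (K : Subgroup G) (c : Fin 3), K.Normal ∧ commutator G ≤ K ∧
      (∀ (Q : Sylow q G), FixesLines q K (Q : Subgroup G)) ∧
      (K = ⊤ ∨ (U c ≤ K ∧ ∀ L : Subgroup G, L.Normal → U c ≤ L → ∀ Q : Sylow q G,
        (Q : Subgroup G) ≤ L)) := by
  have : Fact q.Prime := ⟨hq⟩
  have hs0 := ne_zero_of_card hG
  obtain ⟨N, hNn, t, u, htu, hcN, hNt, hNu⟩ := (structure' s G hG U hU hZ hab).2 q
  have hcop : Nat.Coprime t u := coprime_of_split hNt hNu
  have ht : 0 < t := Nat.pos_of_ne_zero (by
    rintro rfl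
    rw [zero_mul] at htu
    exact hs0 htu)
  have hu0 : u ≠ 0 := by
    rintro rfl
    rw [mul_zero] at htu
    exact hs0 htu
  have hcG' : Nat.card (G ⧸ N) = u ^ 2 := card_quot' ht htu hG hcN
  have hU' := quotient_hall htu hcop hG hU hcN
  have hZ' : ∀ i, IsZGroup ((U i).map (QuotientGroup.mk' N)) := fun i => zgroup_map (hZ i) N
  have hab' := hab.quotient N
  have hqt : ¬ q ∣ t := fun h => lt_irrefl _ (hNt q hq h)
  have hqu : q ∣ u := by
    rw [htu] at hqs
    exact ((Nat.Prime.dvd_mul hq).1 hqs).resolve_left hqt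
  obtain ⟨a, m, hqm, hua⟩ := exists_pow_succ hq hu0 hqu
  obtain ⟨E, hEn, hEcard, hEp, hEU, hEQ⟩ := exists_socle hua hqm hcG' hU' hZ' hab' hNu
  have huq : u = q * (q ^ a * m) := by rw [hua, pow_succ]; ring
  have hchE : Chain E :=
    chain_quot (structure' _ _ (card_quot' hq.pos huq hcG' hEcard) _
      (quotient_pcp hq.pos huq hcG' hU' hEcard hEU) (fun i => zgroup_map (hZ' i) E)
      (hab'.quotient E)).1
  have hdich := dichotomy' hcG' hU' hZ' hab' hEcard hEp hEU hchE
  have hKn : (powSub E).Normal := powSub_normal _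
  have hF4 : ∀ (Q : Sylow q G), FixesLines q ((powSub E).comap (QuotientGroup.mk' N))
      (Q : Subgroup G) := by
    intro Q x hx hxQ y hy hoy
    have hyp : y ^ q = 1 := pow_prime_of_order hoy
    have h1 : (QuotientGroup.mk' N) y ∈ E := by
      apply (hEQ (Q.mapSurjective (QuotientGroup.mk'_surjective N))).2.2
      · change QuotientGroup.mk' N y ∈ ((Q.mapSurjective (QuotientGroup.mk'_surjective N) :
          Sylow q (G ⧸ N)) : Subgroup (G ⧸ N))
        rw [Sylow.coe_mapSurjective]
        exact mem_map_of_mem _ hy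
      · rw [← map_pow, hyp, map_one]
    obtain ⟨k, hk⟩ := hx _ h1
    simp only at hk
    have h3 : x * y * x⁻¹ * (y ^ k)⁻¹ ∈ N := by
      rw [← QuotientGroup.ker_mk' N, MonoidHom.mem_ker]
      simp only [map_mul, map_inv, map_zpow]
      rw [hk]; group
    have h4 : x * y * x⁻¹ ∈ Q := by
      have := (mem_normalizer_iff (H := (Q : Subgroup G))).1 hxQ y
      exact this.1 hy
    have h5 : x * y * x⁻¹ * (y ^ k)⁻¹ ∈ (Q : Subgroup G) :=
      (Q : Subgroup G).mul_mem h4 ((Q : Subgroup G).inv_mem ((Q : Subgroup G).zpow_mem hy k))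
    have h6 : Disjoint N (Q : Subgroup G) := by
      apply disjoint_of_coprime_natCard
      rw [hcN]
      obtain ⟨e, he⟩ := Q.isPGroup'.exists_card_eq
      have : Nat.card (Q : Subgroup G) = q ^ e := he
      rw [this]
      exact Nat.Coprime.pow 2 e ((Nat.Prime.coprime_iff_not_dvd hq).2 hqt).symm
    have h7 : x * y * x⁻¹ * (y ^ k)⁻¹ ∈ N ⊓ (Q : Subgroup G) := Subgroup.mem_inf.2 ⟨h3, h5⟩
    rw [disjoint_iff.1 h6, mem_bot, mul_inv_eq_one] at h7
    rw [h7]
    exact zpow_mem (mem_zpowers y) k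
  rcases hdich with h | ⟨k, hk1, hk2, hk3⟩
  · refine ⟨(powSub E).comap (QuotientGroup.mk' N), 0, hKn.comap _, ?_, hF4, Or.inl ?_⟩
    · rw [h, comap_top]; exact le_top
    · rw [h, comap_top]
  · refine ⟨(powSub E).comap (QuotientGroup.mk' N), k, hKn.comap _, ?_, hF4, Or.inr ⟨?_, ?_⟩⟩
    · rw [commutator_def, commutator_le]
      intro g _ h _
      rw [mem_comap, map_commutatorElement]
      obtain ⟨y, hy⟩ := exists_gen' hEU
      have hyU : ∀ i, y i ∈ (U i).map (QuotientGroup.mk' N) := fun i => by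
        have : y i ∈ (U i).map (QuotientGroup.mk' N) ⊓ E := by
          rw [(hy i).1]; exact mem_zpowers _
        exact this.1
      have hyP : ∀ i, y i ∈ E := fun i => by
        have : y i ∈ (U i).map (QuotientGroup.mk' N) ⊓ E := by
          rw [(hy i).1]; exact mem_zpowers _
        exact this.2
      have hyo : ∀ i, orderOf (y i) = q := fun i => (hy i).2
      have hyne : ∀ i j, i ≠ j → y j ∉ zpowers (y i) :=
        fun i j hij => hU'.notMem_zpowers hyU hyo hij
      have hline : ∀ i, i ≠ k → ∀ x, x * y i * x⁻¹ ∈ zpowers (y i) := by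
        intro i hi x
        rw [← (hy i).1]
        apply (hk1 i hi).conj_mem
        rw [(hy i).1]; exact mem_zpowers _
      obtain ⟨i, j, hij, hik, hjk⟩ := fin3_two k
      intro z hz
      have h1 := scalar_of_two hEcard (hyP i) (hyP j) (hyo i) (hyo j) (hyne i j hij) (k := 1)
        (x := ⁅(QuotientGroup.mk' N) g, (QuotientGroup.mk' N) h⁆)
        (by rw [commutator_fixes (hline i hik), zpow_one])
        (by rw [commutator_fixes (hline j hjk), zpow_one]) hz
      rw [h1, zpow_one]
      exact mem_zpowers z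
    · rw [← map_le_iff_le_comap]
      exact hk2
    · intro L hLn hL Q
      have hsq : s = q ^ (a + 1) * (t * m) := by rw [htu, hua]; ring
      have hqtm : ¬ q ∣ t * m := by
        intro h
        rcases (Nat.Prime.dvd_mul hq).1 h with h | h
        · exact hqt h
        · exact hqm h
      apply le_of_card_dvd' hsq hqtm hG
      have hLn' : (L.map (QuotientGroup.mk' N)).Normal :=
        hLn.map _ (QuotientGroup.mk'_surjective N)
      obtain ⟨P⟩ : Nonempty (Sylow q (G ⧸ N)) := inferInstance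
      have hPn := sylow_normal_pcp u (G ⧸ N) hcG' _ hU' hZ' hab' q hNu P
      obtain ⟨g, c, hgc⟩ := exists_common_gen hua hqm hcG' hU' hZ' P
      have hcP := card_sylow' hua hqm hcG' P
      have hPP : Nat.card (P : Subgroup (G ⧸ N)) = q ^ (a + 1) * q ^ (a + 1) := by
        rw [hcP, ← pow_add]; congr 1; ring
      have hcL : c k ∈ L.map (QuotientGroup.mk' N) := by
        have h1 := mem_cj.1 (hgc k).1
        have h2 := hLn'.conj_mem _ (map_mono hL h1) (g k)
        have e : g k * ((g k)⁻¹ * c k * g k) * (g k)⁻¹ = c k := by group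
        rwa [e] at h2
      have hz : orderOf (c k ^ q ^ a) = q := orderOf_top_pow (hgc k).2.2
      have hzE : c k ^ q ^ a ∈ E :=
        (hEQ P).2.2 _ ((P : Subgroup (G ⧸ N)).pow_mem (hgc k).2.1 _) (pow_prime_of_order hz)
      obtain ⟨h, hh⟩ : ∃ h, h * (c k ^ q ^ a) * h⁻¹ ∉ zpowers (c k ^ q ^ a) := by
        by_contra hcon
        push Not at hcon
        apply hk3
        have hln : (zpowers (c k ^ q ^ a)).Normal := by
          refine ⟨fun x hx h => ?_⟩
          exact zpow_conj_mem (hcon h) hx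
        have h1 : (g k)⁻¹ * (c k ^ q ^ a) * g k ∈ (U k).map (QuotientGroup.mk' N) ⊓ E := by
          refine Subgroup.mem_inf.2 ⟨?_, ?_⟩
          · have := mem_cj.1 ((cj (g k) ((U k).map (QuotientGroup.mk' N))).pow_mem
              (hgc k).1 (q ^ a))
            exact this
          · have := hEn.conj_mem _ hzE (g k)⁻¹
            rwa [inv_inv] at this
        have h2 : (g k)⁻¹ * (c k ^ q ^ a) * g k ∈ zpowers (c k ^ q ^ a) := by
          have := hcon (g k)⁻¹
          rwa [inv_inv] at this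
        have ho : orderOf ((g k)⁻¹ * (c k ^ q ^ a) * g k) = q := by
          have := orderOf_conj' (g k)⁻¹ (c k ^ q ^ a)
          rw [inv_inv] at this
          rw [this, hz]
        have h3 : (U k).map (QuotientGroup.mk' N) ⊓ E =
            zpowers ((g k)⁻¹ * (c k ^ q ^ a) * g k) := by
          apply eq_zpowers_of_card (hEU k) h1
          intro h4
          rw [h4, orderOf_one] at ho
          exact hq.one_lt.ne ho
        rw [h3, zpowers_eq_of_prime ho hz h2]
        exact hln
      have hoc' : orderOf (h * c k * h⁻¹) = q ^ (a + 1) := by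
        rw [orderOf_conj', (hgc k).2.2]
      have hbot : zpowers (c k) ⊓ zpowers (h * c k * h⁻¹) = ⊥ := by
        rw [eq_bot_iff]
        rintro x ⟨hx1, hx2⟩
        rw [mem_bot]
        by_contra hxne
        have e1 := socle_le (hgc k).2.2 hx1 hxne
        have e2 := socle_le hoc' hx2 hxne
        apply hh
        have e3 : (h * c k * h⁻¹) ^ q ^ a = h * (c k ^ q ^ a) * h⁻¹ := conj_pow
        rw [e3] at e2
        apply mem_socle (hgc k).2.2 ((zpowers_le.2 hx1) e2)
        apply pow_prime_of_order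
        rw [orderOf_conj', hz]
      have hPL : (P : Subgroup (G ⧸ N)) ≤ L.map (QuotientGroup.mk' N) := by
        intro x hx
        obtain ⟨i, j, rfl⟩ := span_cyc hPP (hgc k).2.1
          (hPn.conj_mem _ (hgc k).2.1 h) (hgc k).2.2 hoc' hbot hx
        exact mul_mem (zpow_mem hcL i) (zpow_mem (hLn'.conj_mem _ hcL h) j)
      have h9 : q ^ (2 * (a + 1)) ∣ Nat.card (L.map (QuotientGroup.mk' N)) := by
        rw [← hcP]; exact card_dvd_of_le hPL
      exact h9.trans (card_map_dvd _ _)

end Pool.Agent.Lib_MP_53dcbc_mc
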