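import Pool.Agent.Lib_MP_53dcbc_mc.Lift
import Pool.Agent.Lib_MP_53dcbc_mc.Loc

/-!
# Passing to a Hall complement
-/

namespace Pool.Agent.Lib_MP_53dcbc_mc

open Subgroup Pool.Agent.Lib_MP_53dcbc_co
open scoped Pointwise

universe u

/-- `K ∩ H` is the image of `K` under the projection `G = P H → H` -/
theorem part_mem' {G : Type u} [Group G] [Finite G] {n t : ℕ}
    {P H K : Subgroup G} [hKn : K.Normal] (hexp : ∀ x ∈ P, x ^ n = 1)
    (hcH : Nat.card H = t ^ 2) (hpt : Nat.Coprime n t) {u h : G} (hu : u ∈ P) (hh : h ∈ H)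
    (hk : u * h ∈ K) : h ∈ K := by
  have h1 : (QuotientGroup.mk' K) h = ((QuotientGroup.mk' K) u)⁻¹ := by
    rw [eq_inv_iff_mul_eq_one, ← map_mul, ← MonoidHom.mem_ker, QuotientGroup.ker_mk']
    exact hKn.mem_comm hk
  have h2 : (QuotientGroup.mk' K h) ^ n = 1 := by
    rw [h1, inv_pow, ← map_pow, hexp u hu, map_one, inv_one]
  have h3 : h ^ (t ^ 2) = 1 := by
    have h4 : (⟨h, hh⟩ : H) ^ Nat.card H = 1 := pow_card_eq_one'
    rw [hcH] at h4
    exact congrArg Subtype.val h4
  have h5 : (QuotientGroup.mk' K h) ^ (t ^ 2) = 1 := by rw [← map_pow, h3, map_one]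
  have h6 : orderOf (QuotientGroup.mk' K h) = 1 :=
    Nat.eq_one_of_dvd_coprimes (hpt.pow_right 2) (orderOf_dvd_of_pow_eq_one h2)
      (orderOf_dvd_of_pow_eq_one h5)
  rw [orderOf_eq_one_iff] at h6
  rw [← QuotientGroup.ker_mk' K, MonoidHom.mem_ker]
  exact h6

theorem sup_subgroupOf' {G : Type u} [Group G] [Finite G] {n t : ℕ}
    {P H K L : Subgroup G} [hPn : P.Normal] [hKn : K.Normal] [hLn : L.Normal]
    (hexp : ∀ x ∈ P, x ^ n = 1)
    (hcH : Nat.card H = t ^ 2) (hpt : Nat.Coprime n t) (hPH : P ⊓ H = ⊥) (hPHt : P ⊔ H = ⊤)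
    (hKL : K ⊔ L = ⊤) : K.subgroupOf H ⊔ L.subgroupOf H = ⊤ := by
  rw [eq_top_iff]
  rintro ⟨h, hh⟩ _
  obtain ⟨k, hk, l, hl, hkl⟩ := mem_sup_of_normal_left.1
    (show h ∈ K ⊔ L by rw [hKL]; trivial)
  obtain ⟨u, hu, a, ha, hua⟩ := mem_sup_of_normal_left.1
    (show k ∈ P ⊔ H by rw [hPHt]; trivial)
  obtain ⟨v, hv, b, hb, hvb⟩ := mem_sup_of_normal_left.1
    (show l ∈ P ⊔ H by rw [hPHt]; trivial)
  have h1 : a ∈ K := part_mem' hexp hcH hpt hu ha (by rw [hua]; exact hk)
  have h2 : b ∈ L := part_mem' hexp hcH hpt hv hb (by rw [hvb]; exact hl)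
  have h3 : 1 * h = (u * (a * v * a⁻¹)) * (a * b) := by
    rw [one_mul, ← hkl, ← hua, ← hvb]; group
  have h4 := (unique_parts hPH (one_mem P) (P.mul_mem hu (hPn.conj_mem v hv a)) hh
    (H.mul_mem ha hb) h3).2
  have h5 : (⟨h, hh⟩ : H) = ⟨a, ha⟩ * ⟨b, hb⟩ := Subtype.ext h4
  rw [h5]
  exact mul_mem_sup (show (⟨a, ha⟩ : H) ∈ K.subgroupOf H from mem_subgroupOf.2 h1)
    (show (⟨b, hb⟩ : H) ∈ L.subgroupOf H from mem_subgroupOf.2 h2)

/-- a Sylow subgroup of a Hall subgroup is trivial or a Sylow subgroup -/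
theorem sylow_of_hall {G : Type u} [Group G] [Finite G] {s n t : ℕ} (hst : s = n * t)
    (hnt : Nat.Coprime n t) (hG : Nat.card G = s ^ 2) {H : Subgroup G} (hcH : Nat.card H = t ^ 2)
    {q : ℕ} (hq : q.Prime) (Q : Sylow q H) :
    (Q : Subgroup H) = ⊥ ∨ ∃ R : Sylow q G, (Q : Subgroup H).map H.subtype = (R : Subgroup G) := by
  have : Fact q.Prime := ⟨hq⟩
  have ht0 := ne_zero_of_card hcH
  obtain ⟨b, m, hqm, htb⟩ := Nat.exists_eq_pow_mul_and_not_dvd ht0 q hq.ne_one
  have hcQ : Nat.card (Q : Subgroup H) = q ^ (2 * b) := card_sylow' htb hqm hcH Q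
  by_cases hb : b = 0
  · left
    rw [hb, Nat.mul_zero, pow_zero, card_eq_one] at hcQ
    exact hcQ
  · right
    have hqt : q ∣ t := by
      rw [htb]; exact (dvd_pow_self q hb).trans (Dvd.intro _ rfl)
    have hqn : ¬ q ∣ n := by
      intro h
      have := Nat.dvd_gcd h hqt
      rw [hnt.gcd_eq_one] at this
      exact hq.one_lt.ne' (Nat.dvd_one.1 this)
    have hcQ' : Nat.card ((Q : Subgroup H).map H.subtype) = q ^ (2 * b) := by
      rw [← hcQ]; exact card_map_of_injective (subtype_injective H)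
    obtain ⟨R, hR⟩ := (IsPGroup.of_card hcQ').exists_le_sylow
    have hsq : s = q ^ b * (n * m) := by rw [hst, htb]; ring
    have hqnm : ¬ q ∣ n * m := by
      intro h
      rcases (Nat.Prime.dvd_mul hq).1 h with h | h
      · exact hqn h
      · exact hqm h
    have hcR : Nat.card (R : Subgroup G) = q ^ (2 * b) := card_sylow' hsq hqnm hG R
    exact ⟨R, eq_of_le_of_card_ge hR (by rw [hcR, hcQ'])⟩

theorem Metacyclic.congr {P Q : Type u} [Group P] [Group Q] (e : P ≃* Q) (h : Metacyclic P) :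
    Metacyclic Q := by
  obtain ⟨x, y, hx, hxy⟩ := h
  refine ⟨e x, e y, ?_, ?_⟩
  · have h1 : (zpowers x).map e.toMonoidHom = zpowers (e x) := MonoidHom.map_zpowers _ _
    rw [← h1]
    exact hx.map _ e.surjective
  · have h1 : (zpowers x).map e.toMonoidHom = zpowers (e x) := MonoidHom.map_zpowers _ _
    have h2 : (zpowers y).map e.toMonoidHom = zpowers (e y) := MonoidHom.map_zpowers _ _
    rw [← h1, ← h2, ← Subgroup.map_sup, hxy]
    exact map_top_of_surjective _ e.surjective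

theorem metacyclic_hall {G : Type u} [Group G] [Finite G] {s n t : ℕ} (hst : s = n * t)
    (hnt : Nat.Coprime n t) (hG : Nat.card G = s ^ 2) {H : Subgroup G} (hcH : Nat.card H = t ^ 2)
    (hm : ∀ p : ℕ, p.Prime → ∀ Q : Sylow p G, Metacyclic Q) :
    ∀ p : ℕ, p.Prime → ∀ Q : Sylow p H, Metacyclic Q := by
  intro q hq Q
  rcases sylow_of_hall hst hnt hG hcH hq Q with h | ⟨R, hR⟩
  · have hsub : Subsingleton (Q : Subgroup H) := by rw [h]; infer_instance
    refine ⟨1, 1, ?_, Subsingleton.elim _ _⟩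
    rw [zpowers_one_eq_bot]; infer_instance
  · have e : (Q : Subgroup H) ≃* (R : Subgroup G) := by
      rw [← hR]
      exact (Q : Subgroup H).equivMapOfInjective H.subtype (subtype_injective H)
    exact (hm q hq R).congr e.symm

theorem ab2_hall {G : Type u} [Group G] [Finite G] {s n t : ℕ} (hst : s = n * t)
    (hnt : Nat.Coprime n t) (hG : Nat.card G = s ^ 2) {H : Subgroup G} (hcH : Nat.card H = t ^ 2)
    (hab : Ab2 G) : Ab2 H := by
  intro Q x hx y hy
  rcases sylow_of_hall hst hnt hG hcH Nat.prime_two Q with h | ⟨R, hR⟩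
  · have hx' : x ∈ (Q : Subgroup H) := hx
    rw [h, mem_bot] at hx'
    rw [hx']; simp
  · apply Subtype.ext
    have hx' : (x : G) ∈ (R : Subgroup G) := by rw [← hR]; exact mem_map_of_mem H.subtype hx
    have hy' : (y : G) ∈ (R : Subgroup G) := by rw [← hR]; exact mem_map_of_mem H.subtype hy
    exact hab R _ hx' _ hy'

theorem fixesLines_hall {G : Type u} [Group G] [Finite G] {s n t : ℕ} (hst : s = n * t)
    (hnt : Nat.Coprime n t) (hG : Nat.card G = s ^ 2) {H : Subgroup G} (hcH : Nat.card H = t ^ 2)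
    {K : Fin 3 → Subgroup G}
    (hK : ∀ q : ℕ, q.Prime → ∀ Q : Sylow q G, FixesLines q ⊤ (Q : Subgroup G) ∨
            ∃ i, (Q : Subgroup G) ≤ K i ∧ FixesLines q (K i) (Q : Subgroup G))
    (q : ℕ) (hq : q.Prime) (Q : Sylow q H) : FixesLines q ⊤ (Q : Subgroup H) ∨
      ∃ i, (Q : Subgroup H) ≤ (K i).subgroupOf H ∧
        FixesLines q ((K i).subgroupOf H) (Q : Subgroup H) := by
  rcases sylow_of_hall hst hnt hG hcH hq Q with h | ⟨R, hR⟩
  · left
    intro x _ _ y hy _
    rw [h, mem_bot] at hy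
    subst hy
    simp
  · have key : ∀ M : Subgroup G, FixesLines q M (R : Subgroup G) →
        FixesLines q (M.subgroupOf H) (Q : Subgroup H) := by
      intro M hM x hx hxQ y hy hoy
      have h1 : (x : G) ∈ normalizer ((R : Subgroup G) : Set G) := by
        rw [mem_normalizer_iff] at hxQ ⊢
        intro z
        rw [← hR]
        constructor
        · intro hz
          obtain ⟨w, hw, hwz⟩ := hz
          refine ⟨x * w * x⁻¹, (hxQ w).1 hw, ?_⟩
          rw [← hwz]; simp
        · intro hz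
          obtain ⟨w, hw, hwz⟩ := hz
          refine ⟨x⁻¹ * w * x, ?_, ?_⟩
          · apply (hxQ _).2
            have : x * (x⁻¹ * w * x) * x⁻¹ = w := by group
            rw [this]; exact hw
          · have h2 : (w : G) = x * z * (x : G)⁻¹ := hwz
            simp only [subtype_apply, coe_mul, coe_inv]
            rw [h2]; group
      have h2 : (y : G) ∈ (R : Subgroup G) := by
        rw [← hR]
        exact mem_map_of_mem H.subtype hy
      obtain ⟨k, hk⟩ := hM x hx h1 y h2 (by rw [Subgroup.orderOf_coe]; exact hoy)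
      simp only at hk
      refine ⟨k, ?_⟩
      apply Subtype.ext
      simpa using hk
    rcases hK q hq R with h | ⟨i, h1, h2⟩
    · left
      have := key ⊤ h
      rwa [top_subgroupOf] at this
    · right
      refine ⟨i, ?_, key _ h2⟩
      intro x hx
      rw [mem_subgroupOf]
      apply h1
      rw [← hR]
      exact mem_map_of_mem H.subtype hx

end Pool.Agent.Lib_MP_53dcbc_mc
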