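import Pool.Agent.Lib_MP_53dcbc_mc.Mas

/-!
# Invariant cyclic subgroups of maximal order
-/

namespace Pool.Agent.Lib_MP_53dcbc_mc

open Subgroup Pool.Agent.Lib_MP_53dcbc_co
open scoped Pointwise

universe u

variable {p : ℕ} [hp : Fact p.Prime]

omit hp in
theorem good_map {a : ℕ} {G : Type u} [Group G] {P : Subgroup G} {E₀ : Subgroup P} [E₀.Normal]
    {E : Subgroup G} [E.Normal] (hE : E = E₀.map P.subtype) (h : Good p a (P ⧸ E₀)) :
    Good p a (P.map (QuotientGroup.mk' E)) := by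
  have hk : ((QuotientGroup.mk' E).subgroupMap P).ker = E₀ := by
    ext x
    rw [MonoidHom.mem_ker]
    constructor
    · intro hx
      have h1 : QuotientGroup.mk' E (x : G) = 1 := congrArg Subtype.val hx
      rw [← MonoidHom.mem_ker, QuotientGroup.ker_mk', hE] at h1
      obtain ⟨y, hy, hyx⟩ := h1
      have : y = x := Subtype.ext hyx
      rw [← this]; exact hy
    · intro hx
      apply Subtype.ext
      change QuotientGroup.mk' E (x : G) = 1
      rw [← MonoidHom.mem_ker, QuotientGroup.ker_mk', hE]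
      exact ⟨x, hx, rfl⟩
  have e := (QuotientGroup.quotientMulEquivOfEq hk.symm).trans
    (QuotientGroup.quotientKerEquivOfSurjective ((QuotientGroup.mk' E).subgroupMap P)
      (MonoidHom.subgroupMap_surjective _ _))
  exact h.congr e

/-- data of the socle inside the ambient group -/
theorem socle_data {a : ℕ} {G : Type u} [Group G] [Finite G] {P : Subgroup G} [hPn : P.Normal]
    (h : Good p (a + 1) P) : ∃ E : Subgroup G, ∃ _ : E.Normal, E ≤ P ∧ Nat.card E = p ^ 2 ∧
      (∀ x, x ∈ E ↔ x ∈ P ∧ x ^ p = 1) ∧ (∀ x ∈ E, ∀ y ∈ P, x * y = y * x) ∧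
      Good p a (P.map (QuotientGroup.mk' E)) := by
  obtain ⟨E₀, hE₀n, hE₀c, hE₀card, hE₀, hq⟩ := h
  have hmem : ∀ x, x ∈ E₀.map P.subtype ↔ x ∈ P ∧ x ^ p = 1 := by
    intro x
    constructor
    · rintro ⟨y, hy, rfl⟩
      refine ⟨y.2, ?_⟩
      have h1 : y ^ p = 1 := (hE₀ y).2 hy
      exact congrArg Subtype.val h1
    · rintro ⟨h1, h2⟩
      exact ⟨⟨x, h1⟩, (hE₀ _).1 (Subtype.ext h2), rfl⟩
  have hn : (E₀.map P.subtype).Normal := by
    refine ⟨fun x hx g => ?_⟩
    rw [hmem] at hx ⊢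
    refine ⟨hPn.conj_mem x hx.1 g, ?_⟩
    rw [conj_pow, hx.2]; simp
  refine ⟨E₀.map P.subtype, hn, map_subtype_le _, ?_, hmem, ?_, good_map rfl hq⟩
  · rw [card_map_of_injective (subtype_injective _), hE₀card]
  · rintro _ ⟨x, hx, rfl⟩ y hy
    have h1 := mem_center_iff.1 (hE₀c hx) ⟨y, hy⟩
    exact (congrArg Subtype.val h1).symm

theorem exists_inv_cyclic (a : ℕ) : ∀ (G : Type u) [Group G] [Finite G] (P : Subgroup G)
    [P.Normal], Good p (a + 1) P → ∀ (B V : Subgroup G), B ≤ P →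
    (∀ v ∈ V, ∀ x ∈ B, v * x * v⁻¹ ∈ B) → ¬ p ∣ Nat.card V → ∀ b ∈ B, b ^ p ^ a ≠ 1 →
    (∀ x ∈ B, ∃ k : ℤ, (x * (b ^ k)⁻¹) ^ p ^ a = 1) →
    ∃ c ∈ B, c ^ p ^ a ≠ 1 ∧ ∀ v ∈ V, v * c * v⁻¹ ∈ zpowers c := by
  induction a with
  | zero =>
    intro G _ _ P _ _ B V _ hVB _ b hb hb1 hline
    refine ⟨b, hb, hb1, fun v hv => ?_⟩
    obtain ⟨k, hk⟩ := hline _ (hVB v hv b hb)
    rw [pow_zero, pow_one] at hk
    exact ⟨k, (mul_inv_eq_one.1 hk).symm⟩
  | succ a ih =>
    intro G _ _ P _ hgood B V hBP hVB hpV b hb hb1 hline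
    obtain ⟨E, hEn, hEP, hEcard, hE, hEc, hq⟩ := socle_data hgood
    have hexp := hq.pow_eq_one
    have hker : ∀ x, QuotientGroup.mk' E x = 1 ↔ x ∈ E := fun x => by
      rw [← MonoidHom.mem_ker, QuotientGroup.ker_mk']
    have hPn' : (P.map (QuotientGroup.mk' E)).Normal :=
      Subgroup.Normal.map ‹P.Normal› _ (QuotientGroup.mk'_surjective E)
    have hpow : ∀ x ∈ P, x ^ p ^ (a + 1) = 1 ↔ (QuotientGroup.mk' E x) ^ p ^ a = 1 := by
      intro x hx
      rw [← map_pow, hker, hE, pow_succ, pow_mul]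
      exact ⟨fun h => ⟨P.pow_mem hx _, h⟩, fun h => h.2⟩
    obtain ⟨c', hc'B, hc'1, hc'V⟩ := ih (G ⧸ E) (P.map (QuotientGroup.mk' E)) hq
      (B.map (QuotientGroup.mk' E)) (V.map (QuotientGroup.mk' E)) (map_mono hBP) (by
        rintro _ ⟨v, hv, rfl⟩ _ ⟨x, hx, rfl⟩
        exact ⟨v * x * v⁻¹, hVB v hv x hx, by simp⟩) (fun h => hpV (h.trans (card_map_dvd _ _)))
      (QuotientGroup.mk' E b) (mem_map_of_mem _ hb) (fun h => hb1 ((hpow b (hBP hb)).2 h)) (by
        rintro _ ⟨x, hx, rfl⟩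
        obtain ⟨k, hk⟩ := hline x hx
        refine ⟨k, ?_⟩
        have h1 := (hpow _ (P.mul_mem (hBP hx) (P.inv_mem (P.zpow_mem (hBP hb) k)))).1 hk
        rw [map_mul, map_inv, map_zpow] at h1
        exact h1)
    obtain ⟨d, hdB, rfl⟩ := hc'B
    have hdP : d ∈ P := hBP hdB
    have hd1 : d ^ p ^ (a + 1) ≠ 1 := fun h => hc'1 ((hpow d hdP).1 h)
    have hdtop : (d ^ p ^ (a + 1)) ^ p = 1 := by
      have h1 : (QuotientGroup.mk' E d) ^ p ^ (a + 1) = 1 :=
        congrArg Subtype.val (hexp ⟨QuotientGroup.mk' E d, mem_map_of_mem _ hdP⟩)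
      rw [← map_pow, hker, hE] at h1
      exact h1.2
    have hod : orderOf d = p ^ (a + 1 + 1) := by
      apply orderOf_eq_prime_pow hd1
      rw [pow_succ, pow_mul]; exact hdtop
    -- conjugates of `d`
    have hconj : ∀ v ∈ V, ∃ k : ℤ, ∃ e ∈ E, v * d * v⁻¹ = d ^ k * e := by
      intro v hv
      obtain ⟨k, hk⟩ := hc'V _ (mem_map_of_mem _ hv)
      simp only at hk
      refine ⟨k, (d ^ k)⁻¹ * (v * d * v⁻¹), ?_, by group⟩
      rw [← hker, map_mul, map_inv, map_zpow, hk, map_mul, map_mul, map_inv]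
      group
    have hℓ : ∀ v ∈ V, v * (d ^ p ^ (a + 1)) * v⁻¹ ∈ zpowers (d ^ p ^ (a + 1)) := by
      intro v hv
      obtain ⟨k, e, he, hke⟩ := hconj v hv
      have h1 : (d ^ k * e) ^ p ^ (a + 1) = (d ^ k) ^ p ^ (a + 1) * e ^ p ^ (a + 1) :=
        Commute.mul_pow (show Commute _ _ from (hEc e he _ (P.zpow_mem hdP k)).symm) _
      have h2 : e ^ p ^ (a + 1) = 1 := by
        rw [pow_succ', pow_mul, ((hE e).1 he).2, one_pow]
      rw [← conj_pow, hke, h1, h2, mul_one]
      refine ⟨k, ?_⟩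
      simp only
      rw [← zpow_natCast, ← zpow_natCast, ← zpow_mul, ← zpow_mul, mul_comm]
    have hoz : orderOf (d ^ p ^ (a + 1)) = p := orderOf_top_pow hod
    have hzE : d ^ p ^ (a + 1) ∈ E := (hE _).2 ⟨P.pow_mem hdP _, hdtop⟩
    by_cases hEB : E ≤ B
    · -- choose an invariant line different from that of `d`
      have hEp : ∀ x ∈ E, x ^ p = 1 := fun x hx => ((hE x).1 hx).2
      obtain ⟨w, hw, hwz⟩ : ∃ w ∈ E, w ∉ zpowers (d ^ p ^ (a + 1)) := by
        by_contra h
        push Not at h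
        have h2 := card_le_of_le (show E ≤ zpowers (d ^ p ^ (a + 1)) from h)
        rw [Nat.card_zpowers, hoz, hEcard] at h2
        have := hp.out.one_lt
        nlinarith
      have how : orderOf w = p := orderOf_eq_prime (hEp w hw) (by
        rintro rfl
        exact hwz (one_mem _))
      have hcopE : ∀ (A : Subgroup G), IsPGroup p A → Nat.Coprime (Nat.card V) (Nat.card A) := by
        intro A hA
        obtain ⟨k, hk⟩ := hA.exists_card_eq
        rw [hk]
        exact (Nat.Coprime.pow_left k ((Nat.Prime.coprime_iff_not_dvd hp.out).2 hpV)).symm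
      obtain ⟨L, hLE, hLz, hLsup, hLV⟩ := exists_inv_complement (A := E)
        (L := zpowers (d ^ p ^ (a + 1))) (W := zpowers w) (V := V)
        (fun x hx y hy => hEc x hx y (hEP hy)) (zpowers_le.2 hzE) (zpowers_le.2 hw)
        (zpowers_inf_eq_bot hoz how hwz) (by
          intro x hx
          obtain ⟨i, j, rfl⟩ := span_of_ne hEcard hzE hw hoz how hwz hx
          exact ⟨_, zpow_mem (mem_zpowers _) i, _, zpow_mem (mem_zpowers _) j, rfl⟩)
        (fun v _ x hx => hEn.conj_mem x hx v)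
        (fun v hv x hx => by
          obtain ⟨k, rfl⟩ := hx
          simp only
          rw [← conj_zpow]
          exact zpow_mem (hℓ v hv) k) (hcopE E (IsPGroup.of_card hEcard))
      -- the group generated by `d` and `E`
      let D : Subgroup G := prodSub (zpowers d) E (by
        rintro e he x ⟨k, rfl⟩
        simp only
        have : e * d ^ k * e⁻¹ = d ^ k := by rw [hEc e he _ (P.zpow_mem hdP k)]; group
        rw [this]; exact zpow_mem (mem_zpowers d) k)
      have hDmem : ∀ x, x ∈ D ↔ ∃ x₁ ∈ zpowers d, ∃ x₂ ∈ E, x = x₁ * x₂ := fun x => Iff.rfl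
      have hdD : d ∈ D := (hDmem d).2 ⟨d, mem_zpowers d, 1, one_mem _, by simp⟩
      have hED : E ≤ D := fun x hx => (hDmem x).2 ⟨1, one_mem _, x, hx, by simp⟩
      have hDB : D ≤ B := by
        intro x hx
        obtain ⟨x₁, hx₁, x₂, hx₂, rfl⟩ := (hDmem x).1 hx
        exact B.mul_mem ((zpowers_le.2 hdB) hx₁) (hEB hx₂)
      have hDcomm : ∀ x ∈ D, ∀ y ∈ D, x * y = y * x := by
        intro x hx y hy
        obtain ⟨_, ⟨i, rfl⟩, e, he, rfl⟩ := (hDmem x).1 hx
        obtain ⟨_, ⟨j, rfl⟩, f, hf, rfl⟩ := (hDmem y).1 hy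
        simp only
        have h1 : Commute (d ^ i) (d ^ j) := Commute.zpow_zpow_self d i j
        have h2 : Commute e (d ^ j) := hEc e he _ (P.zpow_mem hdP j)
        have h3 : Commute e f := hEc e he _ (hEP hf)
        have h4 : Commute (d ^ i) f := (hEc f hf _ (P.zpow_mem hdP i)).symm
        exact ((h1.mul_right h4).mul_left (h2.mul_right h3))
      have hzd : ∀ x ∈ zpowers d, x ^ p = 1 → x ∈ zpowers (d ^ p ^ (a + 1)) :=
        fun x hx hxp => mem_socle hod hx hxp
      have hDp : IsPGroup p D := by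
        intro x
        refine ⟨a + 1 + 1, ?_⟩
        obtain ⟨_, ⟨i, rfl⟩, e, he, hx⟩ := (hDmem x).1 x.2
        apply Subtype.ext
        rw [Subgroup.coe_pow, hx]
        simp only
        rw [Commute.mul_pow (show Commute _ _ from (hEc e he _ (P.zpow_mem hdP i)).symm)]
        have h1 : e ^ p ^ (a + 1 + 1) = 1 := by rw [pow_succ', pow_mul, hEp e he, one_pow]
        have h2 : (d ^ i) ^ p ^ (a + 1 + 1) = 1 := by
          rw [← zpow_natCast, ← zpow_mul, mul_comm, zpow_mul, zpow_natCast, ← hod,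
            pow_orderOf_eq_one, one_zpow]
        rw [h1, h2]; simp
      obtain ⟨C, hCD, hLC, hCsup, hCV⟩ := exists_inv_complement (A := D) (L := L)
        (W := zpowers d) (V := V) hDcomm (hLE.trans hED) (zpowers_le.2 hdD) (by
          rw [eq_bot_iff]
          rintro x ⟨hx1, hx2⟩
          have h1 := hzd x hx2 (hEp x (hLE hx1))
          rw [mem_bot]
          exact mem_inf_bot hLz h1 hx1) (by
          intro x hx
          obtain ⟨x₁, hx₁, x₂, hx₂, rfl⟩ := (hDmem x).1 hx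
          obtain ⟨l, hl, c, hc, hlc⟩ := hLsup x₂ hx₂
          have hl' : l ∈ zpowers d := (zpowers_le.2 (pow_mem (mem_zpowers d) _)) hl
          refine ⟨c, hc, x₁ * l, mul_mem hx₁ hl', ?_⟩
          have h1 : c * (x₁ * l) = (x₁ * l) * c := by
            apply hEc c (hLE hc)
            exact P.mul_mem ((zpowers_le.2 hdP) hx₁) ((zpowers_le.2 hdP) hl')
          rw [h1, hlc]; group) (by
          intro v hv x hx
          obtain ⟨_, ⟨i, rfl⟩, e, he, rfl⟩ := (hDmem x).1 hx
          simp only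
          obtain ⟨k, f, hf, hkf⟩ := hconj v hv
          have h1 : v * (d ^ i * e) * v⁻¹ = (v * d * v⁻¹) ^ i * (v * e * v⁻¹) := by
            rw [conj_zpow]; group
          rw [h1, hkf]
          exact D.mul_mem (D.zpow_mem (D.mul_mem (D.zpow_mem hdD k) (hED hf)) i)
            (hED (hEn.conj_mem e he v))) hLV (hcopE D hDp)
      obtain ⟨l, hl, c, hc, hlc⟩ := hCsup d hdD
      have hlE : l ∈ E := hLE hl
      have hcomm : ∀ x ∈ P, l * x = x * l := fun x hx => hEc l hlE x hx
      have hcd : c = l⁻¹ * d := by rw [hlc]; group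
      have hcP : c ∈ P := hBP (hDB (hCD hc))
      refine ⟨c, hDB (hCD hc), ?_, ?_⟩
      · intro h
        apply hd1
        rw [hlc, Commute.mul_pow (show Commute _ _ from hcomm c hcP), h, mul_one, pow_succ',
          pow_mul, hEp l hlE, one_pow]
      · intro v hv
        have h1 := hCV v hv c hc
        obtain ⟨_, ⟨i, rfl⟩, e, he, hx⟩ := (hDmem _).1 (hCD h1)
        simp only at hx
        -- `v c v⁻¹ = d ^ i * e`
        obtain ⟨l₁, hl₁, c₁, hc₁, he₁⟩ := hLsup e he
        obtain ⟨j, hj⟩ := hl₁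
        simp only at hj
        have hx' : v * c * v⁻¹ = c₁ * (d ^ i * l₁) := by
          have h2 : c₁ * (d ^ i * l₁) = (d ^ i * l₁) * c₁ := by
            apply hEc c₁ (hLE hc₁)
            rw [← hj]
            exact P.mul_mem (P.zpow_mem hdP i) (P.zpow_mem (P.pow_mem hdP _) j)
          rw [h2, hx, he₁]; group
        obtain ⟨n, hn⟩ : ∃ n : ℤ, d ^ i * l₁ = d ^ n := by
          refine ⟨i + (p ^ (a + 1) : ℕ) * j, ?_⟩
          rw [← hj, zpow_add, zpow_mul, zpow_natCast]
        have h3 : d ^ n = l ^ n * c ^ n := by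
          conv_lhs => rw [hlc]
          exact Commute.mul_zpow (show Commute _ _ from hcomm c hcP) n
        rw [hn, h3] at hx'
        have h4 : v * c * v⁻¹ * (c ^ n)⁻¹ = c₁ * l ^ n := by rw [hx']; group
        have h5 : c₁ * l ^ n ∈ L := L.mul_mem hc₁ (L.zpow_mem hl n)
        have h6 : v * c * v⁻¹ * (c ^ n)⁻¹ ∈ C := C.mul_mem h1 (C.inv_mem (C.zpow_mem hc n))
        have h7 : v * c * v⁻¹ * (c ^ n)⁻¹ = 1 := mem_inf_bot hLC (by rw [h4]; exact h5) h6
        exact ⟨n, (mul_inv_eq_one.1 h7).symm⟩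
    · -- `E` meets `B` in the line of `d`
      refine ⟨d, hdB, hd1, fun v hv => ?_⟩
      obtain ⟨k, e, he, hke⟩ := hconj v hv
      have heB : e ∈ B := by
        have : e = (d ^ k)⁻¹ * (v * d * v⁻¹) := by rw [hke]; group
        rw [this]
        exact B.mul_mem (B.inv_mem (B.zpow_mem hdB k)) (hVB v hv d hdB)
      have hez : e ∈ zpowers (d ^ p ^ (a + 1)) := by
        by_contra hne
        apply hEB
        have hoe : orderOf e = p := orderOf_eq_prime ((hE e).1 he).2 (by
          rintro rfl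
          exact hne (one_mem _))
        intro x hx
        obtain ⟨i, j, rfl⟩ := span_of_ne hEcard hzE he hoz hoe hne hx
        exact B.mul_mem (B.zpow_mem (B.pow_mem hdB _) i) (B.zpow_mem heB j)
      rw [hke]
      exact mul_mem (zpow_mem (mem_zpowers d) k)
        ((zpowers_le.2 (pow_mem (mem_zpowers d) _)) hez)

end Pool.Agent.Lib_MP_53dcbc_mc
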