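import Pool.Agent.Lib_MP_53dcbc_mc.Norm
import Pool.Agent.Lib_MP_53dcbc_co.Main

/-!
# Elements commuting up to power maps
-/

namespace Pool.Agent.Lib_MP_53dcbc_mc

open Subgroup Pool.Agent.Lib_MP_53dcbc_co
open scoped Pointwise

universe u

variable {G : Type u} [Group G] [Finite G] {p : ℕ} [hp : Fact p.Prime] {E : Subgroup G}

theorem exists_two (hE : Nat.card E = p ^ 2) (hEp : ∀ x ∈ E, x ^ p = 1) :
    ∃ a ∈ E, ∃ b ∈ E, orderOf a = p ∧ orderOf b = p ∧ b ∉ zpowers a := by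
  obtain ⟨a, ha, hoa⟩ := exists_order_p (a := 1) hE
  have hex : ∃ b ∈ E, b ∉ zpowers a := by
    by_contra h
    push Not at h
    have h2 := card_le_of_le (show E ≤ zpowers a from h)
    rw [Nat.card_zpowers, hoa, hE] at h2
    have := hp.out.one_lt
    nlinarith
  obtain ⟨b, hb, hba⟩ := hex
  refine ⟨a, ha, b, hb, hoa, orderOf_eq_prime (hEp b hb) ?_, hba⟩
  rintro rfl
  exact hba (one_mem _)

/-- an element acting by power maps acts by one power map -/
theorem powSub_uniform (hE : Nat.card E = p ^ 2) (hEp : ∀ x ∈ E, x ^ p = 1) {x : G}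
    (hx : x ∈ powSub E) : ∃ k : ℤ, ∀ y ∈ E, x * y * x⁻¹ = y ^ k := by
  obtain ⟨a, ha, b, hb, hoa, hob, hba⟩ := exists_two hE hEp
  have hab := notMem_symm hoa hob hba
  have h1 : a * b ∉ zpowers a := by
    intro h
    exact hba (((zpowers a).mul_mem_cancel_left (mem_zpowers a)).1 h)
  have h2 : a * b ∉ zpowers b := by
    intro h
    exact hab (((zpowers b).mul_mem_cancel_right (mem_zpowers b)).1 h)
  exact scalar_of_three hE ha hb (E.mul_mem ha hb) hoa hob hba h1 h2 (hx a ha) (hx b hb)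
    (hx _ (E.mul_mem ha hb))

omit [Finite G] in
theorem zmod_of_zpow_eq {y : G} (hy : orderOf y = p) {i j : ℤ} (h : y ^ i = y ^ j) :
    (i : ZMod p) = (j : ZMod p) := by
  have h1 : y ^ (i - j) = 1 := by rw [zpow_sub, h, mul_inv_cancel]
  have h2 : (orderOf y : ℤ) ∣ i - j := orderOf_dvd_iff_zpow_eq_one.2 h1
  rw [hy] at h2
  have h3 := (ZMod.intCast_zmod_eq_zero_iff_dvd _ p).2 h2
  push_cast at h3
  exact sub_eq_zero.1 h3

omit [Finite G] in
theorem zpow_eq_of_zmod {y : G} (hy : y ^ p = 1) {i j : ℤ} (h : (i : ZMod p) = (j : ZMod p)) :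
    y ^ i = y ^ j := by
  have h1 : (p : ℤ) ∣ i - j := by
    apply (ZMod.intCast_zmod_eq_zero_iff_dvd _ p).1
    push_cast
    rw [h, sub_self]
  obtain ⟨k, hk⟩ := h1
  have h2 : i = j + p * k := by omega
  rw [h2, zpow_add, zpow_mul, zpow_natCast, hy, one_zpow, mul_one]

omit [Finite G] in
/-- independence -/
theorem indep_exp {y w : G} (hy : orderOf y = p) (hw : orderOf w = p) (hwy : w ∉ zpowers y)
    {i j k l : ℤ} (h : y ^ i * w ^ j = y ^ k * w ^ l) :
    y ^ i = y ^ k ∧ w ^ j = w ^ l := by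
  have hbot := zpowers_inf_eq_bot hy hw hwy
  have e4 : (y ^ k)⁻¹ * y ^ i = w ^ l * (w ^ j)⁻¹ := by
    rw [inv_mul_eq_iff_eq_mul, ← mul_assoc, eq_mul_inv_iff_mul_eq]
    exact h
  have h1 : (y ^ k)⁻¹ * y ^ i ∈ zpowers y :=
    mul_mem (inv_mem (zpow_mem (mem_zpowers y) k)) (zpow_mem (mem_zpowers y) i)
  have h2 : (y ^ k)⁻¹ * y ^ i ∈ zpowers w := by
    rw [e4]
    exact mul_mem (zpow_mem (mem_zpowers w) l) (inv_mem (zpow_mem (mem_zpowers w) j))
  have h3 := mem_inf_bot hbot h1 h2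
  have h4 := h3
  rw [e4] at h4
  exact ⟨(inv_mul_eq_one.1 h3).symm, (mul_inv_eq_one.1 h4).symm⟩

/-- If `x` is not a power map on `E`, has odd order, normalises the line of `y` and commutes with
`z` up to power maps, then `z` normalises the line of `y`. -/
theorem line_of_commute_mod [hEn : E.Normal] (hE : Nat.card E = p ^ 2)
    (hEp : ∀ x ∈ E, x ^ p = 1) {x y z : G} (hy : y ∈ E) (hoy : orderOf y = p)
    (hxy : x * y * x⁻¹ ∈ zpowers y) (hxK : x ∉ powSub E) {n : ℕ} (hn : Odd n) (hxn : x ^ n = 1)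
    (hq : x * z * x⁻¹ * z⁻¹ ∈ powSub E) : z * y * z⁻¹ ∈ zpowers y := by
  by_contra hc
  obtain ⟨l, hl⟩ := powSub_uniform hE hEp hq
  obtain ⟨m, hm⟩ := hxy
  simp only at hm
  obtain ⟨q, hqdef⟩ : ∃ q, q = x * z * x⁻¹ * z⁻¹ := ⟨_, rfl⟩
  obtain ⟨w, hw⟩ : ∃ w, w = z * y * z⁻¹ := ⟨_, rfl⟩
  obtain ⟨w', hw'⟩ : ∃ w', w' = z * w * z⁻¹ := ⟨_, rfl⟩
  rw [← hqdef] at hq hl
  rw [← hw] at hc
  have hwE : w ∈ E := by rw [hw]; exact hEn.conj_mem y hy z
  have hw'E : w' ∈ E := by rw [hw']; exact hEn.conj_mem w hwE z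
  have how : orderOf w = p := by rw [hw, orderOf_conj']; exact hoy
  have how' : orderOf w' = p := by rw [hw', orderOf_conj']; exact how
  have e1 : x * w * x⁻¹ = w ^ (m * l) := by
    have h1 : x * w * x⁻¹ = q * (z * (x * y * x⁻¹) * z⁻¹) * q⁻¹ := by
      rw [hqdef, hw]; group
    have h2 : z * (x * y * x⁻¹) * z⁻¹ = w ^ m := by
      rw [← hm, ← conj_zpow, ← hw]
    rw [h1, h2, hl _ (E.zpow_mem hwE m), ← zpow_mul]
  have e2 : x * w' * x⁻¹ = w' ^ (m * l * l) := by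
    have h1 : x * w' * x⁻¹ = q * (z * (x * w * x⁻¹) * z⁻¹) * q⁻¹ := by
      rw [hqdef, hw']; group
    have h2 : z * (x * w * x⁻¹) * z⁻¹ = w' ^ (m * l) := by
      rw [e1, ← conj_zpow, ← hw']
    rw [h1, h2, hl _ (E.zpow_mem hw'E _), ← zpow_mul]
  obtain ⟨α, β, hαβ⟩ := span_of_ne hE hy hwE hoy how hc hw'E
  have hcomm : Commute y w := comm_of_sq hE hy hwE
  have e3 : x * w' * x⁻¹ = y ^ (m * α) * w ^ (m * l * β) := by
    have h1 : x * (y ^ α * w ^ β) * x⁻¹ = (x * y * x⁻¹) ^ α * (x * w * x⁻¹) ^ β := by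
      rw [conj_zpow, conj_zpow]; group
    rw [hαβ, h1, ← hm, e1, ← zpow_mul, ← zpow_mul]
  have e4 : w' ^ (m * l * l) = y ^ (α * (m * l * l)) * w ^ (β * (m * l * l)) := by
    rw [hαβ, (hcomm.zpow_zpow α β).mul_zpow, ← zpow_mul, ← zpow_mul]
  rw [e2, e4] at e3
  obtain ⟨f1, f2⟩ := indep_exp hoy how hc e3
  have g1 := zmod_of_zpow_eq hoy f1
  have g2 := zmod_of_zpow_eq how f2
  push_cast at g1 g2
  have hm0 : (m : ZMod p) ≠ 0 := by
    intro h
    have h1 : y ^ m = y ^ (0 : ℤ) := zpow_eq_of_zmod (hEp y hy) (by push_cast; exact h)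
    rw [zpow_zero] at h1
    rw [h1] at hm
    have h2 : y = x⁻¹ * (x * y * x⁻¹) * x := by group
    rw [← hm] at h2
    have h3 : y = 1 := by rw [h2]; group
    rw [h3, orderOf_one] at hoy
    exact hp.out.one_lt.ne hoy
  have hl0 : (l : ZMod p) ≠ 0 := by
    intro h
    have h1 : w ^ (m * l) = w ^ (0 : ℤ) := zpow_eq_of_zmod (hEp w hwE) (by
      push_cast; rw [h, mul_zero])
    rw [zpow_zero] at h1
    rw [h1] at e1
    have h2 : w = x⁻¹ * (x * w * x⁻¹) * x := by group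
    rw [e1] at h2
    have h3 : w = 1 := by rw [h2]; group
    rw [h3, orderOf_one] at how
    exact hp.out.one_lt.ne how
  have hll : (l : ZMod p) * l = 1 := by
    by_cases hα : (α : ZMod p) = 0
    · have hβ : (β : ZMod p) ≠ 0 := by
        intro h
        have h1 : y ^ α = y ^ (0 : ℤ) := zpow_eq_of_zmod (hEp y hy) (by push_cast; exact hα)
        have h2 : w ^ β = w ^ (0 : ℤ) := zpow_eq_of_zmod (hEp w hwE) (by push_cast; exact h)
        rw [zpow_zero] at h1 h2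
        rw [h1, h2, one_mul] at hαβ
        rw [hαβ, orderOf_one] at how'
        exact hp.out.one_lt.ne how'
      have h3 : (β : ZMod p) * m * l * (l - 1) = 0 := by linear_combination g2
      have h4 : (l : ZMod p) - 1 = 0 := by
        rcases mul_eq_zero.1 h3 with h | h
        · exact absurd h (mul_ne_zero (mul_ne_zero hβ hm0) hl0)
        · exact h
      rw [sub_eq_zero.1 h4, one_mul]
    · have h3 : (α : ZMod p) * m * (l * l - 1) = 0 := by linear_combination g1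
      rcases mul_eq_zero.1 h3 with h | h
      · exact absurd h (mul_ne_zero hα hm0)
      · exact sub_eq_zero.1 h
  have key : ∀ (k : ℤ) (v : G), x * v * x⁻¹ = v ^ k → ∀ n : ℕ, x ^ n * v * (x ^ n)⁻¹ = v ^ (k ^ n) := by
    intro k v hv n
    induction n with
    | zero => simp
    | succ n ih =>
      have e : x ^ (n + 1) * v * (x ^ (n + 1))⁻¹ = x * (x ^ n * v * (x ^ n)⁻¹) * x⁻¹ := by
        rw [pow_succ']; group
      rw [e, ih, ← conj_zpow, hv, ← zpow_mul, pow_succ']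
  have k1 := key m y hm.symm n
  have k2 := key (m * l) w e1 n
  rw [hxn] at k1 k2
  simp only [one_mul, inv_one, mul_one] at k1 k2
  have k3 := zmod_of_zpow_eq hoy (i := 1) (j := m ^ n) (by rw [zpow_one]; exact k1)
  have k4 := zmod_of_zpow_eq how (i := 1) (j := (m * l) ^ n) (by rw [zpow_one]; exact k2)
  push_cast at k3 k4
  have k5 : (l : ZMod p) ^ n = 1 := by
    rw [mul_pow, ← k3, one_mul] at k4
    exact k4.symm
  obtain ⟨t, ht⟩ := hn
  have k6 : (l : ZMod p) = 1 := by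
    rw [ht, pow_succ, pow_mul, pow_two, hll, one_pow, one_mul] at k5
    exact k5
  apply hxK
  intro v hv
  have e5 : x * w * x⁻¹ = w ^ m := by
    rw [e1]
    apply zpow_eq_of_zmod (hEp w hwE)
    push_cast
    rw [k6, mul_one]
  rw [scalar_of_two hE hy hwE hoy how hc hm.symm e5 hv]
  exact zpow_mem (mem_zpowers v) m

end Pool.Agent.Lib_MP_53dcbc_mc
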