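import Pool.Agent.Lib_MP_53dcbc_mc.Norm

/-!
# Invariant complements
-/

namespace Pool.Agent.Lib_MP_53dcbc_mc

open Subgroup Pool.Agent.Lib_MP_53dcbc_co
open scoped Pointwise

universe u

/-- A group `V` of order prime to `|A|` that normalises the abelian group `A` and a direct factor
`L` of `A` normalises some complement of `L` in `A`. -/
theorem exists_inv_complement {G : Type u} [Group G] [Finite G] {A L W V : Subgroup G}
    (hcomm : ∀ x ∈ A, ∀ y ∈ A, x * y = y * x) (hLA : L ≤ A) (hWA : W ≤ A) (hinf : L ⊓ W = ⊥)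
    (hsup : ∀ x ∈ A, ∃ l ∈ L, ∃ w ∈ W, x = l * w)
    (hVA : ∀ v ∈ V, ∀ x ∈ A, v * x * v⁻¹ ∈ A) (hVL : ∀ v ∈ V, ∀ x ∈ L, v * x * v⁻¹ ∈ L)
    (hcop : Nat.Coprime (Nat.card V) (Nat.card A)) :
    ∃ C : Subgroup G, C ≤ A ∧ L ⊓ C = ⊥ ∧ (∀ x ∈ A, ∃ l ∈ L, ∃ c ∈ C, x = l * c) ∧
      ∀ v ∈ V, ∀ x ∈ C, v * x * v⁻¹ ∈ C := by
  classical
  have hAc : IsMulCommutative A := ⟨⟨fun x y => Subtype.ext (hcomm x x.2 y y.2)⟩⟩
  let _ : CommGroup A := { (inferInstance : Group A) with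
    mul_comm := fun x y => Subtype.ext (hcomm x x.2 y y.2) }
  have _ : Fintype V := Fintype.ofFinite V
  -- the projection
  have hsup' : ∀ x : A, ∃ l : A, (l : G) ∈ L ∧ ∃ w : A, (w : G) ∈ W ∧ x = l * w := by
    intro x
    obtain ⟨l, hl, w, hw, hx⟩ := hsup x x.2
    exact ⟨⟨l, hLA hl⟩, hl, ⟨w, hWA hw⟩, hw, Subtype.ext hx⟩
  choose f hfL w hwW hfw using hsup'
  have huniq : ∀ l l' v v' : A, (l : G) ∈ L → (l' : G) ∈ L → (v : G) ∈ W → (v' : G) ∈ W →
      l * v = l' * v' → l = l' := by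
    intro l l' v v' hl hl' hv hv' h
    have h1 : l'⁻¹ * l = v' * v⁻¹ := by
      rw [inv_mul_eq_iff_eq_mul, ← mul_assoc, eq_mul_inv_iff_mul_eq]
      exact h
    have h2 : ((l'⁻¹ * l : A) : G) ∈ L := L.mul_mem (L.inv_mem hl') hl
    have h3 : ((l'⁻¹ * l : A) : G) ∈ W := by
      rw [h1]; exact W.mul_mem hv' (W.inv_mem hv)
    have h4 : ((l'⁻¹ * l : A) : G) ∈ L ⊓ W := ⟨h2, h3⟩
    rw [hinf, mem_bot] at h4
    exact (inv_mul_eq_one.1 (Subtype.ext h4)).symm
  have hfmul : ∀ x y : A, f (x * y) = f x * f y := by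
    intro x y
    apply huniq _ _ (w (x * y)) (w x * w y) (hfL _) (L.mul_mem (hfL x) (hfL y)) (hwW _)
      (W.mul_mem (hwW x) (hwW y))
    rw [← hfw, mul_mul_mul_comm, ← hfw, ← hfw]
  have hfid : ∀ x : A, (x : G) ∈ L → f x = x := by
    intro x hx
    apply huniq _ _ (w x) 1 (hfL x) hx (hwW x) W.one_mem
    rw [← hfw, mul_one]
  -- the action
  let φ : G → A → A := fun v x => if h : v * (x : G) * v⁻¹ ∈ A then ⟨v * x * v⁻¹, h⟩ else 1
  have hφ : ∀ v ∈ V, ∀ x : A, ((φ v x : A) : G) = v * x * v⁻¹ := by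
    intro v hv x
    have h := hVA v hv x x.2
    simp only [φ, dif_pos h]
  have hφmul : ∀ v ∈ V, ∀ x y : A, φ v (x * y) = φ v x * φ v y := by
    intro v hv x y
    apply Subtype.ext
    rw [hφ v hv]
    push_cast
    rw [hφ v hv, hφ v hv]
    group
  have hφφ : ∀ u ∈ V, ∀ v ∈ V, ∀ x : A, φ u (φ v x) = φ (u * v) x := by
    intro u hu v hv x
    apply Subtype.ext
    rw [hφ u hu, hφ v hv, hφ (u * v) (V.mul_mem hu hv)]
    group
  have hφ1 : ∀ x : A, φ 1 x = x := by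
    intro x
    apply Subtype.ext
    rw [hφ 1 V.one_mem]
    simp
  have hφL : ∀ v ∈ V, ∀ x : A, (x : G) ∈ L → ((φ v x : A) : G) ∈ L := by
    intro v hv x hx
    rw [hφ v hv]
    exact hVL v hv x hx
  let F : A → A := fun x => ∏ v : V, φ v (f (φ ((v : G)⁻¹) x))
  have hFmul : ∀ x y : A, F (x * y) = F x * F y := by
    intro x y
    change ∏ v : V, _ = (∏ v : V, _) * (∏ v : V, _)
    rw [← Finset.prod_mul_distrib]
    apply Finset.prod_congr rfl
    intro v _
    rw [hφmul _ (V.inv_mem v.2), hfmul, hφmul _ v.2]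
  have hFL : ∀ x : A, ((F x : A) : G) ∈ L := by
    intro x
    have h1 : F x ∈ L.subgroupOf A := by
      apply Subgroup.prod_mem
      intro v _
      rw [mem_subgroupOf]
      exact hφL _ v.2 _ (hfL _)
    exact mem_subgroupOf.1 h1
  have hFid : ∀ x : A, (x : G) ∈ L → F x = x ^ Nat.card V := by
    intro x hx
    change ∏ v : V, _ = _
    have h1 : ∀ v : V, φ v (f (φ ((v : G)⁻¹) x)) = x := by
      intro v
      rw [hfid _ (hφL _ (V.inv_mem v.2) x hx), hφφ _ v.2 _ (V.inv_mem v.2), mul_inv_cancel, hφ1]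
    rw [Finset.prod_congr rfl (fun v _ => h1 v), Finset.prod_const, Finset.card_univ,
      Nat.card_eq_fintype_card]
  have hφprod : ∀ u ∈ V, ∀ (s : Finset V) (h : V → A), φ u (∏ v ∈ s, h v) = ∏ v ∈ s, φ u (h v) := by
    intro u hu s h
    have h1 : φ u 1 = 1 := by
      have := hφmul u hu 1 1
      rw [mul_one] at this
      exact (mul_eq_left.1 this.symm)
    induction s using Finset.induction_on with
    | empty => simp [h1]
    | insert a s ha ih => rw [Finset.prod_insert ha, Finset.prod_insert ha, hφmul u hu, ih]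
  have hFeq : ∀ u ∈ V, ∀ x : A, F (φ u x) = φ u (F x) := by
    intro u hu x
    change ∏ v : V, _ = φ u (∏ v : V, _)
    rw [hφprod u hu]
    refine (Fintype.prod_equiv (Equiv.mulLeft (⟨u, hu⟩ : V)) _ _ ?_).symm
    intro v
    simp only [Equiv.coe_mulLeft, Subgroup.coe_mul]
    rw [hφφ u hu _ v.2, hφφ _ (V.inv_mem (V.mul_mem hu v.2)) u hu]
    congr 3
    group
  have hF1 : F 1 = 1 := by
    have := hFmul 1 1
    rw [mul_one] at this
    exact (mul_eq_left.1 this.symm)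
  let Fh : A →* A := { toFun := F, map_one' := hF1, map_mul' := hFmul }
  have hmemC : ∀ x : A, (x : G) ∈ Fh.ker.map A.subtype ↔ F x = 1 := by
    intro x
    constructor
    · rintro ⟨y, hy, hyx⟩
      have : y = x := Subtype.ext hyx
      rw [← this]; exact hy
    · intro hx
      exact ⟨x, hx, rfl⟩
  have hCA : Fh.ker.map A.subtype ≤ A := map_subtype_le _
  refine ⟨Fh.ker.map A.subtype, hCA, ?_, ?_, ?_⟩
  · rw [eq_bot_iff]
    rintro x ⟨hxL, hxC⟩
    have hx := (hmemC ⟨x, hLA hxL⟩).1 hxC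
    rw [hFid _ hxL] at hx
    have h1 : (⟨x, hLA hxL⟩ : A) ^ Nat.card A = 1 := pow_card_eq_one'
    have h2 : orderOf (⟨x, hLA hxL⟩ : A) = 1 :=
      Nat.eq_one_of_dvd_coprimes hcop (orderOf_dvd_of_pow_eq_one hx) (orderOf_dvd_of_pow_eq_one h1)
    rw [orderOf_eq_one_iff] at h2
    rw [mem_bot]
    exact congrArg Subtype.val h2
  · intro x hx
    set n := Nat.card V with hn
    have hg := Nat.gcd_eq_gcd_ab n (Nat.card A)
    rw [hcop.gcd_eq_one] at hg
    push_cast at hg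
    set X : A := ⟨x, hx⟩ with hX
    set l : A := (F X) ^ (n.gcdA (Nat.card A)) with hl
    have hlL : (l : G) ∈ L := by
      rw [hl]; exact L.zpow_mem (hFL X) _
    have hFl : F l = F X := by
      rw [hFid l hlL, hl, ← zpow_natCast, ← zpow_mul]
      have h1 : (F X) ^ (Nat.card A : ℤ) = 1 := by
        rw [zpow_natCast]; exact pow_card_eq_one'
      have h2 : n.gcdA (Nat.card A) * (n : ℤ) = 1 - (Nat.card A : ℤ) * n.gcdB (Nat.card A) := by
        linarith
      rw [h2, zpow_sub, zpow_mul, h1, one_zpow, inv_one, mul_one, zpow_one]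
    refine ⟨l, hlL, ((l⁻¹ * X : A) : G), ?_, ?_⟩
    · rw [hmemC, hFmul]
      have h3 : F l⁻¹ = (F l)⁻¹ := by
        apply eq_inv_of_mul_eq_one_left
        rw [← hFmul, inv_mul_cancel, hF1]
      rw [h3, hFl, inv_mul_cancel]
    · push_cast
      rw [hX]
      group
  · intro v hv x hx
    have hxA := hCA hx
    have h1 := (hmemC ⟨x, hxA⟩).1 hx
    have h2 : F (φ v ⟨x, hxA⟩) = 1 := by
      rw [hFeq v hv, h1]
      have := hφmul v hv 1 1
      rw [mul_one] at this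
      exact (mul_eq_left.1 this.symm)
    have h3 := (hmemC _).2 h2
    rwa [hφ v hv] at h3

end Pool.Agent.Lib_MP_53dcbc_mc
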