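import Pool.Agent.Lib_MP_53dcbc_mc.Socle

/-!
# The Sylow subgroup of the largest prime is normal
-/

namespace Pool.Agent.Lib_MP_53dcbc_mc

open Subgroup Pool.Agent.Lib_MP_53dcbc_co
open scoped Pointwise

universe u

theorem exists_pow_succ {s p : ℕ} (hp : p.Prime) (hs : s ≠ 0) (hps : p ∣ s) :
    ∃ a m, ¬ p ∣ m ∧ s = p ^ (a + 1) * m := by
  obtain ⟨a, m, hm, h⟩ := Nat.exists_eq_pow_mul_and_not_dvd hs p hp.ne_one
  rcases a with _ | a
  · rw [pow_zero, one_mul] at h
    rw [h] at hps
    exact absurd hps hm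
  · exact ⟨a, m, hm, h⟩

theorem ne_zero_of_card {G : Type u} [Group G] [Finite G] {s : ℕ} (hG : Nat.card G = s ^ 2) :
    s ≠ 0 := by
  rintro rfl
  have : 0 < Nat.card G := Nat.card_pos
  rw [hG] at this
  simp at this

theorem zgroup_map {G : Type u} [Group G] [Finite G] {U : Subgroup G} (hZ : IsZGroup U)
    (E : Subgroup G) [E.Normal] : IsZGroup (U.map (QuotientGroup.mk' E)) :=
  IsZGroup.of_surjective (G := U) (f := (QuotientGroup.mk' E).subgroupMap U)
    (MonoidHom.subgroupMap_surjective _ _)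

theorem sylow_normal_pcp (s : ℕ) : ∀ (G : Type u) [Group G] [Finite G], Nat.card G = s ^ 2 →
    ∀ U : Fin 3 → Subgroup G, IsPCP s U → (∀ i, IsZGroup (U i)) → Ab2 G →
    ∀ (p : ℕ) [Fact p.Prime], (∀ r, r.Prime → r ∣ s → r ≤ p) →
    ∀ P : Sylow p G, (P : Subgroup G).Normal := by
  induction s using Nat.strong_induction_on with
  | _ s ih =>
  intro G _ _ hG U hU hZ hab p hp hle P
  have hs0 := ne_zero_of_card hG
  by_cases hps : p ∣ s
  · obtain ⟨a, m, hm, hs⟩ := exists_pow_succ hp.out hs0 hps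
    obtain ⟨E, hEn, hEcard, hEp, hEU, hEQ⟩ := exists_socle hs hm hG hU hZ hab hle
    have hsu : s = p * (p ^ a * m) := by rw [hs, pow_succ]; ring
    have hu0 : 0 < p ^ a * m := Nat.pos_of_ne_zero (by
      intro h
      rw [h, mul_zero] at hsu
      exact hs0 hsu)
    have hlt : p ^ a * m < s := by
      rw [hsu]
      exact lt_mul_of_one_lt_left hu0 hp.out.one_lt
    have hPn : ((P.mapSurjective (QuotientGroup.mk'_surjective E) : Sylow p (G ⧸ E)) :
        Subgroup (G ⧸ E)).Normal := by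
      apply ih _ hlt (G ⧸ E) (card_quot' hp.out.pos hsu hG hEcard) _
        (quotient_pcp hp.out.pos hsu hG hU hEcard hEU) (fun i => zgroup_map (hZ i) E)
        (hab.quotient E) p
      intro r hr hd
      exact hle r hr (hd.trans (by rw [hsu]; exact Dvd.intro_left _ rfl))
    rw [Sylow.coe_mapSurjective] at hPn
    have h2 := hPn.comap (QuotientGroup.mk' E)
    rw [comap_map_eq, QuotientGroup.ker_mk', sup_eq_left.2 (hEQ P).1] at h2
    exact h2
  · have h1 := card_sylow' (p := p) (a := 0) (m := s) (by simp) hps hG P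
    rw [Nat.mul_zero, pow_zero, card_eq_one] at h1
    rw [h1]; infer_instance

end Pool.Agent.Lib_MP_53dcbc_mc
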