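import Pool.Agent.Lib_MP_53dcbc_co.Lines

/-!
# Powers of products when commutators are central
-/

namespace Pool.Agent.Lib_MP_53dcbc_mc

open Subgroup

universe u

variable {P : Type u} [Group P]

theorem pow_mul_of_central {u v c : P} (hc : ∀ x : P, c * x = x * c)
    (h : v * u = c * (u * v)) (n : ℕ) : v ^ n * u = c ^ n * (u * v ^ n) := by
  have hcn : ∀ (n : ℕ) (x : P), c ^ n * x = x * c ^ n := by
    intro n x
    exact (Commute.pow_left (show Commute c x from hc x) n)
  induction n with
  | zero => simp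
  | succ n ih =>
    rw [pow_succ', mul_assoc, ih, ← mul_assoc, ← hcn n v, mul_assoc, ← mul_assoc v u, h,
      pow_succ c, mul_assoc, mul_assoc, mul_assoc]

theorem mul_pow_of_central {u v c : P} (hc : ∀ x : P, c * x = x * c)
    (h : v * u = c * (u * v)) (n : ℕ) :
    (u * v) ^ n = c ^ (n * (n - 1) / 2) * (u ^ n * v ^ n) := by
  have hcn : ∀ (n : ℕ) (x : P), c ^ n * x = x * c ^ n := by
    intro n x
    exact (Commute.pow_left (show Commute c x from hc x) n)
  induction n with
  | zero => simp
  | succ n ih =>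
    have e : (n + 1) * (n + 1 - 1) / 2 = n * (n - 1) / 2 + n := by
      have : (n + 1) * (n + 1 - 1) = n * (n - 1) + n * 2 := by
        rcases n with _ | n
        · rfl
        · simp only [Nat.add_sub_cancel]; ring
      rw [this, Nat.add_mul_div_right _ _ (by norm_num)]
    rw [pow_succ, ih, e, pow_add]
    calc c ^ (n * (n - 1) / 2) * (u ^ n * v ^ n) * (u * v)
        = c ^ (n * (n - 1) / 2) * (u ^ n * ((v ^ n * u) * v)) := by group
      _ = c ^ (n * (n - 1) / 2) * (u ^ n * ((c ^ n * (u * v ^ n)) * v)) := by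
          rw [pow_mul_of_central hc h]
      _ = c ^ (n * (n - 1) / 2) * ((u ^ n * c ^ n) * (u * v ^ n * v)) := by group
      _ = c ^ (n * (n - 1) / 2) * ((c ^ n * u ^ n) * (u * v ^ n * v)) := by rw [hcn n (u ^ n)]
      _ = _ := by rw [pow_succ u, pow_succ v]; group

/-- the `p`-th power is multiplicative if the commutator is central of order dividing `p`,
and `p` is odd or the elements commute -/
theorem mul_pow_prime {p : ℕ} [hp : Fact p.Prime] {u v : P} (h2 : p ≠ 2 ∨ u * v = v * u)
    (hc : ∀ x : P, (v * u * (u * v)⁻¹) * x = x * (v * u * (u * v)⁻¹))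
    (hcp : (v * u * (u * v)⁻¹) ^ p = 1) : (u * v) ^ p = u ^ p * v ^ p := by
  rcases h2 with h2 | h2
  · rw [mul_pow_of_central hc (by group) p]
    obtain ⟨m, hm⟩ := hp.out.even_sub_one h2
    have e : p * (p - 1) / 2 = p * m := by
      rw [hm, ← two_mul, ← mul_assoc, mul_comm p 2, mul_assoc, Nat.mul_div_cancel_left _ (by norm_num)]
    rw [e, pow_mul, hcp, one_pow, one_mul]
  · exact (show Commute u v from h2).mul_pow p

end Pool.Agent.Lib_MP_53dcbc_mc
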