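import Pool.Agent.Lib_MP_53dcbc_mc.ZG

/-!
# Groups of rank at most two
-/

namespace Pool.Agent.Lib_MP_53dcbc_mc

open Subgroup Pool.Agent.Lib_MP_53dcbc_co
open scoped Pointwise

universe u

variable {p : ℕ} [hp : Fact p.Prime]

theorem exists_central_order_p {W : Type u} [Group W] [Finite W] (hW : IsPGroup p W)
    [Nontrivial W] : ∃ z ∈ center W, orderOf z = p := by
  have h1 : Nontrivial (center W) := hW.center_nontrivial
  have h2 : IsPGroup p (center W) := hW.to_subgroup _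
  obtain ⟨k, hk⟩ := h2.exists_card_eq
  rcases k with _ | k
  · rw [pow_zero] at hk
    exact absurd hk (Finite.one_lt_card.ne')
  · obtain ⟨z, hz, hoz⟩ := exists_order_p hk
    exact ⟨z, hz, hoz⟩

/-- A `p`-group with only one subgroup of order `p` is cyclic, if `p` is odd or the group is
abelian. -/
theorem cyclic_of_unique (n : ℕ) : ∀ (W : Type u) [Group W] [Finite W], Nat.card W = n →
    IsPGroup p W → (p ≠ 2 ∨ ∀ x y : W, x * y = y * x) →
    (∀ x y : W, x ^ p = 1 → y ^ p = 1 → x ≠ 1 → y ∈ zpowers x) → ∃ w : W, zpowers w = ⊤ := by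
  induction n using Nat.strong_induction_on with
  | _ n ih =>
  intro W _ _ hn hW h2 hu
  rcases subsingleton_or_nontrivial W with hsub | hnt
  · exact ⟨1, Subsingleton.elim _ _⟩
  obtain ⟨z, hz, hoz⟩ := exists_central_order_p hW
  have hz1 : z ≠ 1 := by
    rintro rfl
    rw [orderOf_one] at hoz
    exact hp.out.one_lt.ne hoz
  have hzp : z ^ p = 1 := pow_prime_of_order hoz
  have hzc : zpowers z ≤ center W := zpowers_le.2 hz
  have hZn : (zpowers z).Normal := ⟨fun x hx g => by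
    have : g * x * g⁻¹ = x := by rw [mem_center_iff.1 (hzc hx) g]; group
    rw [this]; exact hx⟩
  have hker : ∀ x, QuotientGroup.mk' (zpowers z) x = 1 ↔ x ∈ zpowers z := fun x => by
    rw [← MonoidHom.mem_ker, QuotientGroup.ker_mk']
  have hzexp : ∀ x ∈ zpowers z, x ^ p = 1 := by
    rintro _ ⟨k, rfl⟩
    simp only
    rw [← zpow_natCast, ← zpow_mul, mul_comm, zpow_mul, zpow_natCast, hzp, one_zpow]
  have hcard : Nat.card (W ⧸ zpowers z) < n := by
    have h3 := card_eq_card_quotient_mul_card_subgroup (zpowers z)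
    rw [Nat.card_zpowers, hoz, hn] at h3
    rw [h3]
    exact lt_mul_of_one_lt_right Nat.card_pos hp.out.one_lt
  have hq : IsPGroup p (W ⧸ zpowers z) := hW.to_quotient _
  have hW' : ∃ w' : W ⧸ zpowers z, zpowers w' = ⊤ := by
    rcases subsingleton_or_nontrivial (W ⧸ zpowers z) with hsub' | hnt'
    · exact ⟨1, Subsingleton.elim _ _⟩
    obtain ⟨c', hc', hoc'⟩ := exists_central_order_p hq
    obtain ⟨c, rfl⟩ := QuotientGroup.mk'_surjective _ c'
    have hc'p : (QuotientGroup.mk' (zpowers z) c) ^ p = 1 := pow_prime_of_order hoc'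
    have hcz : c ^ p ∈ zpowers z := by rw [← hker, map_pow]; exact hc'p
    have hcp : c ^ p ≠ 1 := by
      intro h
      have h3 : c ∈ zpowers z := hu z c hzp h hz1
      rw [← hker] at h3
      rw [h3, orderOf_one] at hoc'
      exact hp.out.one_lt.ne hoc'
    have hall : ∀ y' : W ⧸ zpowers z, y' ^ p = 1 →
        y' ∈ zpowers (QuotientGroup.mk' (zpowers z) c) := by
      intro y' hy'
      obtain ⟨y, rfl⟩ := QuotientGroup.mk'_surjective _ y'
      have hyz : y ^ p ∈ zpowers z := by rw [← hker, map_pow]; exact hy'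
      -- `z` is a power of `c ^ p`
      have h3 : z ∈ zpowers (c ^ p) := hu (c ^ p) z (hzexp _ hcz) hzp hcp
      have h4 : y ^ p ∈ zpowers (c ^ p) := (zpowers_le.2 h3) hyz
      obtain ⟨i, hi⟩ := h4
      simp only at hi
      have hcomm : y * c ^ (-i) * (c ^ (-i) * y)⁻¹ ∈ zpowers z := by
        apply comm_mem_of_quot
        have h5 := mem_center_iff.1 ((center _).zpow_mem hc' (-i))
          (QuotientGroup.mk' (zpowers z) y)
        rw [map_zpow]
        exact h5.symm
      have h5 : (c ^ (-i) * y) ^ p = (c ^ (-i)) ^ p * y ^ p := by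
        apply mul_pow_prime
        · rcases h2 with h2 | h2
          · exact Or.inl h2
          · exact Or.inr (h2 _ _)
        · intro x
          exact (mem_center_iff.1 (hzc hcomm) x).symm
        · exact hzexp _ hcomm
      have h6 : (c ^ (-i) * y) ^ p = 1 := by
        rw [h5, ← hi, ← zpow_natCast (c ^ (-i)), ← zpow_mul, ← zpow_natCast c, ← zpow_mul,
          ← zpow_add]
        have : -i * (p : ℤ) + p * i = 0 := by ring
        rw [this, zpow_zero]
      have h7 : c ^ (-i) * y ∈ zpowers z := hu z _ hzp h6 hz1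
      rw [← hker, map_mul, map_zpow] at h7
      refine ⟨i, ?_⟩
      simp only
      have h8 : QuotientGroup.mk' (zpowers z) y =
          ((QuotientGroup.mk' (zpowers z) c) ^ (-i))⁻¹ := (eq_inv_of_mul_eq_one_right h7)
      rw [h8, zpow_neg, inv_inv]
    apply ih _ hcard (W ⧸ zpowers z) rfl hq (odd_or_comm_quot h2 _)
    intro x' y' hx' hy' hx'1
    have h3 := hall x' hx'
    have h4 := hall y' hy'
    have h5 : orderOf x' = p := orderOf_eq_prime hx' hx'1
    rw [zpowers_eq_of_prime h5 hoc' h3]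
    exact h4
  obtain ⟨w', hw'⟩ := hW'
  obtain ⟨w, rfl⟩ := QuotientGroup.mk'_surjective _ w'
  have hdec : ∀ x : W, ∃ k : ℤ, (w ^ k)⁻¹ * x ∈ zpowers z := by
    intro x
    have h3 : QuotientGroup.mk' (zpowers z) x ∈ zpowers (QuotientGroup.mk' (zpowers z) w) := by
      rw [hw']; trivial
    obtain ⟨k, hk⟩ := h3
    simp only at hk
    refine ⟨k, ?_⟩
    rw [← hker, map_mul, map_inv, map_zpow, hk, inv_mul_cancel]
  by_cases hw1 : w = 1
  · refine ⟨z, eq_top_iff.2 fun x _ => ?_⟩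
    obtain ⟨k, hk⟩ := hdec x
    rw [hw1, one_zpow, inv_one, one_mul] at hk
    exact hk
  · refine ⟨w, eq_top_iff.2 fun x _ => ?_⟩
    obtain ⟨e, he⟩ := (IsPGroup.iff_card.1 hW)
    have h3 : orderOf w ∣ p ^ e := by rw [← he]; exact orderOf_dvd_natCard w
    obtain ⟨i, -, hoi⟩ := (Nat.dvd_prime_pow hp.out).1 h3
    obtain ⟨i, rfl⟩ : ∃ j, i = j + 1 := by
      rcases i with _ | i
      · rw [pow_zero] at hoi
        exact absurd (orderOf_eq_one_iff.1 hoi) hw1
      · exact ⟨i, rfl⟩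
    have h4 : orderOf (w ^ p ^ i) = p := orderOf_top_pow hoi
    have h5 : w ^ p ^ i ≠ 1 := by
      intro h
      rw [h, orderOf_one] at h4
      exact hp.out.one_lt.ne h4
    have h6 : z ∈ zpowers (w ^ p ^ i) := hu _ z (pow_prime_of_order h4) hzp h5
    have h7 : z ∈ zpowers w := (zpowers_le.2 (pow_mem (mem_zpowers w) _)) h6
    obtain ⟨k, hk⟩ := hdec x
    have h8 : x = w ^ k * ((w ^ k)⁻¹ * x) := by group
    rw [h8]
    exact mul_mem (zpow_mem (mem_zpowers w) k) ((zpowers_le.2 h7) hk)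

/-- a component missing a central element of order `p` is cyclic in a group without elementary
abelian subgroups of order `p ^ 3` -/
theorem cyclic_of_rank {P : Type u} [Group P] [Finite P] (hP : IsPGroup p P)
    (h2 : p ≠ 2 ∨ ∀ x y : P, x * y = y * x)
    (hr : ∀ A : Subgroup P, (∀ x ∈ A, x ^ p = 1) → (∀ x ∈ A, ∀ y ∈ A, x * y = y * x) →
      Nat.card A ≠ p ^ 3) {z : P} (hz : z ∈ center P) (hoz : orderOf z = p) {U : Subgroup P}
    (hzU : z ∉ U) : ∃ c, U = zpowers c := by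
  have hzp : z ^ p = 1 := pow_prime_of_order hoz
  have hUp : IsPGroup p U := hP.to_subgroup U
  have h2' : p ≠ 2 ∨ ∀ x y : U, x * y = y * x := by
    rcases h2 with h2 | h2
    · exact Or.inl h2
    · exact Or.inr fun x y => Subtype.ext (h2 x y)
  have hzU' : ∀ x ∈ zpowers z, x ∈ U → x = 1 := by
    intro x hx hxU
    by_contra hx1
    have h3 : orderOf x = p := by
      obtain ⟨k, rfl⟩ := hx
      simp only at hx1 ⊢
      apply orderOf_eq_prime
      · rw [← zpow_natCast, ← zpow_mul, mul_comm, zpow_mul, zpow_natCast, hzp, one_zpow]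
      · exact hx1
    have h4 := zpowers_eq_of_prime h3 hoz hx
    apply hzU
    have h5 : z ∈ zpowers x := by rw [h4]; exact mem_zpowers z
    exact (zpowers_le.2 hxU) h5
  rcases subsingleton_or_nontrivial U with hsub | hnt
  · refine ⟨1, ?_⟩
    rw [zpowers_one_eq_bot, eq_bot_iff]
    intro x hx
    have h3 : (⟨x, hx⟩ : U) = 1 := Subsingleton.elim _ _
    rw [mem_bot]
    exact congrArg Subtype.val h3
  obtain ⟨c, hc, hoc⟩ := exists_central_order_p hUp
  have hoc' : orderOf (c : P) = p := by rw [Subgroup.orderOf_coe]; exact hoc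
  have hall : ∀ y : U, y ^ p = 1 → y ∈ zpowers c := by
    intro y hyp
    by_contra hyc
    have hoy : orderOf (y : P) = p := by
      rw [Subgroup.orderOf_coe]
      apply orderOf_eq_prime hyp
      rintro rfl
      exact hyc (one_mem _)
    have hyc' : (y : P) ∉ zpowers (c : P) := by
      rintro ⟨k, hk⟩
      exact hyc ⟨k, Subtype.ext (by simpa using hk)⟩
    have hcy : Commute (c : P) (y : P) := by
      have := mem_center_iff.1 hc y
      exact (congrArg Subtype.val this).symm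
    have hcz : ∀ x : P, z * x = x * z := fun x => (mem_center_iff.1 hz x).symm
    -- the group generated by `z`, `c`, `y`
    let A₁ : Subgroup P := prodSub (zpowers (c : P)) (zpowers (y : P)) (by
      rintro _ ⟨j, rfl⟩ _ ⟨i, rfl⟩
      simp only
      have h3 : Commute ((c : P) ^ i) ((y : P) ^ j) := hcy.zpow_zpow i j
      have h4 : (y : P) ^ j * (c : P) ^ i * ((y : P) ^ j)⁻¹ = (c : P) ^ i := by
        rw [← h3.eq]; group
      rw [h4]; exact zpow_mem (mem_zpowers _) i)
    have hA₁ : ∀ x, x ∈ A₁ ↔ ∃ x₁ ∈ zpowers (c : P), ∃ x₂ ∈ zpowers (y : P), x = x₁ * x₂ :=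
      fun x => Iff.rfl
    have hA₁c : Nat.card A₁ = p * p := by
      change Nat.card (prodSub _ _ _) = _
      rw [card_prodSub _ (zpowers_inf_eq_bot hoc' hoy hyc'), Nat.card_zpowers, Nat.card_zpowers,
        hoc', hoy]
    have hA₁U : A₁ ≤ U := by
      intro x hx
      obtain ⟨x₁, hx₁, x₂, hx₂, rfl⟩ := (hA₁ x).1 hx
      exact U.mul_mem ((zpowers_le.2 c.2) hx₁) ((zpowers_le.2 y.2) hx₂)
    have hA₁comm : ∀ x ∈ A₁, ∀ w ∈ A₁, x * w = w * x := by
      intro x hx w hw
      obtain ⟨_, ⟨i, rfl⟩, _, ⟨j, rfl⟩, rfl⟩ := (hA₁ x).1 hx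
      obtain ⟨_, ⟨k, rfl⟩, _, ⟨l, rfl⟩, rfl⟩ := (hA₁ w).1 hw
      simp only
      have e1 : Commute ((c : P) ^ i) ((c : P) ^ k) := Commute.zpow_zpow_self _ _ _
      have e2 : Commute ((c : P) ^ i) ((y : P) ^ l) := hcy.zpow_zpow _ _
      have e3 : Commute ((y : P) ^ j) ((c : P) ^ k) := (hcy.zpow_zpow _ _).symm
      have e4 : Commute ((y : P) ^ j) ((y : P) ^ l) := Commute.zpow_zpow_self _ _ _
      exact (e1.mul_right e2).mul_left (e3.mul_right e4)
    have hA₁p : ∀ x ∈ A₁, x ^ p = 1 := by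
      intro x hx
      obtain ⟨_, ⟨i, rfl⟩, _, ⟨j, rfl⟩, rfl⟩ := (hA₁ x).1 hx
      simp only
      have h3 : Commute ((c : P) ^ i) ((y : P) ^ j) := hcy.zpow_zpow i j
      rw [h3.mul_pow, ← zpow_natCast, ← zpow_natCast, ← zpow_mul, ← zpow_mul, mul_comm i,
        mul_comm j, zpow_mul, zpow_mul, zpow_natCast, zpow_natCast, pow_prime_of_order hoc',
        pow_prime_of_order hoy, one_zpow, one_zpow, one_mul]
    let A : Subgroup P := prodSub (zpowers z) A₁ (by
      rintro b _ _ ⟨i, rfl⟩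
      simp only
      have h3 : Commute (z ^ i) b := (show Commute z b from hcz b).zpow_left i
      have h4 : b * z ^ i * b⁻¹ = z ^ i := by rw [← h3.eq]; group
      rw [h4]; exact zpow_mem (mem_zpowers _) i)
    have hA : ∀ x, x ∈ A ↔ ∃ x₁ ∈ zpowers z, ∃ x₂ ∈ A₁, x = x₁ * x₂ := fun x => Iff.rfl
    have hzz : ∀ x ∈ zpowers z, ∀ w : P, x * w = w * x := by
      rintro _ ⟨i, rfl⟩ w
      exact (show Commute z w from hcz w).zpow_left i
    apply hr A
    · intro x hx
      obtain ⟨x₁, hx₁, x₂, hx₂, rfl⟩ := (hA x).1 hx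
      rw [Commute.mul_pow (show Commute _ _ from hzz x₁ hx₁ x₂), hA₁p x₂ hx₂, mul_one]
      obtain ⟨k, rfl⟩ := hx₁
      simp only
      rw [← zpow_natCast, ← zpow_mul, mul_comm, zpow_mul, zpow_natCast, hzp, one_zpow]
    · intro x hx w hw
      obtain ⟨x₁, hx₁, x₂, hx₂, rfl⟩ := (hA x).1 hx
      obtain ⟨w₁, hw₁, w₂, hw₂, rfl⟩ := (hA w).1 hw
      have e1 : Commute x₁ w₁ := hzz x₁ hx₁ w₁
      have e2 : Commute x₁ w₂ := hzz x₁ hx₁ w₂
      have e3 : Commute x₂ w₁ := (hzz w₁ hw₁ x₂).symm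
      have e4 : Commute x₂ w₂ := hA₁comm x₂ hx₂ w₂ hw₂
      exact (e1.mul_right e2).mul_left (e3.mul_right e4)
    · change Nat.card (prodSub _ _ _) = _
      rw [card_prodSub _ (by
        rw [eq_bot_iff]
        rintro x ⟨hx1, hx2⟩
        rw [mem_bot]
        exact hzU' x hx1 (hA₁U hx2)), Nat.card_zpowers, hoz, hA₁c]
      ring
  obtain ⟨w, hw⟩ := cyclic_of_unique (Nat.card U) U rfl hUp h2' (by
    intro x y hx hy hx1
    have h5 : orderOf x = p := orderOf_eq_prime hx hx1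
    rw [zpowers_eq_of_prime h5 hoc (hall x hx)]
    exact hall y hy)
  refine ⟨w, le_antisymm ?_ (zpowers_le.2 w.2)⟩
  intro x hx
  have h6 : (⟨x, hx⟩ : U) ∈ zpowers w := by rw [hw]; trivial
  obtain ⟨k, hk⟩ := h6
  exact ⟨k, by simpa using congrArg Subtype.val hk⟩

theorem components_cyclic_of_rank {a : ℕ} {P : Type u} [Group P] [Finite P]
    (h2 : p ≠ 2 ∨ ∀ x y : P, x * y = y * x)
    (hr : ∀ A : Subgroup P, (∀ x ∈ A, x ^ p = 1) → (∀ x ∈ A, ∀ y ∈ A, x * y = y * x) →
      Nat.card A ≠ p ^ 3)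
    (hP : Nat.card P = (p ^ a) ^ 2) {U : Fin 3 → Subgroup P} (hU : IsPCP (p ^ a) U) (k : Fin 3) :
    ∃ c, U k = zpowers c := by
  have hPp : IsPGroup p P := IsPGroup.of_card (n := a * 2) (by rw [hP, pow_mul])
  rcases subsingleton_or_nontrivial P with hsub | hnt
  · refine ⟨1, ?_⟩
    rw [zpowers_one_eq_bot, eq_bot_iff]
    intro x _
    rw [mem_bot]
    exact Subsingleton.elim _ _
  obtain ⟨z, hz, hoz⟩ := exists_central_order_p hPp
  have hz1 : z ≠ 1 := by
    rintro rfl
    rw [orderOf_one] at hoz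
    exact hp.out.one_lt.ne hoz
  have h1 : ∀ l m, l ≠ m → z ∈ U l → z ∉ U m := fun l m hlm hl hm =>
    hz1 (mem_inf_bot (hU.2 l m hlm) hl hm)
  obtain ⟨i, j, hij, hi, hj⟩ : ∃ i j, i ≠ j ∧ z ∉ U i ∧ z ∉ U j := by
    by_cases h0 : ∃ l, z ∈ U l
    · obtain ⟨l, hl⟩ := h0
      obtain ⟨i, j, hij, hil, hjl⟩ := fin3_two l
      exact ⟨i, j, hij, h1 l i hil.symm hl, h1 l j hjl.symm hl⟩
    · push Not at h0
      exact ⟨0, 1, by decide, h0 0, h0 1⟩
  exact all_cyclic a P h2 hP U hU i j hij (cyclic_of_rank hPp h2 hr hz hoz hi)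
    (cyclic_of_rank hPp h2 hr hz hoz hj) k

end Pool.Agent.Lib_MP_53dcbc_mc
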