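import Pool.Agent.Lib_MP_53dcbc_mc.ZG

/-!
# The socle of the Sylow subgroup of the largest prime
-/

namespace Pool.Agent.Lib_MP_53dcbc_mc

open Subgroup Pool.Agent.Lib_MP_53dcbc_co
open scoped Pointwise

universe u

/-- Elements of all Sylow `2`-subgroups commute. -/
def Ab2 (G : Type u) [Group G] : Prop :=
  ∀ Q : Sylow 2 G, ∀ x ∈ Q, ∀ y ∈ Q, x * y = y * x

theorem Ab2.odd_or_comm {G : Type u} [Group G] (h : Ab2 G) {p : ℕ} (Q : Sylow p G) :
    p ≠ 2 ∨ ∀ x y : Q, x * y = y * x := by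
  by_cases hp2 : p = 2
  · subst hp2
    exact Or.inr fun x y => Subtype.ext (h Q x x.2 y y.2)
  · exact Or.inl hp2

theorem Ab2.quotient {G : Type u} [Group G] [Finite G] (h : Ab2 G) (N : Subgroup G) [N.Normal] :
    Ab2 (G ⧸ N) := by
  intro R x hx y hy
  obtain ⟨Q⟩ : Nonempty (Sylow 2 G) := inferInstance
  obtain ⟨g, hg⟩ := MulAction.exists_smul_eq (G ⧸ N)
    (Q.mapSurjective (QuotientGroup.mk'_surjective N)) R
  have key : ∀ z ∈ R, ∃ w ∈ Q, z = g * QuotientGroup.mk' N w * g⁻¹ := by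
    intro z hz
    have hz' : z ∈ (R : Subgroup (G ⧸ N)) := hz
    rw [← hg, Sylow.coe_subgroup_smul, Sylow.coe_mapSurjective,
      Subgroup.mem_smul_pointwise_iff_exists] at hz'
    obtain ⟨_, ⟨w, hw, rfl⟩, hwz⟩ := hz'
    refine ⟨w, hw, ?_⟩
    rw [← hwz, MulAut.smul_def, MulAut.conj_apply]
  obtain ⟨u, hu, rfl⟩ := key x hx
  obtain ⟨v, hv, rfl⟩ := key y hy
  have h1 : QuotientGroup.mk' N u * QuotientGroup.mk' N v =
      QuotientGroup.mk' N v * QuotientGroup.mk' N u := by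
    rw [← map_mul, h Q u hu v hv, map_mul]
  calc g * QuotientGroup.mk' N u * g⁻¹ * (g * QuotientGroup.mk' N v * g⁻¹)
      = g * (QuotientGroup.mk' N u * QuotientGroup.mk' N v) * g⁻¹ := by group
    _ = g * (QuotientGroup.mk' N v * QuotientGroup.mk' N u) * g⁻¹ := by rw [h1]
    _ = _ := by group

variable {p : ℕ} [hp : Fact p.Prime]

omit hp in
/-- two cyclic subgroups of the right orders span -/
theorem span_cyc {G : Type u} [Group G] [Finite G] {n : ℕ} {Q : Subgroup G}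
    (hQ : Nat.card Q = n * n) {a b : G} (ha : a ∈ Q) (hb : b ∈ Q) (hoa : orderOf a = n)
    (hob : orderOf b = n) (hbot : zpowers a ⊓ zpowers b = ⊥) {y : G} (hy : y ∈ Q) :
    ∃ i j : ℤ, y = a ^ i * b ^ j := by
  have h : IsComplement' (zpowers (⟨a, ha⟩ : Q)) (zpowers (⟨b, hb⟩ : Q)) := by
    apply isComplement'_of_card_mul_and_disjoint
    · rw [Nat.card_zpowers, Nat.card_zpowers, hQ, ← Subgroup.orderOf_coe, ← Subgroup.orderOf_coe]
      change orderOf a * orderOf b = _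
      rw [hoa, hob]
    · rw [disjoint_iff, eq_bot_iff]
      rintro ⟨x, hx⟩ ⟨⟨i, h1⟩, ⟨j, h2⟩⟩
      have h1' : a ^ i = x := congrArg Subtype.val h1
      have h2' : b ^ j = x := congrArg Subtype.val h2
      have h3 : x ∈ zpowers a ⊓ zpowers b :=
        ⟨h1' ▸ zpow_mem (mem_zpowers a) i, h2' ▸ zpow_mem (mem_zpowers b) j⟩
      rw [hbot, mem_bot] at h3
      rw [mem_bot]
      exact Subtype.ext h3
  obtain ⟨⟨⟨_, i, rfl⟩, ⟨_, j, rfl⟩⟩, hab⟩ := h.2 ⟨y, hy⟩
  refine ⟨i, j, ?_⟩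
  have := congrArg Subtype.val hab
  simpa using this.symm

theorem zpowers_inf_of_pcp {G : Type u} [Group G] {s : ℕ} {V : Fin 3 → Subgroup G}
    (hV : IsPCP s V) {c : Fin 3 → G} (hc : ∀ i, c i ∈ V i) {i j : Fin 3} (hij : i ≠ j) :
    zpowers (c i) ⊓ zpowers (c j) = ⊥ := by
  rw [eq_bot_iff, ← hV.2 i j hij]
  exact inf_le_inf (zpowers_le.2 (hc i)) (zpowers_le.2 (hc j))

omit hp in
/-- a `p`-element centralising a Sylow `p`-subgroup lies in it -/
theorem mem_sylow_of_centralizes {G : Type u} [Group G] [Finite G] (Q : Sylow p G) {y : G}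
    {n : ℕ} (hy : y ^ p ^ n = 1) (hc : ∀ z ∈ Q, y * z = z * y) : y ∈ Q := by
  have hpz : IsPGroup p (zpowers y) := by
    apply IsPGroup.of_card_dvd_pow (n := n)
    rw [Nat.card_zpowers]
    exact orderOf_dvd_of_pow_eq_one hy
  have hsup : IsPGroup p ((Q : Subgroup G) ⊔ zpowers y : Subgroup G) := by
    apply IsPGroup.to_sup_of_normal_left' Q.isPGroup' hpz
    rw [zpowers_le, mem_normalizer_iff]
    intro z
    constructor
    · intro hz
      have : y * z * y⁻¹ = z := by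
        rw [hc z hz]; group
      rw [this]; exact hz
    · intro hz
      have h5 := hc _ hz
      have : z = y * z * y⁻¹ := by
        have h7 : y * z * y⁻¹ * y = y * z := by group
        rw [h7] at h5
        exact (mul_left_cancel h5).symm
      rw [this]; exact hz
  have h8 := Q.is_maximal' hsup le_sup_left
  have h9 : y ∈ (Q : Subgroup G) := by
    rw [← h8]
    exact (le_sup_right : zpowers y ≤ _) (mem_zpowers _)
  exact h9

theorem fin3_other : ∀ i : Fin 3, ∃ j k : Fin 3, i ≠ j ∧ i ≠ k ∧ j ≠ k := by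
  decide

/-- the elements of order dividing `p` in the Sylow `p`-subgroups form a normal subgroup of order
`p ^ 2`, for the largest prime `p` -/
theorem exists_socle {G : Type u} [Group G] [Finite G] {s a m : ℕ}
    (hs : s = p ^ (a + 1) * m) (hpm : ¬ p ∣ m) (hG : Nat.card G = s ^ 2)
    {U : Fin 3 → Subgroup G} (hU : IsPCP s U) (hZ : ∀ i, IsZGroup (U i)) (hab : Ab2 G)
    (hle : ∀ r, r.Prime → r ∣ s → r ≤ p) :
    ∃ E : Subgroup G, E.Normal ∧ Nat.card E = p ^ 2 ∧ (∀ x ∈ E, x ^ p = 1) ∧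
      (∀ i, Nat.card (U i ⊓ E : Subgroup G) = p) ∧
      ∀ Q : Sylow p G, E ≤ Q ∧ (∀ x ∈ E, ∀ y ∈ Q, x * y = y * x) ∧
        ∀ x ∈ Q, x ^ p = 1 → x ∈ E := by
  obtain ⟨Q⟩ : Nonempty (Sylow p G) := inferInstance
  obtain ⟨g, c, hgc⟩ := exists_common_gen hs hpm hG hU hZ Q
  have hV := hU.conj hG g
  set V : Fin 3 → Subgroup G := fun i => cj (g i) (U i) with hVdef
  have hcV : ∀ i, c i ∈ V i := fun i => (hgc i).1
  have hcQ : ∀ i, c i ∈ (Q : Subgroup G) := fun i => (hgc i).2.1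
  have hco : ∀ i, orderOf (c i) = p ^ (a + 1) := fun i => (hgc i).2.2
  have hcQcard : Nat.card (Q : Subgroup G) = p ^ (2 * (a + 1)) := card_sylow' hs hpm hG Q
  have hQQ : Nat.card (Q : Subgroup G) = p ^ (a + 1) * p ^ (a + 1) := by
    rw [hcQcard, ← pow_add]; congr 1; ring
  have hbot : ∀ i j, i ≠ j → zpowers (c i) ⊓ zpowers (c j) = ⊥ := fun i j hij =>
    zpowers_inf_of_pcp hV hcV hij
  -- the shape of `Q`
  have hgood : Good p (a + 1) (Q : Subgroup G) := by
    refine good_of_two (a + 1) (Q : Subgroup G) (hab.odd_or_comm Q) hcQcard ⟨c 0, hcQ 0⟩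
      ⟨c 1, hcQ 1⟩ ?_ ?_ ?_
    · rw [← Subgroup.orderOf_coe]; exact hco 0
    · rw [← Subgroup.orderOf_coe]; exact hco 1
    · rw [eq_bot_iff]
      rintro ⟨x, hx⟩ ⟨⟨i, h1⟩, ⟨j, h2⟩⟩
      have h1' : c 0 ^ i = x := congrArg Subtype.val h1
      have h2' : c 1 ^ j = x := congrArg Subtype.val h2
      rw [mem_bot]
      exact Subtype.ext (mem_inf_bot (hbot 0 1 (by decide))
        (h1' ▸ zpow_mem (mem_zpowers _) i) (h2' ▸ zpow_mem (mem_zpowers _) j))
  obtain ⟨E₀, -, hE₀c, hE₀card, hE₀, -⟩ := hgood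
  set E : Subgroup G := E₀.map (Q : Subgroup G).subtype with hEdef
  have hEQ : E ≤ Q := map_subtype_le E₀
  have hEmem : ∀ x, x ∈ E ↔ x ∈ Q ∧ x ^ p = 1 := by
    intro x
    constructor
    · rintro ⟨y, hy, rfl⟩
      refine ⟨y.2, ?_⟩
      have h1 : y ^ p = 1 := (hE₀ y).2 hy
      exact congrArg Subtype.val h1
    · rintro ⟨h1, h2⟩
      exact ⟨⟨x, h1⟩, (hE₀ _).1 (Subtype.ext h2), rfl⟩
  have hEcomm : ∀ x ∈ E, ∀ y ∈ Q, x * y = y * x := by
    rintro _ ⟨x, hx, rfl⟩ y hy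
    have h1 := mem_center_iff.1 (hE₀c hx) ⟨y, hy⟩
    exact (congrArg Subtype.val h1).symm
  have hEcard : Nat.card E = p ^ 2 := by
    rw [hEdef, card_map_of_injective (subtype_injective _), hE₀card]
  set z : Fin 3 → G := fun i => c i ^ p ^ a with hzdef
  have hzo : ∀ i, orderOf (z i) = p := fun i => orderOf_top_pow (hco i)
  have hzp : ∀ i, z i ^ p = 1 := fun i => pow_prime_of_order (hzo i)
  have hzE : ∀ i, z i ∈ E := fun i => (hEmem _).2
    ⟨(Q : Subgroup G).pow_mem (hcQ i) _, hzp i⟩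
  have hcconj : ∀ i, ∀ v ∈ V i, v * c i * v⁻¹ ∈ zpowers (c i) := by
    intro i v hv
    have hZV : IsZGroup (V i) := by
      have hZi := hZ i
      exact IsZGroup.of_surjective (G := U i)
        (f := (MulAut.conj (g i)).toMonoidHom.subgroupMap (U i))
        (MonoidHom.subgroupMap_surjective _ _)
    apply conj_mem_of_zgroup hZV (by rw [hV.1, hs]) hpm (by rw [hV.1]; exact hle) (hcV i) (hco i) hv
  -- conjugates of `z i` commute with `c j`
  have hC : ∀ i j, i ≠ j → ∀ h : G, Commute (h * z i * h⁻¹) (c j) := by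
    intro i j hij h
    obtain ⟨w, hw, v, hv, rfl⟩ := hV.exists_mul hG hij.symm h
    obtain ⟨α, hα⟩ := hcconj i v hv
    obtain ⟨β, hβ⟩ := hcconj j w⁻¹ (inv_mem hw)
    simp only at hα hβ
    have e0 : v * z i * v⁻¹ = z i ^ α := by
      rw [hzdef]
      simp only
      rw [← conj_pow, ← hα, ← zpow_natCast, ← zpow_natCast, ← zpow_mul, ← zpow_mul, mul_comm]
    have e1 : w * v * z i * (w * v)⁻¹ = w * (z i ^ α) * w⁻¹ := by rw [← e0]; group
    have e2 : c j = w * (c j ^ β) * w⁻¹ := by rw [hβ]; group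
    have h3 : Commute (z i ^ α) (c j ^ β) :=
      hEcomm _ (E.zpow_mem (hzE i) α) _ ((Q : Subgroup G).zpow_mem (hcQ j) β)
    rw [e1]
    have h4 : Commute (w * z i ^ α * w⁻¹) (w * c j ^ β * w⁻¹) := by
      unfold Commute SemiconjBy at *
      calc w * z i ^ α * w⁻¹ * (w * c j ^ β * w⁻¹) = w * (z i ^ α * c j ^ β) * w⁻¹ := by group
        _ = w * (c j ^ β * z i ^ α) * w⁻¹ := by rw [h3]
        _ = _ := by group
    rw [← e2] at h4
    exact h4
  have hC2 : ∀ i, ∀ h : G, h * z i * h⁻¹ ∈ E := by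
    intro i h
    have hp1 : (h * z i * h⁻¹) ^ p = 1 := by rw [conj_pow, hzp i]; simp
    refine (hEmem _).2 ⟨?_, hp1⟩
    apply mem_sylow_of_centralizes Q (n := 1) (by rw [pow_one]; exact hp1)
    intro y hy
    obtain ⟨j, k, hij, hik, hjk⟩ := fin3_other i
    obtain ⟨α, β, rfl⟩ := span_cyc hQQ (hcQ j) (hcQ k) (hco j) (hco k) (hbot j k hjk) hy
    exact ((hC i j hij h).zpow_right α).mul_right ((hC i k hik h).zpow_right β)
  have hzne : z 1 ∉ zpowers (z 0) := by
    intro h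
    have h1 : z 1 ∈ V 0 := (zpowers_le.2 ((V 0).pow_mem (hcV 0) _)) h
    have h2 : z 1 ∈ V 1 := (V 1).pow_mem (hcV 1) _
    have h3 := mem_inf_bot (hV.2 0 1 (by decide)) h1 h2
    have h4 := hzo 1
    rw [h3, orderOf_one] at h4
    exact hp.out.one_lt.ne h4
  have hEn : E.Normal := by
    refine ⟨fun x hx h => ?_⟩
    obtain ⟨i, j, rfl⟩ := span_of_ne hEcard (hzE 0) (hzE 1) (hzo 0) (hzo 1) hzne hx
    have e : h * (z 0 ^ i * z 1 ^ j) * h⁻¹ = (h * z 0 * h⁻¹) ^ i * (h * z 1 * h⁻¹) ^ j := by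
      rw [conj_zpow, conj_zpow]; group
    rw [e]
    exact E.mul_mem (E.zpow_mem (hC2 0 h) i) (E.zpow_mem (hC2 1 h) j)
  have hVQ : ∀ i, ∀ x ∈ V i, x ∈ Q → x ∈ zpowers (c i) := by
    intro i x hxV hxQ
    have h1 : IsPGroup p (V i ⊓ (Q : Subgroup G) : Subgroup G) :=
      Q.isPGroup'.to_le inf_le_right
    obtain ⟨k, hk⟩ := h1.exists_card_eq
    have h2 : p ^ k ∣ p ^ (a + 1) * m := by
      rw [← hs, ← hV.1 i, ← hk]
      exact card_dvd_of_le inf_le_left
    have h3 : k ≤ a + 1 := by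
      by_contra hk2
      have h4 : p ^ (a + 1) * p ∣ p ^ (a + 1) * m := by
        rw [← pow_succ]
        exact (pow_dvd_pow p (by omega)).trans h2
      exact hpm (Nat.dvd_of_mul_dvd_mul_left (pow_pos hp.out.pos (a + 1)) h4)
    have h5 : zpowers (c i) = V i ⊓ (Q : Subgroup G) := by
      apply eq_of_le_of_card_ge (zpowers_le.2 (Subgroup.mem_inf.2 ⟨hcV i, hcQ i⟩))
      rw [hk, Nat.card_zpowers, hco i]
      exact Nat.pow_le_pow_right hp.out.pos h3
    rw [h5]
    exact Subgroup.mem_inf.2 ⟨hxV, hxQ⟩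
  have hVE : ∀ i, V i ⊓ E = zpowers (z i) := by
    intro i
    apply le_antisymm
    · intro x hx
      exact mem_socle (hco i) (hVQ i x hx.1 (hEQ hx.2)) ((hEmem x).1 hx.2).2
    · rw [zpowers_le]
      exact Subgroup.mem_inf.2 ⟨(V i).pow_mem (hcV i) _, hzE i⟩
  refine ⟨E, hEn, hEcard, fun x hx => ((hEmem x).1 hx).2, ?_, ?_⟩
  · intro i
    have h1 : cj (g i) (U i ⊓ E) = V i ⊓ E := by
      ext x
      rw [mem_cj]
      constructor
      · intro hx
        refine ⟨mem_cj.2 hx.1, ?_⟩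
        have := hEn.conj_mem _ hx.2 (g i)
        have e : g i * ((g i)⁻¹ * x * g i) * (g i)⁻¹ = x := by group
        rwa [e] at this
      · intro hx
        refine ⟨mem_cj.1 hx.1, ?_⟩
        have := hEn.conj_mem _ hx.2 (g i)⁻¹
        rwa [inv_inv] at this
    rw [← card_cj (g i), h1, hVE, Nat.card_zpowers, hzo]
  · intro Q'
    obtain ⟨h, hh⟩ := MulAction.exists_smul_eq G Q Q'
    have hEQ' : E ≤ Q' := by
      have h1 : IsPGroup p E := IsPGroup.of_card hEcard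
      exact h1.le_sylow_of_normal Q'
    have hback : ∀ y ∈ Q', h⁻¹ * y * h ∈ Q := by
      intro y hy
      have hy' : y ∈ (Q' : Subgroup G) := hy
      rw [← hh, Sylow.coe_subgroup_smul, Subgroup.mem_smul_pointwise_iff_exists] at hy'
      obtain ⟨w, hw, hwy⟩ := hy'
      rw [MulAut.smul_def, MulAut.conj_apply] at hwy
      have e : h⁻¹ * y * h = w := by rw [← hwy]; group
      rw [e]; exact hw
    refine ⟨hEQ', ?_, ?_⟩
    · intro x hx y hy
      have h1 : h⁻¹ * x * h ∈ E := by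
        have := hEn.conj_mem x hx h⁻¹
        rwa [inv_inv] at this
      have h2 := hEcomm _ h1 _ (hback y hy)
      have h3 : x * y = h * ((h⁻¹ * x * h) * (h⁻¹ * y * h)) * h⁻¹ := by group
      rw [h3, h2]; group
    · intro x hx hxp
      have h1 : h⁻¹ * x * h ∈ E := by
        refine (hEmem _).2 ⟨hback x hx, ?_⟩
        have := conj_pow (i := p) (a := h⁻¹) (b := x)
        rw [inv_inv] at this
        rw [this, hxp]; simp
      have h2 := hEn.conj_mem _ h1 h
      have e : h * (h⁻¹ * x * h) * h⁻¹ = x := by group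
      rwa [e] at h2

end Pool.Agent.Lib_MP_53dcbc_mc
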