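import Pool.Agent.Lib_MP_53dcbc_mc.Dich
import Pool.Agent.Lib_MP_53dcbc_co.Induct

/-!
# Structure of a group with three such subgroups
-/

namespace Pool.Agent.Lib_MP_53dcbc_mc

open Subgroup Pool.Agent.Lib_MP_53dcbc_co
open scoped Pointwise

universe u

theorem exists_normal_line' {G : Type u} [Group G] [Finite G] {s : ℕ}
    (hG : Nat.card G = s ^ 2) {U : Fin 3 → Subgroup G} (hU : IsPCP s U)
    (hZ : ∀ i, IsZGroup (U i)) (hab : Ab2 G) {p : ℕ}
    [hp : Fact p.Prime] {P : Subgroup G} [hPn : P.Normal]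
    (hcP : Nat.card P = p ^ 2) (hPp : ∀ x ∈ P, x ^ p = 1)
    (hPU : ∀ i, Nat.card (U i ⊓ P : Subgroup G) = p) (hch : Chain P) :
    ∃ L : Subgroup G, L.Normal ∧ L ≤ P ∧ Nat.card L = p := by
  rcases dichotomy' hG hU hZ hab hcP hPp hPU hch with h | ⟨k, hk, -, -⟩
  · refine ⟨U 0 ⊓ P, ⟨fun x hx g => ?_⟩, inf_le_right, hPU 0⟩
    have h1 : g ∈ powSub P := by rw [h]; trivial
    have h2 : g * x * g⁻¹ ∈ zpowers x := h1 x hx.2
    exact (zpowers_le.2 hx) h2
  · obtain ⟨i, hi⟩ : ∃ i : Fin 3, i ≠ k := by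
      by_cases h : k = 0
      · exact ⟨1, by rw [h]; decide⟩
      · exact ⟨0, fun h' => h h'.symm⟩
    exact ⟨U i ⊓ P, hk i hi, inf_le_right, hPU i⟩

theorem structure' (s : ℕ) : ∀ (G : Type u) [Group G] [Finite G],
    Nat.card G = s ^ 2 → ∀ U : Fin 3 → Subgroup G, IsPCP s U → (∀ i, IsZGroup (U i)) → Ab2 G →
    Chain (⊥ : Subgroup G) ∧ ∀ n : ℕ, ∃ N : Subgroup G, N.Normal ∧ ∃ t u, s = t * u ∧
      Nat.card N = t ^ 2 ∧ (∀ r, r.Prime → r ∣ t → n < r) ∧ (∀ r, r.Prime → r ∣ u → r ≤ n) := by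
  induction s using Nat.strong_induction_on with
  | _ s ih =>
  intro G _ _ hG U hU hZ hab
  have hs0 := ne_zero_of_card hG
  by_cases h1 : s = 1
  · subst h1
    have hsub : Subsingleton G := (Nat.card_eq_one_iff_unique.1 (by rw [hG]; norm_num)).1
    refine ⟨⟨0, fun _ => ⊥, rfl, Subsingleton.elim _ _, fun _ => inferInstance, by omega⟩, ?_⟩
    intro n
    refine ⟨⊥, inferInstance, 1, 1, rfl, by simp, ?_, ?_⟩
    · intro r hr hd
      exact absurd (Nat.dvd_one.1 hd) hr.ne_one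
    · intro r hr hd
      exact absurd (Nat.dvd_one.1 hd) hr.ne_one
  obtain ⟨p, hp, hps, hle⟩ := exists_max_prime hs0 h1
  have : Fact p.Prime := ⟨hp⟩
  obtain ⟨a, m, hm, hs⟩ := exists_pow_succ hp hs0 hps
  obtain ⟨E, hEn, hEcard, hEp, hEU, -⟩ := exists_socle hs hm hG hU hZ hab hle
  have hsu : s = p * (p ^ a * m) := by rw [hs, pow_succ]; ring
  have hu0 : 0 < p ^ a * m := Nat.pos_of_ne_zero (by
    intro h
    rw [h, mul_zero] at hsu
    exact hs0 hsu)
  have hlt : p ^ a * m < s := by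
    rw [hsu]
    exact lt_mul_of_one_lt_left hu0 hp.one_lt
  obtain ⟨hch, hH⟩ := ih _ hlt (G ⧸ E) (card_quot' hp.pos hsu hG hEcard) _
    (quotient_pcp hp.pos hsu hG hU hEcard hEU) (fun i => zgroup_map (hZ i) E) (hab.quotient E)
  have hchE : Chain E := hch.comap
  obtain ⟨L, hLn, hLE, hcL⟩ := exists_normal_line' hG hU hZ hab hEcard hEp hEU hchE
  refine ⟨?_, ?_⟩
  · refine Chain.cons inferInstance bot_le ?_ (Chain.cons hLn hLE ?_ hchE)
    · rw [relIndex_bot_left, hcL]; exact hp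
    · have h2 := relIndex_mul_relIndex ⊥ L E bot_le hLE
      rw [relIndex_bot_left, relIndex_bot_left, hcL, hEcard, sq] at h2
      rw [Nat.eq_of_mul_eq_mul_left hp.pos h2]; exact hp
  · intro n
    by_cases hn : p ≤ n
    · refine ⟨⊥, inferInstance, 1, s, by simp, by simp, ?_, ?_⟩
      · intro r hr hd
        exact absurd (Nat.dvd_one.1 hd) hr.ne_one
      · intro r hr hd
        exact (hle r hr hd).trans hn
    · obtain ⟨N, hNn, t', u', ht', hcN, h2, h3⟩ := hH n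
      refine ⟨N.comap (QuotientGroup.mk' _), hNn.comap _, p * t', u', ?_, ?_, ?_, h3⟩
      · rw [hsu, ht', mul_assoc]
      · rw [card_comap_mk, hEcard, hcN, mul_pow]
      · intro r hr hd
        rcases (Nat.Prime.dvd_mul hr).1 hd with h | h
        · have : r = p := (Nat.prime_dvd_prime_iff_eq hr hp).1 h
          omega
        · exact h2 r hr h

theorem coprime_of_split {t u n : ℕ} (hNt : ∀ r, r.Prime → r ∣ t → n < r)
    (hNu : ∀ r, r.Prime → r ∣ u → r ≤ n) : Nat.Coprime t u := by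
  apply Nat.Coprime.symm
  apply Nat.Coprime.symm
  rw [Nat.coprime_iff_gcd_eq_one]
  by_contra h
  obtain ⟨r, hr, hd⟩ := Nat.exists_prime_and_dvd h
  have h1 := hNt r hr (hd.trans (Nat.gcd_dvd_left _ _))
  have h2 := hNu r hr (hd.trans (Nat.gcd_dvd_right _ _))
  omega

theorem quotient_hall {G : Type u} [Group G] [Finite G] {s t u : ℕ} (hst : s = t * u)
    (hcop : Nat.Coprime t u) (hG : Nat.card G = s ^ 2) {U : Fin 3 → Subgroup G} (hU : IsPCP s U)
    {N : Subgroup G} [N.Normal] (hN : Nat.card N = t ^ 2) :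
    IsPCP u (fun i => (U i).map (QuotientGroup.mk' N)) := by
  have hs0 := ne_zero_of_card hG
  have ht : 0 < t := Nat.pos_of_ne_zero (by
    rintro rfl
    rw [zero_mul] at hst
    exact hs0 hst)
  have hu : 0 < u := Nat.pos_of_ne_zero (by
    rintro rfl
    rw [mul_zero] at hst
    exact hs0 hst)
  exact quotient_pcp ht hst hG hU hN fun i => card_inf_hall ht hu hcop hst hG (hU.1 i) hN

theorem chain_quot {G : Type u} [Group G] {N : Subgroup G} [N.Normal] {A : Subgroup (G ⧸ N)}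
    [A.Normal] (h : Chain (⊥ : Subgroup ((G ⧸ N) ⧸ A))) : Chain A := h.comap

end Pool.Agent.Lib_MP_53dcbc_mc
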