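import Pool.Agent.Lib_MP_53dcbc_mc.TwoCyc
import Pool.Agent.Lib_MP_53dcbc_mc.Quot

/-!
# Two cyclic components force all components to be cyclic
-/

namespace Pool.Agent.Lib_MP_53dcbc_mc

open Subgroup Pool.Agent.Lib_MP_53dcbc_co

universe u

variable {p : ℕ} [hp : Fact p.Prime]

omit hp in
theorem odd_or_comm_quot {P : Type u} [Group P] (h2 : p ≠ 2 ∨ ∀ x y : P, x * y = y * x)
    (E : Subgroup P) [E.Normal] : p ≠ 2 ∨ ∀ x y : P ⧸ E, x * y = y * x := by
  rcases h2 with h2 | h2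
  · exact Or.inl h2
  · right
    intro x y
    obtain ⟨x, rfl⟩ := QuotientGroup.mk'_surjective E x
    obtain ⟨y, rfl⟩ := QuotientGroup.mk'_surjective E y
    rw [← map_mul, h2, map_mul]

/-- a subgroup of order `p` is generated by any nontrivial element -/
theorem eq_zpowers_of_card {P : Type u} [Group P] {L : Subgroup P} (hL : Nat.card L = p) {x : P}
    (hx : x ∈ L) (hx1 : x ≠ 1) : L = zpowers x := by
  have : Finite L := Nat.finite_of_card_ne_zero (by rw [hL]; exact hp.out.ne_zero)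
  symm
  apply eq_of_le_of_card_ge (zpowers_le.2 hx)
  have h1 : Nat.card (zpowers x) ∣ p := by
    rw [← hL]; exact card_dvd_of_le (zpowers_le.2 hx)
  rcases (Nat.dvd_prime hp.out).1 h1 with h | h
  · rw [Nat.card_zpowers, orderOf_eq_one_iff] at h
    exact absurd h hx1
  · rw [h, hL]

theorem exists_order_p {P : Type u} [Group P] [Finite P] {a : ℕ} {W : Subgroup P}
    (hW : Nat.card W = p ^ (a + 1)) : ∃ w ∈ W, orderOf w = p := by
  obtain ⟨x, hx⟩ := exists_prime_orderOf_dvd_card' (G := W) p (by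
    rw [hW]; exact dvd_pow_self p (Nat.succ_ne_zero a))
  exact ⟨x, x.2, by rw [Subgroup.orderOf_coe]; exact hx⟩

theorem all_cyclic (a : ℕ) : ∀ (P : Type u) [Group P] [Finite P],
    (p ≠ 2 ∨ ∀ x y : P, x * y = y * x) → Nat.card P = (p ^ a) ^ 2 →
    ∀ U : Fin 3 → Subgroup P, IsPCP (p ^ a) U → ∀ i j, i ≠ j → (∃ c, U i = zpowers c) →
    (∃ c, U j = zpowers c) → ∀ k, ∃ c, U k = zpowers c := by
  induction a with
  | zero =>
    intro P _ _ _ _ U hU i j _ _ _ k
    have h1 := hU.1 k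
    rw [pow_zero, card_eq_one] at h1
    exact ⟨1, by rw [h1, zpowers_one_eq_bot]⟩
  | succ a ih =>
    intro P _ _ h2 hP U hU i j hij hi hj k
    obtain ⟨c₁, hc₁⟩ := hi
    obtain ⟨c₂, hc₂⟩ := hj
    have ho₁ : orderOf c₁ = p ^ (a + 1) := by rw [← Nat.card_zpowers, ← hc₁, hU.1]
    have ho₂ : orderOf c₂ = p ^ (a + 1) := by rw [← Nat.card_zpowers, ← hc₂, hU.1]
    have hP' : Nat.card P = p ^ (2 * (a + 1)) := by rw [hP, ← pow_mul]; congr 1; ring
    have hgood := good_of_two (a + 1) P h2 hP' c₁ c₂ ho₁ ho₂ (by rw [← hc₁, ← hc₂]; exact hU.2 i j hij)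
    obtain ⟨E, hEn, hEc, hEcard, hE, -⟩ := hgood
    -- every component meets `E` in a group of order `p`
    have hz : ∀ (l : Fin 3) (c : P), U l = zpowers c → ∃ z ∈ U l, z ∈ E ∧ z ≠ 1 := by
      intro l c hc
      obtain ⟨w, hw, how⟩ := exists_order_p (hU.1 l)
      refine ⟨w, hw, (hE w).1 (pow_prime_of_order how), ?_⟩
      rintro rfl
      rw [orderOf_one] at how
      exact hp.out.one_lt.ne how
    have hinf : ∀ l, Nat.card (U l ⊓ E : Subgroup P) = p := by
      intro l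
      obtain ⟨m, hlm, z, hzm, hzE, hz1⟩ : ∃ m, l ≠ m ∧ ∃ z ∈ U m, z ∈ E ∧ z ≠ 1 := by
        by_cases hl : l = i
        · subst hl
          exact ⟨j, hij, hz j c₂ hc₂⟩
        · exact ⟨i, hl, hz i c₁ hc₁⟩
      obtain ⟨w, hw, how⟩ := exists_order_p (hU.1 l)
      have hwE : w ∈ E := (hE w).1 (pow_prime_of_order how)
      have hd : Nat.card (U l ⊓ E : Subgroup P) ∣ p ^ 2 := by
        rw [← hEcard]; exact card_dvd_of_le inf_le_right
      obtain ⟨e, he, hce⟩ := (Nat.dvd_prime_pow hp.out).1 hd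
      have he0 : e ≠ 0 := by
        rintro rfl
        rw [pow_zero, card_eq_one] at hce
        have := mem_inf_bot hce hw hwE
        rw [this, orderOf_one] at how
        exact hp.out.one_lt.ne how
      have he2 : e ≠ 2 := by
        rintro rfl
        have h3 : (U l ⊓ E : Subgroup P) = E := eq_of_le_of_card_ge inf_le_right (by
          rw [hce, hEcard])
        have h4 : z ∈ U l ⊓ E := by rw [h3]; exact hzE
        exact hz1 (mem_inf_bot (hU.2 l m hlm) h4.1 hzm)
      have he3 : e = 1 := by omega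
      rw [hce, he3, pow_one]
    have hs : p ^ (a + 1) = p * p ^ a := by rw [pow_succ, mul_comm]
    have hq := quotient_pcp hp.out.pos hs hP hU hEcard hinf
    have hqc := card_quot' hp.out.pos hs hP hEcard
    have hcyc : ∀ (l : Fin 3) (c : P), U l = zpowers c →
        ∃ c, (U l).map (QuotientGroup.mk' E) = zpowers c := by
      intro l c hc
      exact ⟨QuotientGroup.mk' E c, by rw [hc, MonoidHom.map_zpowers]⟩
    obtain ⟨w', hw'⟩ := ih (P ⧸ E) (odd_or_comm_quot h2 E) hqc _ hq i j hij (hcyc i c₁ hc₁)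
      (hcyc j c₂ hc₂) k
    have hw'm : w' ∈ (U k).map (QuotientGroup.mk' E) := by rw [hw']; exact mem_zpowers _
    obtain ⟨w, hw, rfl⟩ := hw'm
    obtain ⟨w₀, hw₀, how₀⟩ := exists_order_p (hU.1 k)
    have hw₀E : w₀ ∈ E := (hE w₀).1 (pow_prime_of_order how₀)
    have hw₀1 : w₀ ≠ 1 := by
      rintro rfl
      rw [orderOf_one] at how₀
      exact hp.out.one_lt.ne how₀
    have hinfk : (U k ⊓ E : Subgroup P) = zpowers w₀ :=
      eq_zpowers_of_card (hinf k) ⟨hw₀, hw₀E⟩ hw₀1
    have hdec : ∀ x ∈ U k, ∃ n : ℤ, (w ^ n)⁻¹ * x ∈ zpowers w₀ := by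
      intro x hx
      have h3 : QuotientGroup.mk' E x ∈ zpowers (QuotientGroup.mk' E w) := by
        rw [← hw']; exact mem_map_of_mem _ hx
      obtain ⟨n, hn⟩ := h3
      simp only at hn
      refine ⟨n, ?_⟩
      rw [← hinfk]
      refine ⟨(U k).mul_mem ((U k).inv_mem ((U k).zpow_mem hw n)) hx, ?_⟩
      have h0 : QuotientGroup.mk' E ((w ^ n)⁻¹ * x) = 1 := by
        rw [map_mul, map_inv, map_zpow, hn, inv_mul_cancel]
      rwa [← MonoidHom.mem_ker, QuotientGroup.ker_mk'] at h0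
    by_cases hw1 : w = 1
    · refine ⟨w₀, le_antisymm ?_ (zpowers_le.2 hw₀)⟩
      intro x hx
      obtain ⟨n, hn⟩ := hdec x hx
      rw [hw1, one_zpow, inv_one, one_mul] at hn
      exact hn
    · refine ⟨w, le_antisymm ?_ (zpowers_le.2 hw)⟩
      have how : orderOf w ∣ p ^ (a + 1) := by
        rw [← hU.1 k, ← Nat.card_zpowers]
        exact card_dvd_of_le (zpowers_le.2 hw)
      obtain ⟨e, he, hoe⟩ := (Nat.dvd_prime_pow hp.out).1 how
      obtain ⟨e, rfl⟩ : ∃ f, e = f + 1 := by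
        rcases e with _ | e
        · rw [pow_zero] at hoe
          exact absurd (orderOf_eq_one_iff.1 hoe) hw1
        · exact ⟨e, rfl⟩
      have hy := orderOf_top_pow hoe
      have hyw : w ^ p ^ e ∈ zpowers w₀ := by
        rw [← hinfk]
        exact ⟨pow_mem hw _, (hE _).1 (pow_prime_of_order hy)⟩
      have hzz := zpowers_eq_of_prime hy how₀ hyw
      have hw₀w : zpowers w₀ ≤ zpowers w := by
        rw [← hzz]; exact zpowers_le.2 (pow_mem (mem_zpowers w) _)
      intro x hx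
      obtain ⟨n, hn⟩ := hdec x hx
      have h3 : x = w ^ n * ((w ^ n)⁻¹ * x) := by group
      rw [h3]
      exact mul_mem (zpow_mem (mem_zpowers w) n) (hw₀w hn)

end Pool.Agent.Lib_MP_53dcbc_mc
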