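import Pool.Agent.Lib_MP_53dcbc_mc.Cyc
import Pool.Agent.Lib_MP_53dcbc_co.SuperSylow

/-!
# A product of two cyclic subgroups of equal order has the recursive shape
-/

namespace Pool.Agent.Lib_MP_53dcbc_mc

open Subgroup Pool.Agent.Lib_MP_53dcbc_co

universe u

variable {p : ℕ} [hp : Fact p.Prime]

theorem mem_inf_bot {P : Type u} [Group P] {A B : Subgroup P} (h : A ⊓ B = ⊥) {x : P} (hA : x ∈ A)
    (hB : x ∈ B) : x = 1 := by
  have h1 : x ∈ A ⊓ B := ⟨hA, hB⟩
  rwa [h, mem_bot] at h1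

theorem dvd_of_pow_mem {P : Type u} [Group P] {a : ℕ} {c : P} (hc : orderOf c = p ^ (a + 1))
    {m : ℤ} (h : (c ^ m) ^ p = 1) : ((p ^ a : ℕ) : ℤ) ∣ m := by
  rw [← zpow_natCast, ← zpow_mul] at h
  have h1 : ((p ^ (a + 1) : ℕ) : ℤ) ∣ m * p := by
    rw [← hc]; exact orderOf_dvd_iff_zpow_eq_one.2 h
  have hp0 : (p : ℤ) ≠ 0 := by exact_mod_cast hp.out.ne_zero
  rw [pow_succ] at h1
  push_cast at h1 ⊢
  exact (mul_dvd_mul_iff_right hp0).1 h1

/-- the order of `c` modulo a subgroup of exponent `p` containing its socle -/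
theorem orderOf_quot {P : Type u} [Group P] {a : ℕ} {c : P} (hc : orderOf c = p ^ (a + 1))
    {E : Subgroup P} [E.Normal] (hz : c ^ p ^ a ∈ E) (hE : ∀ x ∈ E, x ^ p = 1) :
    orderOf (QuotientGroup.mk' E c) = p ^ a := by
  apply Nat.dvd_antisymm
  · apply orderOf_dvd_of_pow_eq_one
    rw [← map_pow, ← MonoidHom.mem_ker, QuotientGroup.ker_mk']
    exact hz
  · have h1 : c ^ (orderOf (QuotientGroup.mk' E c)) ∈ E := by
      have h0 : QuotientGroup.mk' E (c ^ (orderOf (QuotientGroup.mk' E c))) = 1 := by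
        rw [map_pow, pow_orderOf_eq_one]
      rwa [← MonoidHom.mem_ker, QuotientGroup.ker_mk'] at h0
    have h2 := hE _ h1
    have h3 := dvd_of_pow_mem hc (m := (orderOf (QuotientGroup.mk' E c) : ℤ)) (by
      rw [zpow_natCast]; exact h2)
    exact_mod_cast h3

omit hp in
theorem pow_prime_of_order {P : Type u} [Group P] {z : P} (hz : orderOf z = p) : z ^ p = 1 := by
  have h := pow_orderOf_eq_one z
  rwa [hz] at h

theorem good_of_two (a : ℕ) : ∀ (P : Type u) [Group P] [Finite P],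
    (p ≠ 2 ∨ ∀ x y : P, x * y = y * x) → Nat.card P = p ^ (2 * a) →
    ∀ c₁ c₂ : P, orderOf c₁ = p ^ a → orderOf c₂ = p ^ a → zpowers c₁ ⊓ zpowers c₂ = ⊥ →
    Good p a P := by
  induction a with
  | zero =>
    intro P _ _ _ hP c₁ c₂ _ _ _
    rw [Nat.mul_zero, pow_zero] at hP
    exact hP
  | succ a ih =>
    intro P _ _ h2 hP c₁ c₂ h₁ h₂ hbot
    have hpg : IsPGroup p P := IsPGroup.of_card hP
    have hcd : ∀ c : P, orderOf c = p ^ (a + 1) → Nat.card P = (orderOf c) ^ 2 := by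
      intro c hc
      rw [hP, hc, ← pow_mul]; congr 1; ring
    set z₁ := c₁ ^ p ^ a with hz₁
    set z₂ := c₂ ^ p ^ a with hz₂
    have hc₁ : z₁ ∈ center P := central_of_cyclic hpg h₁ (hcd _ h₁)
    have hc₂ : z₂ ∈ center P := central_of_cyclic hpg h₂ (hcd _ h₂)
    have ho₁ : orderOf z₁ = p := orderOf_top_pow h₁
    have ho₂ : orderOf z₂ = p := orderOf_top_pow h₂
    have hle₁ : zpowers z₁ ≤ zpowers c₁ := zpowers_le.2 (pow_mem (mem_zpowers _) _)
    have hle₂ : zpowers z₂ ≤ zpowers c₂ := zpowers_le.2 (pow_mem (mem_zpowers _) _)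
    have hzz : zpowers z₁ ⊓ zpowers z₂ = ⊥ := by
      rw [eq_bot_iff, ← hbot]; exact inf_le_inf hle₁ hle₂
    have hcen₁ : zpowers z₁ ≤ center P := zpowers_le.2 hc₁
    have hcen₂ : zpowers z₂ ≤ center P := zpowers_le.2 hc₂
    let E : Subgroup P := prodSub (zpowers z₁) (zpowers z₂) (by
      intro b _ x hx
      have : b * x * b⁻¹ = x := by rw [mem_center_iff.1 (hcen₁ hx) b]; group
      rw [this]; exact hx)
    have hmem : ∀ x, x ∈ E ↔ ∃ x₁ ∈ zpowers z₁, ∃ x₂ ∈ zpowers z₂, x = x₁ * x₂ := fun x => Iff.rfl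
    have hEc : E ≤ center P := by
      intro x hx
      obtain ⟨x₁, hx₁, x₂, hx₂, rfl⟩ := (hmem x).1 hx
      exact mul_mem (hcen₁ hx₁) (hcen₂ hx₂)
    have hz₁E : z₁ ∈ E := (hmem _).2 ⟨z₁, mem_zpowers _, 1, one_mem _, by simp⟩
    have hz₂E : z₂ ∈ E := (hmem _).2 ⟨1, one_mem _, z₂, mem_zpowers _, by simp⟩
    have hEn : E.Normal := ⟨fun x hx g => by
      have : g * x * g⁻¹ = x := by rw [mem_center_iff.1 (hEc hx) g]; group
      rw [this]; exact hx⟩
    have hEcard : Nat.card E = p ^ 2 := by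
      change Nat.card (prodSub _ _ _) = _
      rw [card_prodSub _ hzz, Nat.card_zpowers, Nat.card_zpowers, ho₁, ho₂, sq]
    have hEp : ∀ x ∈ E, x ^ p = 1 := by
      intro x hx
      obtain ⟨x₁, ⟨i, rfl⟩, x₂, ⟨j, rfl⟩, rfl⟩ := (hmem x).1 hx
      simp only
      have hcomm : Commute (z₁ ^ i) (z₂ ^ j) :=
        (mem_center_iff.1 (hcen₁ (zpow_mem (mem_zpowers z₁) i)) (z₂ ^ j)).symm
      rw [hcomm.mul_pow, ← zpow_natCast, ← zpow_natCast, ← zpow_mul, ← zpow_mul,
        mul_comm i, mul_comm j, zpow_mul, zpow_mul, zpow_natCast, zpow_natCast,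
        pow_prime_of_order ho₁, pow_prime_of_order ho₂, one_zpow, one_zpow, one_mul]
    have hq₁ := orderOf_quot h₁ hz₁E hEp
    have hq₂ := orderOf_quot h₂ hz₂E hEp
    have hqbot : zpowers (QuotientGroup.mk' E c₁) ⊓ zpowers (QuotientGroup.mk' E c₂) = ⊥ := by
      rw [eq_bot_iff]
      rintro x ⟨⟨i, hi⟩, ⟨j, hj⟩⟩
      simp only at hi hj
      rw [← map_zpow] at hi hj
      have h3 : (c₂ ^ j)⁻¹ * c₁ ^ i ∈ E := by
        rw [← QuotientGroup.ker_mk' E, MonoidHom.mem_ker, map_mul, map_inv, hi, hj,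
          inv_mul_cancel]
      obtain ⟨x₁, hx₁, x₂, hx₂, hxx⟩ := (hmem _).1 h3
      have h4 : c₁ ^ i * x₁⁻¹ = c₂ ^ j * x₂ := by
        have h5 : c₁ ^ i = c₂ ^ j * (x₁ * x₂) := by rw [← hxx]; group
        have h6 := mem_center_iff.1 (hcen₁ hx₁) x₂
        rw [h5, ← h6]; group
      have h7 : c₁ ^ i * x₁⁻¹ = 1 := by
        apply mem_inf_bot hbot (mul_mem (zpow_mem (mem_zpowers c₁) i) (inv_mem (hle₁ hx₁)))
        rw [h4]
        exact mul_mem (zpow_mem (mem_zpowers c₂) j) (hle₂ hx₂)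
      have h8 : c₁ ^ i = x₁ := mul_inv_eq_one.1 h7
      rw [mem_bot, ← hi, h8, ← MonoidHom.mem_ker, QuotientGroup.ker_mk']
      exact (hmem _).2 ⟨x₁, hx₁, 1, one_mem _, by simp⟩
    have hqc : Nat.card (P ⧸ E) = p ^ (2 * a) := by
      have h3 := card_eq_card_quotient_mul_card_subgroup E
      rw [hP, hEcard] at h3
      have h4 : p ^ (2 * (a + 1)) = p ^ (2 * a) * p ^ 2 := by rw [← pow_add]; congr 1
      rw [h4] at h3
      exact (Nat.eq_of_mul_eq_mul_right (pow_pos hp.out.pos 2) h3).symm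
    have h2' : p ≠ 2 ∨ ∀ x y : P ⧸ E, x * y = y * x := by
      rcases h2 with h2 | h2
      · exact Or.inl h2
      · right
        intro x y
        obtain ⟨x, rfl⟩ := QuotientGroup.mk'_surjective E x
        obtain ⟨y, rfl⟩ := QuotientGroup.mk'_surjective E y
        rw [← map_mul, h2, map_mul]
    have hgood : Good p a (P ⧸ E) := ih (P ⧸ E) h2' hqc _ _ hq₁ hq₂ hqbot
    refine ⟨E, hEn, hEc, hEcard, fun x => ⟨fun hx => ?_, hEp x⟩, hgood⟩
    rcases a with _ | b
    · rw [Nat.mul_zero, pow_zero] at hqc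
      have := (Nat.card_eq_one_iff_unique.1 hqc).1
      rw [← QuotientGroup.ker_mk' E, MonoidHom.mem_ker]
      exact Subsingleton.elim _ _
    · obtain ⟨E', hE'n, hE'c, hE'card, hE', -⟩ := hgood
      have hy₁ : orderOf ((QuotientGroup.mk' E c₁) ^ p ^ b) = p := orderOf_top_pow hq₁
      have hy₂ : orderOf ((QuotientGroup.mk' E c₂) ^ p ^ b) = p := orderOf_top_pow hq₂
      have hyE₁ : (QuotientGroup.mk' E c₁) ^ p ^ b ∈ E' := (hE' _).1 (pow_prime_of_order hy₁)
      have hyE₂ : (QuotientGroup.mk' E c₂) ^ p ^ b ∈ E' := (hE' _).1 (pow_prime_of_order hy₂)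
      have hne : (QuotientGroup.mk' E c₂) ^ p ^ b ∉ zpowers ((QuotientGroup.mk' E c₁) ^ p ^ b) := by
        intro h
        have h3 := mem_inf_bot hqbot
          ((zpowers_le.2 (pow_mem (mem_zpowers (QuotientGroup.mk' E c₁)) (p ^ b))) h)
          (pow_mem (mem_zpowers (QuotientGroup.mk' E c₂)) (p ^ b))
        rw [h3, orderOf_one] at hy₂
        exact hp.out.one_lt.ne hy₂
      have hxE : QuotientGroup.mk' E x ∈ E' := by
        rw [← hE', ← map_pow, hx, map_one]
      obtain ⟨i, j, hij⟩ := span_of_ne hE'card hyE₁ hyE₂ hy₁ hy₂ hne hxE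
      set u := (c₁ ^ p ^ b) ^ i with hu
      set v := (c₂ ^ p ^ b) ^ j with hv
      have huE : QuotientGroup.mk' E u ∈ E' := by
        rw [hu, map_zpow, map_pow]; exact zpow_mem hyE₁ i
      have hxe : (u * v)⁻¹ * x ∈ E := by
        rw [← QuotientGroup.ker_mk' E, MonoidHom.mem_ker, map_mul, map_inv, map_mul, hij, hu, hv,
          map_zpow, map_zpow, map_pow, map_pow, inv_mul_cancel]
      have h4 : v * u * (u * v)⁻¹ ∈ E := by
        apply comm_mem_of_quot
        exact (mem_center_iff.1 (hE'c huE) _).symm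
      have h5 : (u * v) ^ p = u ^ p * v ^ p := by
        apply mul_pow_prime
        · rcases h2 with h2 | h2
          · exact Or.inl h2
          · exact Or.inr (h2 _ _)
        · intro x
          exact (mem_center_iff.1 (hEc h4) x).symm
        · exact hEp _ h4
      have h6 : x = (u * v) * ((u * v)⁻¹ * x) := by group
      have h7 : x ^ p = u ^ p * v ^ p := by
        rw [h6, Commute.mul_pow (show Commute _ _ from mem_center_iff.1 (hEc hxe) _),
          hEp _ hxe, mul_one, h5]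
      have hup : u ^ p = z₁ ^ i := by
        rw [hu, hz₁, ← zpow_natCast, ← zpow_mul, mul_comm, zpow_mul, zpow_natCast, ← pow_mul,
          ← pow_succ]
      have hvp : v ^ p = z₂ ^ j := by
        rw [hv, hz₂, ← zpow_natCast, ← zpow_mul, mul_comm, zpow_mul, zpow_natCast, ← pow_mul,
          ← pow_succ]
      rw [hx, hup, hvp] at h7
      have h8 : z₁ ^ i = 1 := by
        apply mem_inf_bot hzz (zpow_mem (mem_zpowers z₁) i)
        have : z₁ ^ i = (z₂ ^ j)⁻¹ := eq_inv_of_mul_eq_one_left h7.symm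
        rw [this]
        exact inv_mem (zpow_mem (mem_zpowers z₂) j)
      have h9 : z₂ ^ j = 1 := by rw [h8, one_mul] at h7; exact h7.symm
      have huE' : u ∈ E := by
        have h10 := dvd_of_pow_mem (a := 0) (c := z₁) (by rw [ho₁, zero_add, pow_one]) (m := i)
          (by rw [h8, one_pow])
        have h11 : (p : ℤ) ∣ i := by
          rw [← ho₁]; exact orderOf_dvd_iff_zpow_eq_one.2 h8
        obtain ⟨k, rfl⟩ := h11
        rw [hu, zpow_mul, zpow_natCast, ← pow_mul, ← pow_succ]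
        exact zpow_mem hz₁E k
      have hvE' : v ∈ E := by
        have h11 : (p : ℤ) ∣ j := by
          rw [← ho₂]; exact orderOf_dvd_iff_zpow_eq_one.2 h9
        obtain ⟨k, rfl⟩ := h11
        rw [hv, zpow_mul, zpow_natCast, ← pow_mul, ← pow_succ]
        exact zpow_mem hz₂E k
      rw [h6]
      exact mul_mem (mul_mem huE' hvE') hxe

end Pool.Agent.Lib_MP_53dcbc_mc
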