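import Pool.Agent.Lib_MP_53dcbc_mc.Third
import Pool.Agent.Lib_MP_53dcbc_mc.Defs

/-!
# Metacyclic groups
-/

namespace Pool.Agent.Lib_MP_53dcbc_mc

open Subgroup Pool.Agent.Lib_MP_53dcbc_co

universe u

variable {p : ℕ} [hp : Fact p.Prime]

omit hp in
theorem quot_generated {P : Type u} [Group P] {x y : P} [(zpowers x).Normal]
    (h : zpowers x ⊔ zpowers y = ⊤) : zpowers (QuotientGroup.mk' (zpowers x) y) = ⊤ := by
  rw [eq_top_iff]
  intro z _
  obtain ⟨z, rfl⟩ := QuotientGroup.mk'_surjective _ z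
  obtain ⟨u, hu, v, ⟨k, hk⟩, huv⟩ := mem_sup_of_normal_left.1
    (show z ∈ zpowers x ⊔ zpowers y by rw [h]; trivial)
  simp only at hk
  refine ⟨k, ?_⟩
  have h1 : QuotientGroup.mk' (zpowers x) u = 1 := by
    rw [← MonoidHom.mem_ker, QuotientGroup.ker_mk']; exact hu
  simp only
  rw [← huv, map_mul, h1, one_mul, ← hk, map_zpow]

theorem two_components_cyclic {a : ℕ} {P : Type u} [Group P] [Finite P] (hm : Metacyclic P)
    (hP : Nat.card P = (p ^ a) ^ 2) {U : Fin 3 → Subgroup P} (hU : IsPCP (p ^ a) U) :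
    ∃ i j, i ≠ j ∧ (∃ c, U i = zpowers c) ∧ ∃ c, U j = zpowers c := by
  obtain ⟨x, y, hx, hxy⟩ := hm
  have hcyc : IsCyclic (P ⧸ zpowers x) := by
    refine ⟨⟨QuotientGroup.mk' (zpowers x) y, fun z => ?_⟩⟩
    have h1 := quot_generated hxy
    have h2 : z ∈ zpowers (QuotientGroup.mk' (zpowers x) y) := by rw [h1]; trivial
    exact h2
  have h1 : ∀ l, zpowers x ⊓ U l = ⊥ → ∃ c, U l = zpowers c := by
    intro l hl
    let f : U l →* P ⧸ zpowers x := (QuotientGroup.mk' (zpowers x)).comp (U l).subtype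
    have hf : Function.Injective f := by
      rw [injective_iff_map_eq_one]
      intro z hz
      have h2 : QuotientGroup.mk' (zpowers x) (z : P) = 1 := hz
      rw [← MonoidHom.mem_ker, QuotientGroup.ker_mk'] at h2
      exact Subtype.ext (mem_inf_bot hl h2 z.2)
    have h3 : IsCyclic (U l) := isCyclic_of_injective f hf
    obtain ⟨c, hc⟩ := (Subgroup.isCyclic_iff_exists_zpowers_eq_top (U l)).1 h3
    exact ⟨c, hc.symm⟩
  have h2 : ∀ l m, l ≠ m → zpowers x ⊓ U l ≠ ⊥ → zpowers x ⊓ U m = ⊥ := by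
    intro l m hlm hl
    by_contra hm
    have hex : ∀ l, zpowers x ⊓ U l ≠ ⊥ → ∃ w, w ∈ zpowers x ∧ w ∈ U l ∧ w ≠ 1 := by
      intro l hl
      by_contra hcon
      push Not at hcon
      exact hl (eq_bot_iff.2 fun w hw => mem_bot.2 (hcon w hw.1 hw.2))
    obtain ⟨w, hwx, hwl, hw1⟩ := hex l hl
    obtain ⟨v, hvx, hvm, hv1⟩ := hex m hm
    have hox : orderOf x ∣ p ^ (a * 2) := by
      rw [pow_mul, ← hP]; exact orderOf_dvd_natCard x
    obtain ⟨e, he, hoe⟩ := (Nat.dvd_prime_pow hp.out).1 hox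
    obtain ⟨e, rfl⟩ : ∃ f, e = f + 1 := by
      rcases e with _ | e
      · rw [pow_zero] at hoe
        have h4 := orderOf_eq_one_iff.1 hoe
        rw [h4, zpowers_one_eq_bot, mem_bot] at hwx
        exact absurd hwx hw1
      · exact ⟨e, rfl⟩
    have h3 := (zpowers_le.2 hwl) (socle_le hoe hwx hw1)
    have h4 := (zpowers_le.2 hvm) (socle_le hoe hvx hv1)
    have h5 := mem_inf_bot (hU.2 l m hlm) h3 h4
    have h6 := orderOf_top_pow hoe
    rw [h5, orderOf_one] at h6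
    exact hp.out.one_lt.ne h6
  by_cases h0 : ∃ l, zpowers x ⊓ U l ≠ ⊥
  · obtain ⟨l, hl⟩ := h0
    obtain ⟨i, j, hij, hil, hjl⟩ := fin3_two l
    exact ⟨i, j, hij, h1 i (h2 l i hil.symm hl), h1 j (h2 l j hjl.symm hl)⟩
  · push Not at h0
    exact ⟨0, 1, by decide, h1 0 (h0 0), h1 1 (h0 1)⟩

/-- all components of a metacyclic `p`-group are cyclic (`p` odd, or the group abelian) -/
theorem components_cyclic {a : ℕ} {P : Type u} [Group P] [Finite P]
    (h2 : p ≠ 2 ∨ ∀ x y : P, x * y = y * x) (hm : Metacyclic P)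
    (hP : Nat.card P = (p ^ a) ^ 2) {U : Fin 3 → Subgroup P} (hU : IsPCP (p ^ a) U) (k : Fin 3) :
    ∃ c, U k = zpowers c := by
  obtain ⟨i, j, hij, hi, hj⟩ := two_components_cyclic hm hP hU
  exact all_cyclic a P h2 hP U hU i j hij hi hj k

theorem good_of_metacyclic {a : ℕ} {P : Type u} [Group P] [Finite P]
    (h2 : p ≠ 2 ∨ ∀ x y : P, x * y = y * x) (hm : Metacyclic P)
    (hP : Nat.card P = p ^ (2 * a)) (hexp : ∀ g : P, g ^ p ^ a = 1) : Good p a P := by
  obtain ⟨x, y, hx, hxy⟩ := hm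
  have h1 := quot_generated hxy
  have hcard := card_eq_card_quotient_mul_card_subgroup (zpowers x)
  rw [hP, Nat.card_zpowers] at hcard
  have h3 : Nat.card (P ⧸ zpowers x) = orderOf (QuotientGroup.mk' (zpowers x) y) := by
    rw [← Nat.card_zpowers, h1, Subgroup.card_top]
  rw [h3] at hcard
  have hox : orderOf x ∣ p ^ a := orderOf_dvd_of_pow_eq_one (hexp x)
  have hoq : orderOf (QuotientGroup.mk' (zpowers x) y) ∣ orderOf y := orderOf_map_dvd _ _
  have hoy : orderOf y ∣ p ^ a := orderOf_dvd_of_pow_eq_one (hexp y)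
  have hpos : 0 < p ^ a := pow_pos hp.out.pos a
  have hx1 := Nat.le_of_dvd hpos hox
  have hy1 := Nat.le_of_dvd hpos (hoq.trans hoy)
  have hpp : p ^ (2 * a) = p ^ a * p ^ a := by rw [← pow_add]; congr 1; ring
  rw [hpp] at hcard
  have hx2 : orderOf x = p ^ a := by
    by_contra hne
    have hlt : orderOf x < p ^ a := lt_of_le_of_ne hx1 hne
    have h4 : orderOf (QuotientGroup.mk' (zpowers x) y) * orderOf x < p ^ a * p ^ a := by
      calc _ ≤ p ^ a * orderOf x := Nat.mul_le_mul_right _ hy1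
        _ < _ := Nat.mul_lt_mul_of_pos_left hlt hpos
    omega
  have hy2 : orderOf (QuotientGroup.mk' (zpowers x) y) = p ^ a := by
    rw [hx2] at hcard
    exact (Nat.eq_of_mul_eq_mul_right hpos hcard).symm
  have hy3 : orderOf y = p ^ a := by
    apply Nat.dvd_antisymm hoy
    rw [← hy2]; exact hoq
  apply good_of_two a P h2 hP x y hx2 hy3
  rw [eq_bot_iff]
  rintro z ⟨hz1, ⟨m, hm⟩⟩
  simp only at hm
  rw [mem_bot, ← hm]
  apply orderOf_dvd_iff_zpow_eq_one.1
  rw [hy3, ← hy2]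
  apply orderOf_dvd_iff_zpow_eq_one.2
  rw [← map_zpow, hm, ← MonoidHom.mem_ker, QuotientGroup.ker_mk']
  exact hz1

end Pool.Agent.Lib_MP_53dcbc_mc
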