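import Pool.Agent.Lib_MP_53dcbc_mc.TwoGen

/-!
# Components with cyclic Sylow subgroups
-/

namespace Pool.Agent.Lib_MP_53dcbc_mc

open Subgroup Pool.Agent.Lib_MP_53dcbc_co
open scoped Pointwise

universe u

theorem sylow_normal_of_zgroup (n : ℕ) : ∀ (H : Type u) [Group H] [Finite H],
    Nat.card H = n → IsZGroup H → ∀ (p : ℕ) [Fact p.Prime],
    (∀ r, r.Prime → r ∣ n → r ≤ p) → ∀ P : Sylow p H, (P : Subgroup H).Normal := by
  induction n using Nat.strong_induction_on with
  | _ n ih =>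
  intro H _ _ hn hZ p hp hle P
  by_cases hn1 : n = 1
  · have : Subsingleton H := (Nat.card_eq_one_iff_unique.1 (hn.trans hn1)).1
    have h1 : (P : Subgroup H) = ⊥ := Subsingleton.elim _ _
    rw [h1]; infer_instance
  have hq : n.minFac.Prime := Nat.minFac_prime hn1
  have := Fact.mk hq
  by_cases hqp : n.minFac = p
  · have hH : IsPGroup p H := by
      apply isPGroup_of_primes
      intro r hr hd
      rw [hn] at hd
      exact le_antisymm (hle r hr hd) (hqp ▸ Nat.minFac_le_of_dvd hr.two_le hd)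
    have h1 : (P : Subgroup H) = ⊤ := by
      have h2 : IsPGroup p (⊤ : Subgroup H) := hH.to_subgroup ⊤
      have h4 := P.is_maximal' h2 le_top
      exact h4.symm
    rw [h1]; infer_instance
  · obtain ⟨Q⟩ : Nonempty (Sylow n.minFac H) := inferInstance
    have hmf : (Nat.card H).minFac = n.minFac := by rw [hn]
    have hQc : IsCyclic Q := inferInstance
    have hcomp := IsCyclic.isComplement' hmf hQc
    set K := (MonoidHom.transferSylow Q (hQc.normalizer_le_centralizer hmf)).ker with hK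
    have hcard := hcomp.card_mul_card
    have hQne : Nat.card Q ≠ 1 := by
      have h1 : n.minFac ∣ Nat.card Q :=
        Q.dvd_card_of_dvd_card (by rw [hn]; exact Nat.minFac_dvd n)
      intro h2
      rw [h2] at h1
      exact hq.one_lt.ne' (Nat.dvd_one.1 h1)
    have hKlt : Nat.card K < n := by
      rw [← hn, ← hcard]
      have h1 : 0 < Nat.card K := Nat.card_pos
      have h2 : 0 < Nat.card Q := Nat.card_pos
      have h3 : 1 < Nat.card Q := by omega
      exact lt_mul_of_one_lt_right h1 h3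
    have hKd : Nat.card K ∣ n := by
      rw [← hn, ← hcard]; exact Dvd.intro _ rfl
    have hPK : (P : Subgroup H) ≤ K := by
      have h1 : Nat.Coprime (Nat.card P) K.index := by
        rw [hcomp.symm.index_eq_card]
        obtain ⟨a, ha⟩ := P.isPGroup'.exists_card_eq
        obtain ⟨b, hb⟩ := Q.isPGroup'.exists_card_eq
        rw [ha, hb]
        exact Nat.Coprime.pow a b ((Nat.coprime_primes hp.out hq).2 (Ne.symm hqp))
      have h3 : K.relIndex (P : Subgroup H) ∣ K.index := relIndex_dvd_index_of_normal K P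
      have h4 : K.relIndex (P : Subgroup H) ∣ Nat.card P := by
        exact Subgroup.relIndex_dvd_card K P
      exact relIndex_eq_one.1 (Nat.eq_one_of_dvd_coprimes h1 h4 h3)
    have hPn : (P.subtype hPK : Subgroup K).Normal := by
      apply ih (Nat.card K) hKlt K rfl inferInstance p
      intro r hr hd
      exact hle r hr (hd.trans hKd)
    have hch : (P.subtype hPK : Subgroup K).Characteristic := Sylow.characteristic_of_normal _ hPn
    have h5 : ((P.subtype hPK : Subgroup K).map K.subtype).Normal := inferInstance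
    rw [Sylow.coe_subtype, subgroupOf_map_subtype, inf_eq_left.2 hPK] at h5
    exact h5

theorem isPGroup_zpowers {G : Type u} [Group G] {p a : ℕ} [Fact p.Prime] {c : G}
    (hc : orderOf c = p ^ a) : IsPGroup p (zpowers c) :=
  IsPGroup.of_card (n := a) (by rw [Nat.card_zpowers, hc])

/-- In a subgroup with cyclic Sylow subgroups the Sylow subgroup of the largest prime is
normal. -/
theorem conj_mem_of_zgroup {G : Type u} [Group G] [Finite G] {U : Subgroup G} {p a m : ℕ}
    [hp : Fact p.Prime] (hZ : IsZGroup U) (hcard : Nat.card U = p ^ a * m) (hpm : ¬ p ∣ m)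
    (hle : ∀ r, r.Prime → r ∣ Nat.card U → r ≤ p) {c : G} (hc : c ∈ U) (hoc : orderOf c = p ^ a)
    {u : G} (hu : u ∈ U) : u * c * u⁻¹ ∈ zpowers c := by
  have hoc' : orderOf (⟨c, hc⟩ : U) = p ^ a := by rw [← Subgroup.orderOf_coe]; exact hoc
  obtain ⟨P, hP⟩ := (isPGroup_zpowers hoc').exists_le_sylow
  have hn := sylow_normal_of_zgroup (Nat.card U) U rfl hZ p hle P
  have hcardP : Nat.card (P : Subgroup U) = p ^ a := by
    obtain ⟨k, hk⟩ := P.isPGroup'.exists_card_eq
    have h1 : p ^ k ∣ p ^ a * m := by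
      rw [← hcard, ← hk]; exact P.card_subgroup_dvd_card
    have h2 : k ≤ a := by
      by_contra hk2
      have h3 : p ^ a * p ∣ p ^ a * m := by
        rw [← pow_succ]
        exact (pow_dvd_pow p (by omega)).trans h1
      exact hpm (Nat.dvd_of_mul_dvd_mul_left (pow_pos hp.out.pos a) h3)
    have h4 : Nat.card (zpowers (⟨c, hc⟩ : U)) ∣ Nat.card (P : Subgroup U) := card_dvd_of_le hP
    have hk' : Nat.card (P : Subgroup U) = p ^ k := hk
    rw [Nat.card_zpowers, hoc', hk'] at h4
    have h5 : a ≤ k := (Nat.pow_dvd_pow_iff_le_right hp.out.one_lt).1 h4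
    rw [hk', le_antisymm h2 h5]
  have hPz : (P : Subgroup U) = zpowers (⟨c, hc⟩ : U) := by
    symm
    apply eq_of_le_of_card_ge hP
    rw [hcardP, Nat.card_zpowers, hoc']
  have h8 := hn.conj_mem ⟨c, hc⟩ (hP (mem_zpowers _)) ⟨u, hu⟩
  rw [hPz] at h8
  obtain ⟨k, hk⟩ := h8
  exact ⟨k, by simpa using congrArg Subtype.val hk⟩

theorem card_sylow' {G : Type u} [Group G] [Finite G] {s p a m : ℕ} [hp : Fact p.Prime]
    (hs : s = p ^ a * m) (hpm : ¬ p ∣ m) (hG : Nat.card G = s ^ 2) (Q : Sylow p G) :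
    Nat.card (Q : Subgroup G) = p ^ (2 * a) := by
  have h1 := Q.card_eq_multiplicity
  have hm0 : m ≠ 0 := by
    rintro rfl
    exact hpm (dvd_zero p)
  rw [hG, Nat.factorization_pow, hs, Nat.factorization_mul (pow_ne_zero _ hp.out.ne_zero) hm0] at h1
  simp only [Finsupp.smul_apply, Finsupp.add_apply, Nat.Prime.factorization_pow hp.out,
    Finsupp.single_eq_same, Nat.factorization_eq_zero_of_not_dvd hpm, add_zero, smul_eq_mul] at h1
  exact h1

/-- conjugating Sylow subgroups of the components into a given Sylow subgroup -/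
theorem exists_conj_le {G : Type u} [Group G] [Finite G] {p : ℕ} [hp : Fact p.Prime]
    {T : Subgroup G} (hT : IsPGroup p T) (Q : Sylow p G) : ∃ g : G, cj g T ≤ Q := by
  obtain ⟨Q', hQ'⟩ := hT.exists_le_sylow
  obtain ⟨g, hg⟩ := MulAction.exists_smul_eq G Q' Q
  refine ⟨g, ?_⟩
  intro x hx
  rw [mem_cj] at hx
  rw [← hg]
  have h2 : MulAut.conj g • (g⁻¹ * x * g) ∈ MulAut.conj g • (Q' : Subgroup G) :=
    Subgroup.smul_mem_pointwise_smul _ _ _ (hQ' hx)
  have h3 : g * (g⁻¹ * x * g) * g⁻¹ ∈ ((g • Q' : Sylow p G) : Subgroup G) := by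
    rw [Sylow.coe_subgroup_smul]
    rw [MulAut.smul_def, MulAut.conj_apply] at h2
    exact h2
  have h4 : g * (g⁻¹ * x * g) * g⁻¹ = x := by group
  rw [h4] at h3
  exact h3

theorem cj_mono {G : Type u} [Group G] {g : G} {A B : Subgroup G} (h : A ≤ B) :
    cj g A ≤ cj g B := map_mono h

/-- Sylow subgroups of the components, moved into a Sylow subgroup `Q`, form a partition of
`Q`. -/
theorem pcp_in_sylow {G : Type u} [Group G] [Finite G] {s p a m : ℕ} [hp : Fact p.Prime]
    (hs : s = p ^ a * m) (hpm : ¬ p ∣ m) (hG : Nat.card G = s ^ 2) {U : Fin 3 → Subgroup G}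
    (hU : IsPCP s U) (S : ∀ i, Sylow p (U i)) (Q : Sylow p G) : ∃ g : Fin 3 → G,
    (∀ i, cj (g i) ((S i : Subgroup (U i)).map (U i).subtype) ≤ Q) ∧
    IsPCP (p ^ a) (fun i => (cj (g i) ((S i : Subgroup (U i)).map (U i).subtype)).subgroupOf
      (Q : Subgroup G)) := by
  have hm0 : m ≠ 0 := by
    rintro rfl
    exact hpm (dvd_zero p)
  have hcS : ∀ i, Nat.card (S i : Subgroup (U i)) = p ^ a := by
    intro i
    have h1 := (S i).card_eq_multiplicity
    rw [hU.1, hs, Nat.factorization_mul (pow_ne_zero _ hp.out.ne_zero) hm0] at h1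
    simp only [Finsupp.add_apply, Nat.Prime.factorization_pow hp.out,
      Finsupp.single_eq_same, Nat.factorization_eq_zero_of_not_dvd hpm, add_zero] at h1
    exact h1
  have hcM : ∀ i, Nat.card ((S i : Subgroup (U i)).map (U i).subtype) = p ^ a := by
    intro i
    rw [card_map_of_injective (subtype_injective (U i)), hcS]
  choose g hg using fun i => exists_conj_le (IsPGroup.of_card (hcM i)) Q
  have hV := hU.conj hG g
  refine ⟨g, hg, ?_, ?_⟩
  · intro i
    rw [Nat.card_congr (subgroupOfEquivOfLe (hg i)).toEquiv, card_cj, hcM]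
  · intro i j hij
    rw [eq_bot_iff]
    rintro ⟨x, hx⟩ ⟨h1, h2⟩
    have h3 : x ∈ cj (g i) (U i) := cj_mono (map_subtype_le _) h1
    have h4 : x ∈ cj (g j) (U j) := cj_mono (map_subtype_le _) h2
    have h5 := mem_inf_bot (hV.2 i j hij) h3 h4
    rw [mem_bot]
    exact Subtype.ext h5

/-- If the Sylow subgroups of `G` are metacyclic, and abelian for the prime 2, then all
components have cyclic Sylow subgroups. -/
theorem components_zgroup {G : Type u} [Group G] [Finite G] {s : ℕ} (hG : Nat.card G = s ^ 2)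
    {U : Fin 3 → Subgroup G} (hU : IsPCP s U)
    (hm : ∀ p : ℕ, p.Prime → ∀ Q : Sylow p G, Metacyclic Q)
    (h2 : ∀ Q : Sylow 2 G, ∀ x y : Q, x * y = y * x) (i₀ : Fin 3) : IsZGroup (U i₀) := by
  refine ⟨fun p hpp S₀ => ?_⟩
  have hp : Fact p.Prime := ⟨hpp⟩
  have hs0 : s ≠ 0 := by
    rintro rfl
    have : 0 < Nat.card G := Nat.card_pos
    rw [hG] at this
    simp at this
  obtain ⟨a, m, hpm, hs⟩ := Nat.exists_eq_pow_mul_and_not_dvd hs0 p hpp.ne_one
  obtain ⟨Q⟩ : Nonempty (Sylow p G) := inferInstance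
  classical
  have hS : ∃ S : ∀ i, Sylow p (U i), S i₀ = S₀ := by
    refine ⟨fun i => if h : i = i₀ then h ▸ S₀ else default, ?_⟩
    simp
  obtain ⟨S, hS⟩ := hS
  obtain ⟨g, hg, hpcp⟩ := pcp_in_sylow hs hpm hG hU S Q
  have hQc : Nat.card (Q : Subgroup G) = (p ^ a) ^ 2 := by
    rw [card_sylow' hs hpm hG Q, ← pow_mul]; congr 1; ring
  obtain ⟨c, hc⟩ := components_cyclic (P := (Q : Subgroup G)) (by
    by_cases hp2 : p = 2
    · subst hp2
      exact Or.inr (h2 Q)
    · exact Or.inl hp2) (hm p hpp Q) hQc hpcp i₀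
  have hcm : c ∈ (cj (g i₀) ((S i₀ : Subgroup (U i₀)).map (U i₀).subtype)).subgroupOf
      (Q : Subgroup G) := by rw [hc]; exact mem_zpowers c
  rw [mem_subgroupOf, mem_cj] at hcm
  obtain ⟨x, hx, hxc⟩ := hcm
  have hox : orderOf x = p ^ a := by
    have h3 : orderOf c = p ^ a := by
      rw [← Nat.card_zpowers, ← hc]; exact hpcp.1 i₀
    rw [← Subgroup.orderOf_coe, ← h3, ← Subgroup.orderOf_coe c]
    have h4 : ((x : U i₀) : G) = (g i₀)⁻¹ * (c : G) * (g i₀)⁻¹⁻¹ := by
      rw [inv_inv]; exact hxc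
    rw [h4, orderOf_conj']
  have hcS : Nat.card (S i₀ : Subgroup (U i₀)) = p ^ a := by
    have h5 := hpcp.1 i₀
    simp only at h5
    rw [Nat.card_congr (subgroupOfEquivOfLe (hg i₀)).toEquiv, card_cj,
      card_map_of_injective (subtype_injective (U i₀))] at h5
    exact h5
  rw [← hS]
  apply isCyclic_of_orderOf_eq_card (⟨x, hx⟩ : S i₀)
  rw [← Subgroup.orderOf_coe]
  change orderOf x = Nat.card (S i₀ : Subgroup (U i₀))
  rw [hox, hcS]

/-- common generators -/
theorem exists_common_gen {G : Type u} [Group G] [Finite G] {s p a m : ℕ} [hp : Fact p.Prime]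
    (hs : s = p ^ a * m) (hpm : ¬ p ∣ m) (hG : Nat.card G = s ^ 2) {U : Fin 3 → Subgroup G}
    (hU : IsPCP s U) (hZ : ∀ i, IsZGroup (U i)) (Q : Sylow p G) :
    ∃ g c : Fin 3 → G, ∀ i, c i ∈ cj (g i) (U i) ∧ c i ∈ Q ∧ orderOf (c i) = p ^ a := by
  obtain ⟨g, hg, hpcp⟩ := pcp_in_sylow hs hpm hG hU (fun _ => default) Q
  have key : ∀ i, ∃ c, c ∈ cj (g i) (U i) ∧ c ∈ Q ∧ orderOf c = p ^ a := by
    intro i
    have hZi := hZ i
    have hcy : IsCyclic (default : Sylow p (U i)) := inferInstance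
    obtain ⟨x, hx⟩ := (Subgroup.isCyclic_iff_exists_zpowers_eq_top
      ((default : Sylow p (U i)) : Subgroup (U i))).1 hcy
    have h5 := hpcp.1 i
    simp only at h5
    rw [Nat.card_congr (subgroupOfEquivOfLe (hg i)).toEquiv, card_cj,
      card_map_of_injective (subtype_injective (U i)), ← hx, Nat.card_zpowers] at h5
    have hxm : x ∈ ((default : Sylow p (U i)) : Subgroup (U i)) := by
      rw [← hx]; exact mem_zpowers x
    have hmem : g i * (x : G) * (g i)⁻¹ ∈ cj (g i)
        (((default : Sylow p (U i)) : Subgroup (U i)).map (U i).subtype) := by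
      rw [mem_cj]
      refine ⟨x, hxm, ?_⟩
      change (x : G) = _
      group
    refine ⟨g i * x * (g i)⁻¹, ?_, hg i hmem, ?_⟩
    · exact cj_mono (map_subtype_le _) hmem
    · rw [orderOf_conj', Subgroup.orderOf_coe, h5]
  choose c hc using key
  exact ⟨g, c, hc⟩

end Pool.Agent.Lib_MP_53dcbc_mc
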